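import Pool.Agent.W_7d29a1_KL.CoreS46
import Pool.Agent.W_7d29a1_D2.FlK4
import Pool.Agent.W_7d29a1_D2.ExpK34

/-!
The core estimate and the second inequality for one component of the polymer on a line of tilts.
-/

namespace Pool.Agent.W_7d29a1_KL

open MeasureTheory ProbabilityTheory Filter Topology Pool.Agent.W_MP_7d29a1_pr
  Pool.Agent.W_7d29a1_h46 Pool.Agent.W_7d29a1_h46u Pool.Agent.W_7d29a1_D2 Pool.Agent.W_7d29a1_V
  Pool.Agent.W_7d29a1_VT Pool.Agent.W_7d29a1_VT.Slab46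

variable {d : ℕ} {ρ : Measure ℝ} [IsProbabilityMeasure ρ] {β : ℝ}

lemma slb_mono {n : ℕ} (u : Vec d) (s : ℝ) {r r' : ℝ} (h : r ≤ r') :
    slb d n u s r ⊆ slb d n u s r' := fun _ hs i hi => (hs i hi).trans h

/-- The slab in the direction `‖r‖⁻¹ • r`, `r = t • u`. -/
lemma slab_eq {n : ℕ} {u : Vec d} (hu : ‖u‖ = 1) (s : ℝ) {t : ℝ} (ht : t ≠ 0) (W : ℝ) :
    slab97 d n (‖t • u‖⁻¹ • (t • u)) (s • u) W = slb d n u s W := by
  have h1 : ‖t • u‖ = |t| := by rw [norm_smul, hu, mul_one, Real.norm_eq_abs]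
  have ht0 : 0 < |t| := abs_pos.2 ht
  have key : ∀ (i : ℕ) (x : Site d), |off97 (‖t • u‖⁻¹ • (t • u)) (s • u) i x| =
      |inner ℝ u (emb x) - i * s| := by
    intro i x
    unfold off97
    have h2 : inner ℝ (‖t • u‖⁻¹ • (t • u)) (emb x - (i : ℝ) • (s • u)) =
        (|t|⁻¹ * t) * (inner ℝ u (emb x) - i * s) := by
      rw [h1, smul_smul, real_inner_smul_left, inner_sub_right, real_inner_smul_right,
        real_inner_smul_right, real_inner_self_eq_norm_sq, hu]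
      ring
    rw [h2, abs_mul, abs_mul, abs_inv, abs_abs, inv_mul_cancel₀ ht0.ne', one_mul]
  ext q
  constructor
  · intro hq i hi
    rw [← key]
    exact hq i hi
  · intro hq i hi
    rw [key]
    exact hq i hi

/-- All polymers of length at most `n`, started in the box of size `n`, stay in the slab. -/
lemma evS_half (hd : 0 < d) {h u : Vec d} {s a : ℝ} (ha : 0 < a) (hT : SbF ρ β h u s a) (q : ℕ) :
    ∃ C : ℝ, 0 ≤ C ∧ ∀ n : ℕ, 1 ≤ n →
      (law d ρ).real {η | ¬ ∀ i ≤ n, ∀ y ∈ boxF d n, ∀ l ≤ n,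
        1 / 2 ≤ PolT β h (sh i y η) (slb d l u s ((n : ℝ) ^ a))} ≤ C * (n : ℝ) ^ (-(q : ℝ)) := by
  obtain ⟨C, hC, H⟩ := evG80 hd (T := fun l r => slb d l u s r) (fun _ _ _ h => slb_mono u s h)
    (by positivity : 0 < ‖u‖ + |s| + 1)
    (fun l r h => slb_univ u s (le_trans (mul_le_mul_of_nonneg_left (by linarith)
      (Nat.cast_nonneg l)) h)) ha hT (κ := 1 / 2) (by norm_num) 0 q
  refine ⟨C, hC, fun n hn => ?_⟩
  have h1 := H n hn
  have h2 : (1 : ℝ) - 1 / 2 * (n : ℝ) ^ (-((0 : ℕ) : ℝ)) = 1 / 2 := by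
    rw [Nat.cast_zero, neg_zero, Real.rpow_zero]
    norm_num
  rw [h2] at h1
  exact h1

/-- **The core estimate on a line.** -/
theorem coreU46 (hd : 0 < d) (hρ : EM ρ) {K : ℕ → Set (Vec d)} {h u : Vec d} {s a x : ℝ}
    (hu : ‖u‖ = 1) (ha : 0 < a) (hx : 0 < x) (hx1 : x < 1) (hF : FlK ρ β K x)
    (hh : ∀ Q : ℕ, h ∈ K Q) (hl : ∀ Q : ℕ, ∀ k ∈ K Q, ∃ t : ℝ, k = h + t • u)
    (hT : SbF ρ β h u s a) : CoreK ρ β K h (s • u) a x := by
  intro q ε hε
  rcases Nat.eq_zero_or_pos q with rfl | hq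
  · refine ⟨0, 1, one_pos, 0, le_rfl, fun n m _ _ r _ _ _ _ => ?_⟩
    simp
  obtain ⟨Q, C₁, hC₁, HX⟩ := evXK4 hd hρ (β := β) hx.le hx1 hF hε (8 * q + d)
  obtain ⟨C₂, hC₂, HT⟩ := evS_half hd (β := β) ha hT (8 * q + d)
  obtain ⟨C, hC, H⟩ := CoreS46.coreAtS hd hρ (β := β) (h := h) (v := s • u) ha hx hq hε hC₁ hC₂
  refine ⟨Q, 1, one_pos, C, hC, fun n m hm hmn r hr0 _ hrK hcond => ?_⟩
  have hn0 : (0 : ℝ) ≤ n := Nat.cast_nonneg n
  have hrp : (n : ℝ) ^ (-((8 * q + d : ℕ) : ℝ)) = ((n : ℝ) ^ (8 * q + d))⁻¹ := by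
    rw [Real.rpow_neg hn0, Real.rpow_natCast]
  obtain ⟨t, ht⟩ := hl Q _ hrK
  have hrt : r = t • u := add_left_cancel ht
  have ht0 : t ≠ 0 := by
    rintro rfl
    rw [hrt, zero_smul, norm_zero] at hr0
    exact lt_irrefl _ hr0
  refine H n m hm hmn r hr0 ?_ ?_ ?_ (by linarith)
  · have h1 := HT n (by omega)
    rw [hrp] at h1
    have h2 : CoreS46.EvS β h (s • u) (‖r‖⁻¹ • r) a n = {η | ¬ ∀ i ≤ n, ∀ y ∈ boxF d n, ∀ l ≤ n,
        1 / 2 ≤ PolT β h (sh i y η) (slb d l u s ((n : ℝ) ^ a))} := by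
      unfold CoreS46.EvS
      rw [hrt]
      simp only [slab_eq hu s ht0]
    rw [h2]
    exact h1
  · have := HX h (hh Q) n m hm (by omega)
    rwa [hrp] at this
  · have := HX (h + r) hrK n m hm (by omega)
    rwa [hrp] at this

/-- The lower bound at points of the sets `K`. -/
lemma loAK_of_LoU {L : Vec d → ℝ} {K : ℕ → Set (Vec d)} {h u : Vec d} {s p : ℝ} (hu : ‖u‖ = 1)
    (hp : 0 ≤ p) (hD : DnU K h u) (hL : LoU L h u s p) : LoAK L K h (s • u) p := by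
  obtain ⟨c, δ, hc, hδ, H⟩ := hL
  refine ⟨c, hc, fun Q => ?_⟩
  obtain ⟨δ', hδ', H'⟩ := (hD Q).2.2 (1 / 2) (by norm_num)
  refine ⟨min (δ / 3) (δ' / 4), lt_min (by linarith) (by linarith), fun s' hs hs' => ?_⟩
  have h1 : s' ≤ δ / 3 := hs'.trans (min_le_left _ _)
  have h2 : s' ≤ δ' / 4 := hs'.trans (min_le_right _ _)
  have h2s : |2 * s'| = 2 * s' := abs_of_pos (by linarith)
  obtain ⟨t, ht, htn⟩ := H' (2 * s') (by rw [h2s]; linarith) (by rw [h2s]; linarith)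
  rw [h2s] at htn
  have h3 := abs_le.1 htn
  have h4 : s' ≤ t := by linarith [h3.1]
  have h5 : t ≤ 3 * s' := by linarith [h3.2]
  have h6 : |t| = t := abs_of_pos (by linarith)
  have h7 : ‖t • u‖ = t := by rw [norm_smul, hu, mul_one, Real.norm_eq_abs, h6]
  refine ⟨t • u, by rw [h7]; exact h4, by rw [h7]; exact h5, ht, ?_⟩
  have h8 := H t (by rw [h6]; linarith)
  rw [h6] at h8
  have h9 : gap L h (s • u) (t • u) = L (h + t • u) - L h - s * t := by
    unfold gap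
    rw [real_inner_smul_left, real_inner_smul_right, real_inner_self_eq_norm_sq, hu]
    ring
  rw [h9]
  refine le_trans ?_ h8
  exact mul_le_mul_of_nonneg_left (Real.rpow_le_rpow hs.le h4 hp) hc.le

variable {Ω : Type*} [MeasurableSpace Ω] {μ : Measure Ω} [IsProbabilityMeasure μ]
  {ω : ℕ × Site d → Ω → ℝ}

/-- **The second inequality on a line**, for a unit vector. -/
theorem expU1 (hd : 0 < d) (hω : IID μ ρ ω) (hρ : EM ρ) {h u : Vec d} {s p : ℝ} (hu : ‖u‖ = 1)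
    (hp : 1 < p) (hDn : DnPU ρ β h u) (hLo : LoU (lam ρ β) h u s p) :
    (1 + (p - 1) * chiF μ β ω h) * chiF μ β ω h ≤ p * nuL μ β ω h u s * chiF μ β ω h := by
  have hN0 : 0 ≤ nuL μ β ω h u s := Real.sInf_nonneg fun _ hx => hx.1.le
  have hX0 : 0 ≤ chiF μ β ω h := Real.sInf_nonneg fun _ hx => hx.1.le
  have hXc := expA34_F_le_S (β := β) hd hω hρ h
  have hc2 := chiS_le_half (β := β) hd hω hρ h
  have hneX : (chiSetF μ β ω h).Nonempty := by
    refine ⟨1 / 2, (expA34_mem hd hω hρ _ _).2 ⟨by norm_num, fun q => ?_⟩⟩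
    obtain ⟨δ, hδ, C, hC⟩ := Fl_half hd hρ β h q
    exact ⟨C, fun n hn => hC h (by simpa using hδ) n hn⟩
  have hneE : (nuSetL μ β ω h u s).Nonempty := ⟨2, two_mem_nuSetL hd hω h u s⟩
  have hp1 : 0 < p - 1 := by linarith
  have hp0 : 0 < p := by linarith
  have hc2' : chiF μ β ω h ≤ 1 / 2 := hXc.trans hc2
  set c : ℝ := chiF μ β ω h with hc
  set N : ℝ := nuL μ β ω h u s with hN
  have hD0 : 0 ≤ 1 + (p - 1) * c := by positivity
  rcases le_or_gt (1 + (p - 1) * c) (p * N) with h1 | h1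
  · exact mul_le_mul_of_nonneg_right h1 hX0
  · refine le_of_forall_pos_le_add fun ε hε => ?_
    have hS : 0 < p * (N + c + 1) := by positivity
    obtain ⟨η, hη0, hη1, hη2, hη3, hη4⟩ : ∃ η : ℝ, 0 < η ∧ η ≤ 1 ∧ η * (p * (N + c + 1)) ≤ ε ∧
        p * η < 1 + (p - 1) * c - p * N ∧ η ≤ 1 / 4 := by
      have hg : 0 < 1 + (p - 1) * c - p * N := by linarith
      refine ⟨min (min 1 (ε / (p * (N + c + 1)))) (min ((1 + (p - 1) * c - p * N) / (2 * p)) (1 / 4)),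
        lt_min (lt_min one_pos (by positivity)) (lt_min (by positivity) (by norm_num)),
        (min_le_left _ _).trans (min_le_left _ _), ?_, ?_,
        (min_le_right _ _).trans (min_le_right _ _)⟩
      · rw [← le_div_iff₀ hS]
        exact (min_le_left _ _).trans (min_le_right _ _)
      · have h2 : min (min 1 (ε / (p * (N + c + 1))))
            (min ((1 + (p - 1) * c - p * N) / (2 * p)) (1 / 4)) ≤
            (1 + (p - 1) * c - p * N) / (2 * p) := (min_le_right _ _).trans (min_le_left _ _)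
        have h3 := mul_le_mul_of_nonneg_left h2 hp0.le
        have h4 : p * ((1 + (p - 1) * c - p * N) / (2 * p)) = (1 + (p - 1) * c - p * N) / 2 := by
          field_simp
        linarith
    obtain ⟨x', hx', hxlt'⟩ := exists_lt_of_csInf_lt hneX (show sInf (chiSetF μ β ω h) < c + η by
      change c < c + η
      linarith)
    obtain ⟨a, ha, halt⟩ := exists_lt_of_csInf_lt hneE
      (show sInf (nuSetL μ β ω h u s) < N + η by
        change N < N + η
        linarith)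
    have hcx' : c ≤ x' := csInf_le ⟨0, fun y hy => hy.1.le⟩ hx'
    obtain ⟨x, hxx, hxlt⟩ := exists_between hxlt'
    obtain ⟨hx0', hF'⟩ := (expA34_mem hd hω hρ h x').1 hx'
    obtain ⟨ha0, hT⟩ := (mem_nuSetL hω h u s a).1 ha
    obtain ⟨K, hFK, hDK⟩ := hDn x' x hxx hF'
    have hcx : c ≤ x := hcx'.trans hxx.le
    have hx0 : 0 < x := hx0'.trans hxx
    have hx1 : x < 1 := by linarith
    have hpx : (p - 1) * c ≤ (p - 1) * x := mul_le_mul_of_nonneg_left hcx hp1.le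
    have hpa : p * a < p * (N + η) := mul_lt_mul_of_pos_left halt hp0
    have hth : p * a < 1 + (p - 1) * x := by linarith [mul_add p N η]
    have h2 := expK34_pair (μ := μ) (ω := ω) hd hω hρ
      (coreU46 hd hρ hu ha0 hx0 hx1 hFK (fun Q => (hDK Q).1) (fun Q => (hDK Q).2.1) hT)
      ha0 hx0 hx1 hp (loAK_of_LoU hu hp0.le hDK hLo) hth
    have h3 : (1 + (p - 1) * c) * c ≤ (1 + (p - 1) * x) * c :=
      mul_le_mul_of_nonneg_right (by linarith) hX0
    have h4 : a * x ≤ (N + η) * (c + η) := mul_le_mul halt.le hxlt.le hx0.le (by linarith)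
    have h5 : (N + η) * (c + η) ≤ N * c + η * (N + c + 1) := by nlinarith
    have h6 : p * (a * x) ≤ p * (N * c + η * (N + c + 1)) :=
      mul_le_mul_of_nonneg_left (h4.trans h5) hp0.le
    calc (1 + (p - 1) * c) * c ≤ (1 + (p - 1) * x) * c := h3
      _ ≤ p * a * x := h2
      _ = p * (a * x) := by ring
      _ ≤ p * (N * c + η * (N + c + 1)) := h6
      _ = p * N * c + η * (p * (N + c + 1)) := by ring
      _ ≤ p * N * c + ε := by linarith

/-! ### Scaling of the direction -/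

lemma DnU_scale {K : ℕ → Set (Vec d)} {h u : Vec d} {c : ℝ} (hc : 0 < c) (H : DnU K h u) :
    DnU K h (c • u) := by
  intro Q
  obtain ⟨h1, h2, h3⟩ := H Q
  refine ⟨h1, fun k hk => ?_, fun ε hε => ?_⟩
  · obtain ⟨t, ht⟩ := h2 k hk
    refine ⟨t / c, ?_⟩
    rw [smul_smul, div_mul_cancel₀ t hc.ne']
    exact ht
  · obtain ⟨δ, hδ, H'⟩ := h3 ε hε
    refine ⟨δ / c, div_pos hδ hc, fun t ht1 ht2 => ?_⟩
    rw [lt_div_iff₀ hc] at ht2
    have e1 : |t * c| = |t| * c := by rw [abs_mul, abs_of_pos hc]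
    obtain ⟨t', ht', hn⟩ := H' (t * c) (by rw [e1]; positivity) (by rw [e1]; exact ht2)
    refine ⟨t' / c, ?_, ?_⟩
    · rw [smul_smul, div_mul_cancel₀ t' hc.ne']
      exact ht'
    · have e2 : t' / c - t = (t' - t * c) / c := by
        field_simp
      rw [e2, abs_div, abs_of_pos hc, div_le_iff₀ hc]
      rw [e1] at hn
      linarith

lemma DnPU_scale {h u : Vec d} {c : ℝ} (hc : 0 < c) (H : DnPU ρ β h u) : DnPU ρ β h (c • u) := by
  intro x y hxy hF
  obtain ⟨K, hK, hD⟩ := H x y hxy hF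
  exact ⟨K, hK, DnU_scale hc hD⟩

lemma LoU_scale {L : Vec d → ℝ} {h u : Vec d} {s p c : ℝ} (hc : 0 < c) (H : LoU L h u s p) :
    LoU L h (c • u) (s * c) p := by
  obtain ⟨k, δ, hk, hδ, H⟩ := H
  refine ⟨k * c ^ p, δ / c, mul_pos hk (Real.rpow_pos_of_pos hc _), div_pos hδ hc, fun t ht => ?_⟩
  rw [le_div_iff₀ hc] at ht
  have h1 : |t * c| ≤ δ := by rwa [abs_mul, abs_of_pos hc]
  have h2 := H (t * c) h1
  rw [abs_mul, abs_of_pos hc, Real.mul_rpow (abs_nonneg t) hc.le] at h2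
  rw [smul_smul]
  have h3 : k * c ^ p * |t| ^ p = k * (|t| ^ p * c ^ p) := by ring
  rw [h3]
  linarith

lemma nuL_scale_le (hω : IID μ ρ ω) {h u : Vec d} {s c : ℝ} (hd : 0 < d) (hc : 0 < c) :
    nuL μ β ω h u s ≤ nuL μ β ω h (c • u) (s * c) := by
  refine le_csInf ⟨2, two_mem_nuSetL hd hω h (c • u) (s * c)⟩ fun a ha => ?_
  obtain ⟨ha0, hT⟩ := (mem_nuSetL hω h (c • u) (s * c) a).1 ha
  refine le_of_forall_gt_imp_ge_of_dense fun b hb => ?_
  exact csInf_le ⟨0, fun y hy => hy.1.le⟩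
    ((mem_nuSetL hω h u s b).2 ⟨ha0.trans hb, SbF_scale hc hb hT⟩)

lemma nuL_scale (hω : IID μ ρ ω) {h u : Vec d} {s c : ℝ} (hd : 0 < d) (hc : 0 < c) :
    nuL μ β ω h (c • u) (s * c) = nuL μ β ω h u s := by
  refine le_antisymm ?_ (nuL_scale_le hω hd hc)
  have h1 := nuL_scale_le (β := β) (h := h) (u := c • u) (s := s * c) hω hd (inv_pos.2 hc)
  rw [smul_smul, inv_mul_cancel₀ hc.ne', one_smul, mul_assoc, mul_inv_cancel₀ hc.ne', mul_one] at h1
  exact h1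

/-- **The second inequality on a line.** -/
theorem expU46 (hd : 0 < d) (hω : IID μ ρ ω) (hρ : EM ρ) {h u : Vec d} {s p : ℝ} (hu : u ≠ 0)
    (hp : 1 < p) (hDn : DnPU ρ β h u) (hLo : LoU (lam ρ β) h u s p) :
    (1 + (p - 1) * chiF μ β ω h) * chiF μ β ω h ≤ p * nuL μ β ω h u s * chiF μ β ω h := by
  have hu0 : 0 < ‖u‖ := norm_pos_iff.2 hu
  have hc : 0 < ‖u‖⁻¹ := inv_pos.2 hu0
  have hu1 : ‖‖u‖⁻¹ • u‖ = 1 := by
    rw [norm_smul, norm_inv, norm_norm, inv_mul_cancel₀ hu0.ne']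
  rw [← nuL_scale hω hd hc]
  exact expU1 hd hω hρ hu1 hp (DnPU_scale hc hDn) (LoU_scale hc hLo)

end Pool.Agent.W_7d29a1_KL
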