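import Pool.Agent.W_7d29a1_h46.Model

/-!
A function on the line `h + t u`: slopes, upper and lower bounds of the order `p`, flatness to second
order, infinite curvature. Definitions.
-/

namespace Pool.Agent.W_7d29a1_KL

open Pool.Agent.W_7d29a1_h46

/-- The upper bound of order `p` on the line. -/
def UpU {d : ℕ} (L : Vec d → ℝ) (h u : Vec d) (s p : ℝ) : Prop :=
  ∃ C δ : ℝ, 0 < δ ∧ ∀ t : ℝ, |t| ≤ δ → L (h + t • u) - L h - s * t ≤ C * |t| ^ p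

/-- The lower bound of order `p` on the line. -/
def LoU {d : ℕ} (L : Vec d → ℝ) (h u : Vec d) (s p : ℝ) : Prop :=
  ∃ c δ : ℝ, 0 < c ∧ 0 < δ ∧ ∀ t : ℝ, |t| ≤ δ → c * |t| ^ p ≤ L (h + t • u) - L h - s * t

/-- `s` is a slope of `L` on the line, at the point `h`. -/
def SlU {d : ℕ} (L : Vec d → ℝ) (h u : Vec d) (s : ℝ) : Prop :=
  ∀ t : ℝ, L h + s * t ≤ L (h + t • u)

/-- `L` is flat to second order on the line, at the point `h`. -/
def FlU {d : ℕ} (L : Vec d → ℝ) (h u : Vec d) (s : ℝ) : Prop :=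
  ∀ ε : ℝ, 0 < ε → ∃ δ : ℝ, 0 < δ ∧ ∀ t : ℝ, |t| ≤ δ → L (h + t • u) - L h - s * t ≤ ε * t ^ 2

/-- `L` has infinite curvature on the line, at the point `h`. -/
def InU {d : ℕ} (L : Vec d → ℝ) (h u : Vec d) (s : ℝ) : Prop :=
  ∀ C : ℝ, ∃ δ : ℝ, 0 < δ ∧ ∀ t : ℝ, |t| ≤ δ → C * t ^ 2 ≤ L (h + t • u) - L h - s * t

end Pool.Agent.W_7d29a1_KL
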