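import Pool.Agent.W_7d29a1_VT.Slab46
import Pool.Agent.W_7d29a1_KL.UpLo46
import Pool.Agent.W_7d29a1_D2.DefsK4

/-!
The relation of the exponents of one component of the polymer on every line of tilts: definitions.
-/

namespace Pool.Agent.W_7d29a1_KL

open MeasureTheory ProbabilityTheory Filter Topology Pool.Agent.W_MP_7d29a1_pr
  Pool.Agent.W_7d29a1_h46 Pool.Agent.W_7d29a1_h46u Pool.Agent.W_7d29a1_D2 Pool.Agent.W_7d29a1_V
  Pool.Agent.W_7d29a1_VT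

/-- The sets `K Q` are subsets of the line `h + ℝ u` which contain `h`, and for small `t` there are
points of `K Q` on the line at distance at most `ε |t|` from the parameter `t`. -/
def DnU {d : ℕ} (K : ℕ → Set (Vec d)) (h u : Vec d) : Prop :=
  ∀ Q : ℕ, h ∈ K Q ∧ (∀ k ∈ K Q, ∃ t : ℝ, k = h + t • u) ∧
    ∀ ε : ℝ, 0 < ε → ∃ δ : ℝ, 0 < δ ∧ ∀ t : ℝ, 0 < |t| → |t| < δ →
      ∃ t' : ℝ, h + t' • u ∈ K Q ∧ |t' - t| ≤ ε * |t|

/-- The property of almost every tilt of a line in the direction `u`. -/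
def DnPU {d : ℕ} (ρ : Measure ℝ) (β : ℝ) (h u : Vec d) : Prop :=
  ∀ x y : ℝ, x < y → FlF ρ β h x → ∃ K : ℕ → Set (Vec d), FlK ρ β K y ∧ DnU K h u

/-- LEAF D. Almost every tilt of a line has the property `DnPU`. -/
def LeafD (d : ℕ) (ρ : Measure ℝ) (β : ℝ) : Prop :=
  ∀ h0 u : Vec d, u ≠ 0 → ∀ᵐ r : ℝ, DnPU ρ β (h0 + r • u) u

/-- LEAF A. The first inequality at a tilt with `DnPU`. -/
def LeafA (d : ℕ) (ρ : Measure ℝ) (β : ℝ) : Prop :=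
  ∀ (K : ℕ → Set (Vec d)) (h u : Vec d) (s p x a : ℝ), u ≠ 0 → 1 < p → 0 < x → x < 1 →
    FlK ρ β K x → DnU K h u →
    (∀ r : ℝ, lam ρ β h + s * r ≤ lam ρ β (h + r • u)) → UpU (lam ρ β) h u s p →
    1 + (p - 1) * x < p * a → SbF ρ β h u s a

/-- LEAF E. At almost every tilt of a line with a quadratic lower bound on the line the exponent of
the component is at least one half. -/
def LeafE (d : ℕ) (ρ : Measure ℝ) (β : ℝ) : Prop :=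
  ∀ h0 u : Vec d, u ≠ 0 → ∀ᵐ r : ℝ, ∀ s a : ℝ,
    UpU (lam ρ β) (h0 + r • u) u s 2 → LoU (lam ρ β) (h0 + r • u) u s 2 → 0 < a → a < 1 / 2 →
    ¬ SbF ρ β (h0 + r • u) u s a

/-- LEAF F. The dichotomy on a line. -/
def LeafF (d : ℕ) : Prop :=
  ∀ L : Vec d → ℝ, ConvexOn ℝ Set.univ L → ∀ h0 u : Vec d, ∀ᵐ r : ℝ, ∃ s : ℝ,
    (∀ t : ℝ, L (h0 + r • u) + s * t ≤ L (h0 + r • u + t • u)) ∧ UpU L (h0 + r • u) u s 2 ∧
    (LoU L (h0 + r • u) u s 2 ∨ ∀ ε : ℝ, 0 < ε → ∃ δ : ℝ, 0 < δ ∧ ∀ t : ℝ, |t| ≤ δ →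
      L (h0 + r • u + t • u) - L (h0 + r • u) - s * t ≤ ε * t ^ 2)

end Pool.Agent.W_7d29a1_KL
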