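import Pool.Agent.W_7d29a1_KL.DefsK46

/-!
The relation at almost every slope of every line: definitions.
-/

namespace Pool.Agent.W_7d29a1_KL

open MeasureTheory ProbabilityTheory Filter Topology Pool.Agent.W_MP_7d29a1_pr
  Pool.Agent.W_7d29a1_h46 Pool.Agent.W_7d29a1_h46u Pool.Agent.W_7d29a1_D2 Pool.Agent.W_7d29a1_V
  Pool.Agent.W_7d29a1_VT

/-- `s` is a slope of support of `f` at `r`. -/
def Slp (f : ℝ → ℝ) (r s : ℝ) : Prop := ∀ t : ℝ, f r + s * t ≤ f (r + t)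

/-- The relation `Slp f` is differentiable at `(r, s)`, as a function of the slope, with the
derivative `κ`. -/
def DfS (f : ℝ → ℝ) (r s κ : ℝ) : Prop :=
  ∀ ε : ℝ, 0 < ε → ∃ δ : ℝ, 0 < δ ∧ ∀ r' s' : ℝ, Slp f r' s' → |s' - s| ≤ δ →
    |r' - r - κ * (s' - s)| ≤ ε * |s' - s|

/-- LEAF Z. At almost every slope. -/
def LeafZ : Prop := ∀ f : ℝ → ℝ, ConvexOn ℝ Set.univ f → ∀ᵐ s : ℝ, ∀ r : ℝ, Slp f r s →
  ∃ κ : ℝ, DfS f r s κ

/-- LEAF S. At almost every slope of a line the exponent of the component is at least one half, at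
every tilt of the line with this slope. -/
def LeafS (d : ℕ) (ρ : Measure ℝ) (β : ℝ) : Prop :=
  ∀ h0 u : Vec d, u ≠ 0 → ∀ᵐ s : ℝ, ∀ r a : ℝ,
    (∀ t : ℝ, lam ρ β (h0 + r • u) + s * t ≤ lam ρ β (h0 + r • u + t • u)) → 0 < a → a < 1 / 2 →
    ¬ SbF ρ β (h0 + r • u) u s a

end Pool.Agent.W_7d29a1_KL
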