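import Pool.Agent.W_7d29a1_KL.DefsK46
import Pool.Agent.W_7d29a1_D2.NuH99

/-!
Leaf E: at almost every tilt of a line with a quadratic lower bound along the line the wandering
exponent of the component is at least one half.
-/

namespace Pool.Agent.W_7d29a1_KL.EK99

open MeasureTheory ProbabilityTheory Filter Topology Metric Pool.Agent.W_MP_7d29a1_pr
  Pool.Agent.W_7d29a1_h46 Pool.Agent.W_7d29a1_h46u Pool.Agent.W_7d29a1_D2 Pool.Agent.W_7d29a1_V
  Pool.Agent.W_7d29a1_VT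

variable {d : ℕ} {ρ : Measure ℝ} {β : ℝ}

/-- Two likely slabs with distant speeds: the product of the distances is large. -/
theorem two_slabs (hd : 0 < d) {n : ℕ} {h u : Vec d} {z s s' r : ℝ} {η : Env d} (hz : 0 < z)
    (hr : 0 < r) (hfar : 8 * r ≤ n * (s' - s)) (h1 : 1 - 1 / 8 ≤ PolT β h η (slb d n u s r))
    (h2 : 1 - 1 / 8 ≤ PolT β (h + z • u) η (slb d n u s' r)) : 4 / 5 ≤ n * z * (s' - s) := by
  have hdis : Disjoint (slb d n u s r) (slb d n u s' r) := by
    rw [Set.disjoint_left]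
    intro q hq hq'
    have a1 := abs_le.1 (hq n le_rfl)
    have a2 := abs_le.1 (hq' n le_rfl)
    have a3 : (n : ℝ) * (s' - s) = n * s' - n * s := by ring
    linarith [a1.2, a2.1]
  have hin : ∀ q : Fin n → Step d, inner ℝ (h + z • u - h) (emb (pos q n)) =
      z * inner ℝ u (emb (pos q n)) := by
    intro q
    rw [add_sub_cancel_left, inner_smul_left]
    simp
  obtain ⟨-, -, h3⟩ := compare hd (A := z * (n * s - r)) (A' := z * (n * s' + r)) (by norm_num)
    le_rfl hdis h1 h2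
    (fun q hq => by
      rw [hin]
      have a1 := abs_le.1 (hq n le_rfl)
      exact mul_le_mul_of_nonneg_left (by linarith [a1.1]) hz.le)
    (fun q hq => by
      rw [hin]
      have a1 := abs_le.1 (hq n le_rfl)
      exact mul_le_mul_of_nonneg_left (by linarith [a1.2]) hz.le)
  have h4 : z * (n * s' + r) - z * (n * s - r) = z * (n * (s' - s) + 2 * r) := by ring
  have h5 : z * (n * (s' - s) + 2 * r) ≤ z * (5 / 4 * (n * (s' - s))) :=
    mul_le_mul_of_nonneg_left (by linarith) hz.le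
  have h6 : z * (5 / 4 * (n * (s' - s))) = 5 / 4 * (n * z * (s' - s)) := by ring
  linarith

/-- The likely slab, at all large times. -/
def Ps (ρ : Measure ℝ) (β : ℝ) (h u : Vec d) (s a : ℝ) (m : ℕ) : Prop :=
  ∀ n : ℕ, m ≤ n → 0 < n →
    (law d ρ).real {η | ¬ (1 - 1 / 8 ≤ PolT β h η (slb d n u s ((n : ℝ) ^ a)))} ≤ 1 / 8

lemma ps_of_sbF [IsProbabilityMeasure ρ] {h u : Vec d} {s a a' : ℝ} (haa : a ≤ a')
    (H : SbF ρ β h u s a) : ∃ m : ℕ, Ps ρ β h u s a' m := by
  obtain ⟨C, hC⟩ := H 1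
  obtain ⟨m, hm⟩ := exists_nat_ge (64 * max C 0)
  refine ⟨m, fun n hn hn0 => ?_⟩
  have hnR : (0 : ℝ) < n := by exact_mod_cast hn0
  have hn1 : (1 : ℝ) ≤ n := by exact_mod_cast hn0
  have hsub : slb d n u s ((n : ℝ) ^ a) ⊆ slb d n u s ((n : ℝ) ^ a') := fun q hq i hi =>
    (hq i hi).trans (Real.rpow_le_rpow_of_exponent_le hn1 haa)
  set f : Env d → ℝ := fun η => 1 - PolT β h η (slb d n u s ((n : ℝ) ^ a)) with hf
  have hf0 : ∀ η, 0 ≤ f η := fun η => sub_nonneg.2 (PolT_le_one _ _ _ _)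
  have hfi : Integrable f (law d ρ) := Slab46.int_PolT β h _
  have h1 := mul_meas_ge_le_integral_of_nonneg (Eventually.of_forall hf0) hfi (1 / 8)
  have h2 : ∫ η, f η ∂(law d ρ) ≤ 1 / 64 := by
    refine (hC n hn0).trans ?_
    have h3 : (n : ℝ) ^ (-((1 : ℕ) : ℝ)) = 1 / n := by
      rw [Nat.cast_one, Real.rpow_neg_one, one_div]
    rw [h3, mul_one_div, div_le_div_iff₀ hnR (by norm_num)]
    have h4 : (m : ℝ) ≤ n := by exact_mod_cast hn
    have h5 := le_max_left C 0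
    linarith
  have h3 : (law d ρ).real {η | ¬ (1 - 1 / 8 ≤ PolT β h η (slb d n u s ((n : ℝ) ^ a')))} ≤
      (law d ρ).real {η | 1 / 8 ≤ f η} := by
    refine measureReal_mono ?_ (measure_ne_top _ _)
    intro η hη
    have h4 := PolT_mono β h η hsub
    have h5 : PolT β h η (slb d n u s ((n : ℝ) ^ a')) < 1 - 1 / 8 := not_le.1 hη
    show 1 / 8 ≤ 1 - PolT β h η (slb d n u s ((n : ℝ) ^ a))
    linarith
  linarith

/-- The two slabs are likely in a common environment. -/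
lemma two_ps [IsProbabilityMeasure ρ] (hd : 0 < d) {n m : ℕ} (hn : 0 < n) (hmn : m ≤ n)
    {h u : Vec d} {z s s' a : ℝ} (hz : 0 < z) (hfar : 8 * (n : ℝ) ^ a ≤ n * (s' - s))
    (hP : Ps ρ β h u s a m) (hP' : Ps ρ β (h + z • u) u s' a m) :
    4 / 5 ≤ n * z * (s' - s) := by
  obtain ⟨η, h1, h2⟩ : ∃ η : Env d, 1 - 1 / 8 ≤ PolT β h η (slb d n u s ((n : ℝ) ^ a)) ∧
      1 - 1 / 8 ≤ PolT β (h + z • u) η (slb d n u s' ((n : ℝ) ^ a)) := by
    by_contra hcon
    push Not at hcon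
    have h1 : {η | ¬ (1 - 1 / 8 ≤ PolT β h η (slb d n u s ((n : ℝ) ^ a)))} ∪
        {η | ¬ (1 - 1 / 8 ≤ PolT β (h + z • u) η (slb d n u s' ((n : ℝ) ^ a)))} = Set.univ := by
      ext η
      simp only [Set.mem_union, Set.mem_univ, iff_true]
      by_cases hx : 1 - 1 / 8 ≤ PolT β h η (slb d n u s ((n : ℝ) ^ a))
      · exact Or.inr (not_le.2 (hcon η hx))
      · exact Or.inl hx
    have h2 := measureReal_union_le (μ := law d ρ)
      {η | ¬ (1 - 1 / 8 ≤ PolT β h η (slb d n u s ((n : ℝ) ^ a)))}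
      {η | ¬ (1 - 1 / 8 ≤ PolT β (h + z • u) η (slb d n u s' ((n : ℝ) ^ a)))}
    rw [h1, probReal_univ] at h2
    linarith [hP n hmn hn, hP' n hmn hn]
  exact two_slabs hd hz (Real.rpow_pos_of_pos (by exact_mod_cast hn) a) hfar h1 h2

/-- Lebesgue density on the line: almost every point of a set is a density point in the sense used
here. -/
theorem ae_densR (S : Set ℝ) : ∀ᵐ h : ℝ, h ∈ S → ∀ ε : ℝ, 0 < ε →
    ∃ s0 : ℝ, 0 < s0 ∧ ∀ r : ℝ, 0 < |r| → |r| ≤ s0 → ∃ k ∈ S, |k - (h + r)| ≤ ε * |r| := by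
  have h1 : ∀ᵐ h : ℝ, ∀ K : ℕ, h ∈ S → ∀ (w : ℕ → ℝ) (δ : ℕ → ℝ),
      Tendsto δ atTop (𝓝[>] 0) → (∀ᶠ j in atTop, h ∈ closedBall (w j) (K * δ j)) →
      Tendsto (fun j => (volume : Measure ℝ) (S ∩ closedBall (w j) (δ j)) /
        (volume : Measure ℝ) (closedBall (w j) (δ j))) atTop (𝓝 1) := by
    refine ae_all_iff.2 fun K => ?_
    have h2 := ae_imp_of_ae_restrict
      (IsUnifLocDoublingMeasure.ae_tendsto_measure_inter_div (volume : Measure ℝ) S (K : ℝ))
    filter_upwards [h2] with h hh hS w δ hδ hm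
    exact hh hS w δ hδ hm
  filter_upwards [h1] with h hh hS ε hε
  by_contra hcon
  push Not at hcon
  obtain ⟨K, hK⟩ := exists_nat_ge (1 / ε)
  have hK1 : 1 ≤ K * ε := by rwa [div_le_iff₀ hε] at hK
  choose r hr0 hr1 hr2 using fun j : ℕ => hcon (1 / ((j : ℝ) + 1)) (by positivity)
  have hlim0 : Tendsto (fun j => |r j|) atTop (𝓝 0) :=
    squeeze_zero (fun j => (hr0 j).le) hr1 tendsto_one_div_add_atTop_nhds_zero_nat
  have hlim : Tendsto (fun j => ε * |r j|) atTop (𝓝[>] 0) := by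
    refine tendsto_nhdsWithin_iff.2 ⟨?_, Eventually.of_forall fun j => ?_⟩
    · simpa using hlim0.const_mul ε
    · exact mul_pos hε (hr0 j)
  have h3 := hh K hS (fun j => h + r j) (fun j => ε * |r j|) hlim
    (Eventually.of_forall fun j => by
      rw [mem_closedBall, Real.dist_eq, show h - (h + r j) = -r j by ring, abs_neg]
      calc |r j| = 1 * |r j| := by ring
        _ ≤ K * ε * |r j| := by gcongr
        _ = K * (ε * |r j|) := by ring)
  have h4 : ∀ j, S ∩ closedBall (h + r j) (ε * |r j|) = ∅ := by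
    intro j
    rw [Set.eq_empty_iff_forall_notMem]
    rintro k ⟨hk, hk2⟩
    rw [mem_closedBall, Real.dist_eq] at hk2
    exact absurd hk2 (not_le.2 (hr2 j k hk))
  simp only [h4, measure_empty, ENNReal.zero_div] at h3
  exact zero_ne_one (tendsto_nhds_unique tendsto_const_nhds h3)

/-- Touched from above by a parabola: the slope is a subgradient. -/
lemma touch1 {f : ℝ → ℝ} (hf : ConvexOn ℝ Set.univ f) {x s C δ : ℝ} (hδ : 0 < δ)
    (hU : ∀ t : ℝ, |t| ≤ δ → f (x + t) - f x - s * t ≤ C * |t| ^ (2 : ℝ)) (t : ℝ) :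
    f x + s * t ≤ f (x + t) := by
  by_contra hcon
  push Not at hcon
  -- the defect at `t` is linear under scaling
  set D : ℝ := f x + s * t - f (x + t) with hD
  have hD0 : 0 < D := by rw [hD]; linarith
  have h1 : ∀ l : ℝ, 0 ≤ l → l ≤ 1 → f (x + l * t) ≤ f x + l * (s * t) - l * D := by
    intro l hl hl1
    have h2 := hf.2 (Set.mem_univ x) (Set.mem_univ (x + t)) (show (0 : ℝ) ≤ 1 - l by linarith) hl
      (by ring)
    simp only [smul_eq_mul] at h2
    have h3 : (1 - l) * x + l * (x + t) = x + l * t := by ring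
    rw [h3] at h2
    have h4 : (1 - l) * f x + l * f (x + t) = f x + l * (s * t) - l * D := by
      rw [hD]; ring
    linarith
  -- the mirror point
  have h5 : ∀ l : ℝ, 0 < l → l ≤ 1 → l * |t| ≤ δ → l * D ≤ C * (l * |t|) ^ 2 := by
    intro l hl hl1 hlt
    have h6 := h1 l hl.le hl1
    have h7 := hU (-(l * t)) (by rw [abs_neg, abs_mul, abs_of_pos hl]; exact hlt)
    have h8 : |-(l * t)| ^ (2 : ℝ) = (l * |t|) ^ 2 := by
      rw [abs_neg, abs_mul, abs_of_pos hl, Real.rpow_two]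
    rw [h8] at h7
    have h9 := hf.2 (Set.mem_univ (x + l * t)) (Set.mem_univ (x + -(l * t)))
      (show (0 : ℝ) ≤ 1 / 2 by norm_num) (show (0 : ℝ) ≤ 1 / 2 by norm_num) (by norm_num)
    simp only [smul_eq_mul] at h9
    have h10 : 1 / 2 * (x + l * t) + 1 / 2 * (x + -(l * t)) = x := by ring
    rw [h10] at h9
    linarith
  -- contradiction for small `l`
  rcases eq_or_ne t 0 with h0 | h0
  · rw [h0] at hD
    simp only [mul_zero, add_zero, sub_self] at hD
    linarith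
  have ht : 0 < |t| := abs_pos.2 h0
  set C1 : ℝ := max C 1 with hC1
  have hC1p : 0 < C1 := lt_of_lt_of_le one_pos (le_max_right _ _)
  set l : ℝ := min (min 1 (δ / |t|)) (D / (2 * C1 * |t| ^ 2)) with hl
  have hl0 : 0 < l := by positivity
  have hl1 : l ≤ 1 := (min_le_left _ _).trans (min_le_left _ _)
  have hl2 : l * |t| ≤ δ := by
    have : l ≤ δ / |t| := (min_le_left _ _).trans (min_le_right _ _)
    rwa [le_div_iff₀ ht] at this
  have hl3 : l * (2 * C1 * |t| ^ 2) ≤ D := by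
    have : l ≤ D / (2 * C1 * |t| ^ 2) := min_le_right _ _
    rwa [le_div_iff₀ (by positivity)] at this
  have h6 := h5 l hl0 hl1 hl2
  have h7 : C * (l * |t|) ^ 2 ≤ C1 * (l * |t|) ^ 2 :=
    mul_le_mul_of_nonneg_right (le_max_left _ _) (sq_nonneg _)
  have h8 : C1 * (l * |t|) ^ 2 = l * (l * (2 * C1 * |t| ^ 2)) / 2 := by ring
  have h9 : l * (l * (2 * C1 * |t| ^ 2)) ≤ l * D := mul_le_mul_of_nonneg_left hl3 hl0.le
  have h10 : 0 < l * D := by positivity
  linarith

/-- The parameters of the line with a subgradient around which the slab is likely. -/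
def Gs (ρ : Measure ℝ) (β : ℝ) (h0 u : Vec d) (a : ℝ) (m : ℕ) : Set ℝ :=
  {r | ∃ s : ℝ, (∀ t : ℝ, lam ρ β (h0 + r • u) + s * t ≤ lam ρ β (h0 + (r + t) • u)) ∧
    Ps ρ β (h0 + r • u) u s a m}

/-- Leaf E. -/
theorem leafE99 [IsProbabilityMeasure ρ] (hd : 0 < d) (hρ : EM ρ) (β : ℝ) : LeafE d ρ β := by
  intro h0 u hu
  set f : ℝ → ℝ := fun r => lam ρ β (h0 + r • u) with hf
  have hL : ConvexOn ℝ Set.univ (lam (d := d) ρ β) := lam_convex hd hρ β
  have hfc : ConvexOn ℝ Set.univ f := by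
    refine ⟨convex_univ, fun x _ y _ a b ha hb hab => ?_⟩
    have h1 := hL.2 (Set.mem_univ (h0 + x • u)) (Set.mem_univ (h0 + y • u)) ha hb hab
    have h2 : a • (h0 + x • u) + b • (h0 + y • u) = h0 + (a • x + b • y) • u := by
      have : h0 = (a + b) • h0 := by rw [hab, one_smul]
      nth_rewrite 3 [this]
      simp only [smul_add, add_smul, smul_smul, smul_eq_mul]
      abel
    rw [h2] at h1
    exact h1
  have key : ∀ᵐ r : ℝ, ∀ (q : ℚ) (m : ℕ), r ∈ Gs ρ β h0 u (q : ℝ) m →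
      ∀ ε : ℝ, 0 < ε → ∃ s0 : ℝ, 0 < s0 ∧ ∀ t : ℝ, 0 < |t| → |t| ≤ s0 →
        ∃ k ∈ Gs ρ β h0 u (q : ℝ) m, |k - (r + t)| ≤ ε * |t| :=
    ae_all_iff.2 fun q => ae_all_iff.2 fun m => ae_densR _
  filter_upwards [key] with r hh s a hU hLo ha0 ha1 hS
  have e1 : ∀ t : ℝ, h0 + r • u + t • u = h0 + (r + t) • u := fun t => by
    rw [add_smul, add_assoc]
  obtain ⟨C, δ, hδ, hU⟩ := hU
  obtain ⟨c, δ', hc, hδ', hLo⟩ := hLo
  have hU' : ∀ t : ℝ, |t| ≤ δ → f (r + t) - f r - s * t ≤ C * |t| ^ (2 : ℝ) := by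
    intro t ht
    have := hU t ht
    rwa [e1] at this
  have hLo' : ∀ t : ℝ, |t| ≤ δ' → c * |t| ^ (2 : ℝ) ≤ f (r + t) - f r - s * t := by
    intro t ht
    have := hLo t ht
    rwa [e1] at this
  obtain ⟨q, hq1, hq2⟩ := exists_rat_btwn ha1
  obtain ⟨m, hm⟩ := ps_of_sbF hq1.le hS
  have hr : r ∈ Gs ρ β h0 u (q : ℝ) m := ⟨s, fun t => touch1 hfc hδ hU' t, hm⟩
  obtain ⟨s0, hs0, hden⟩ := hh q m hr (1 / 2) (by norm_num)
  set C1 : ℝ := max C 1 with hC1
  have hC1p : 0 < C1 := lt_of_lt_of_le one_pos (le_max_right _ _)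
  obtain ⟨s1, hs1, hsc⟩ := NuH99.scale_of (a := (q : ℝ)) (c := c) (B := 9 * C1) (ha0.trans hq1)
    hq2 hc (by positivity) (m + 1)
  set t : ℝ := min (min s0 s1) (min (δ / 4) (δ' / 4)) with ht
  have ht0 : 0 < t := by positivity
  have hts0 : t ≤ s0 := (min_le_left _ _).trans (min_le_left _ _)
  have hts1 : t ≤ s1 := (min_le_left _ _).trans (min_le_right _ _)
  have htδ : t ≤ δ / 4 := (min_le_right _ _).trans (min_le_left _ _)
  have htδ' : t ≤ δ' / 4 := (min_le_right _ _).trans (min_le_right _ _)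
  have habs : |t| = t := abs_of_pos ht0
  obtain ⟨k, ⟨w, hw, hPk⟩, hk⟩ := hden t (by rw [habs]; exact ht0) (by rw [habs]; exact hts0)
  obtain ⟨n, hmn, hn, hfar, hsmall⟩ := hsc t ht0 hts1
  rw [habs] at hk
  have hk' := abs_le.1 hk
  set z : ℝ := k - r with hz
  have hz1 : t / 2 ≤ z := by rw [hz]; linarith [hk'.1]
  have hz2 : z ≤ 3 / 2 * t := by rw [hz]; linarith [hk'.2]
  have hz0 : 0 < z := by linarith
  have hkz : k = r + z := by rw [hz]; ring
  -- the slopes
  have hws : ∀ t : ℝ, f (r + z) + w * t ≤ f (r + z + t) := by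
    intro t
    have := hw t
    rw [hkz] at this
    exact this
  have g1 : c * z ^ 2 ≤ f (r + z) - f r - s * z := by
    have := hLo' z (by rw [abs_of_pos hz0]; linarith)
    rwa [abs_of_pos hz0, Real.rpow_two] at this
  have g2 : f (r + z) + w * (-z) ≤ f r := by
    have := hws (-z)
    rwa [show r + z + -z = r by ring] at this
  have g3 : f (r + z) + w * z ≤ f (r + 2 * z) := by
    have := hws z
    rwa [show r + z + z = r + 2 * z by ring] at this
  have g4 : f (r + 2 * z) - f r - s * (2 * z) ≤ C1 * (2 * z) ^ 2 := by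
    have h1 := hU' (2 * z) (by rw [abs_of_pos (by linarith)]; linarith)
    rw [abs_of_pos (by linarith), Real.rpow_two] at h1
    exact h1.trans (mul_le_mul_of_nonneg_right (le_max_left _ _) (sq_nonneg _))
  have g5 : f r + s * z ≤ f (r + z) := by
    have := sq_nonneg z
    nlinarith
  have g6 : c * z ≤ w - s := by
    have h1 : (c * z) * z ≤ (w - s) * z := by nlinarith
    exact le_of_mul_le_mul_right h1 hz0
  have g7 : w - s ≤ 4 * C1 * z := by
    have h1 : (w - s) * z ≤ (4 * C1 * z) * z := by nlinarith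
    exact le_of_mul_le_mul_right h1 hz0
  have hn0 : (0 : ℝ) < n := by exact_mod_cast hn
  have hfar' : 8 * (n : ℝ) ^ (q : ℝ) ≤ n * (w - s) := by
    refine hfar.trans (mul_le_mul_of_nonneg_left ?_ hn0.le)
    nlinarith
  have hPk' : Ps ρ β (h0 + r • u + z • u) u w q m := by
    rw [e1, ← hkz]
    exact hPk
  have h5 := two_ps hd hn (by omega : m ≤ n) hz0 hfar' hm hPk'
  have h6 : n * z * (w - s) ≤ 9 * C1 * (n * t ^ 2) := by
    have a1 : z * (w - s) ≤ z * (4 * C1 * z) := mul_le_mul_of_nonneg_left g7 hz0.le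
    have a2 : z ^ 2 ≤ 9 / 4 * t ^ 2 := by nlinarith
    have a3 : z * (4 * C1 * z) ≤ 9 * C1 * t ^ 2 := by
      have := mul_le_mul_of_nonneg_left a2 (by linarith : (0 : ℝ) ≤ 4 * C1)
      nlinarith
    calc n * z * (w - s) = n * (z * (w - s)) := by ring
      _ ≤ n * (9 * C1 * t ^ 2) := mul_le_mul_of_nonneg_left (a1.trans a3) hn0.le
      _ = 9 * C1 * (n * t ^ 2) := by ring
  linarith

end Pool.Agent.W_7d29a1_KL.EK99
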