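import Pool.Agent.W_7d29a1_KL.KpzL46

/-!
The inequalities between the exponents of one component of the polymer at EVERY tilt, with the
exponent `chiS` of a neighbourhood of the tilt.
-/

namespace Pool.Agent.W_7d29a1_KL

open MeasureTheory ProbabilityTheory Filter Topology Pool.Agent.W_MP_7d29a1_pr
  Pool.Agent.W_7d29a1_h46 Pool.Agent.W_7d29a1_h46u Pool.Agent.W_7d29a1_D2 Pool.Agent.W_7d29a1_V
  Pool.Agent.W_7d29a1_VT

variable {d : ℕ} {ρ : Measure ℝ} [IsProbabilityMeasure ρ] {β : ℝ} {Ω : Type*} [MeasurableSpace Ω]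
  {μ : Measure Ω} [IsProbabilityMeasure μ] {ω : ℕ × Site d → Ω → ℝ}

/-- The tilts of the line near `h`, at every tilt. -/
lemma exists_KL (hd : 0 < d) {h : Vec d} {x : ℝ} (hF : Fl ρ β h x) (u : Vec d) :
    ∃ K : ℕ → Set (Vec d), FlK ρ β K x ∧ DnU K h u := by
  choose δ hδ C hC using hF
  obtain ⟨m, hm⟩ : ∃ m : ℕ → ℝ, ∀ Q, m Q = (Finset.range (Q + 1)).inf' ⟨0, by simp⟩ δ :=
    ⟨_, fun _ => rfl⟩
  have hm0 : ∀ Q, 0 < m Q := by
    intro Q
    rw [hm, Finset.lt_inf'_iff]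
    exact fun i _ => hδ i
  have hmle : ∀ Q, m Q ≤ δ Q := by
    intro Q
    rw [hm]
    exact Finset.inf'_le _ (Finset.mem_range.2 (Nat.lt_succ_self Q))
  have hanti : ∀ p q : ℕ, p ≤ q → m q ≤ m p := by
    intro p q hpq
    rw [hm, hm]
    exact Finset.inf'_mono _ (Finset.range_mono (by omega)) _
  refine ⟨fun Q => {k | (∃ t : ℝ, k = h + t • u) ∧ ‖k - h‖ < m Q}, ⟨?_, ?_⟩, ?_⟩
  · rintro p q hpq k ⟨h1, h2⟩
    exact ⟨h1, h2.trans_le (hanti p q hpq)⟩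
  · intro q
    refine ⟨C q, ?_⟩
    rintro k ⟨-, h2⟩ n hn
    exact hC q k (h2.trans_le (hmle q)) n hn
  · intro Q
    refine ⟨⟨⟨0, by simp⟩, by simpa using hm0 Q⟩, fun k hk => hk.1, fun ε hε => ?_⟩
    have hu : 0 < ‖u‖ + 1 := by positivity
    refine ⟨m Q / (‖u‖ + 1), div_pos (hm0 Q) hu, fun t _ ht => ⟨t, ⟨⟨t, rfl⟩, ?_⟩, ?_⟩⟩
    · rw [lt_div_iff₀ hu] at ht
      rw [add_sub_cancel_left, norm_smul, Real.norm_eq_abs]
      nlinarith [abs_nonneg t]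
    · rw [sub_self, abs_zero]
      positivity

/-- **The first inequality at every tilt.** -/
theorem upE46 (hd : 0 < d) (hω : IID μ ρ ω) (hρ : EM ρ) (hA : LeafA d ρ β) {h u : Vec d}
    {s p : ℝ} (hu : u ≠ 0) (hp : 1 < p)
    (hs : ∀ r : ℝ, lam ρ β h + s * r ≤ lam ρ β (h + r • u)) (hU : UpU (lam ρ β) h u s p) :
    p * nuL μ β ω h u s ≤ 1 + (p - 1) * chiS μ β ω h := by
  have hp0 : 0 < p := by linarith
  have hp1 : 0 < p - 1 := by linarith
  have hhalf := chiS_le_half (β := β) hd hω hρ h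
  have hne : (chiSetS μ β ω h).Nonempty :=
    ⟨1 / 2, (mem_chiSetS hd hω hρ h (1 / 2)).2 ⟨by norm_num, Fl_half hd hρ β h⟩⟩
  have key : ∀ x ∈ chiSetS μ β ω h, x < 1 → p * nuL μ β ω h u s ≤ 1 + (p - 1) * x := by
    intro x hx hx1
    obtain ⟨hx0, hF⟩ := (mem_chiSetS hd hω hρ h x).1 hx
    obtain ⟨K, hK, hDK⟩ := exists_KL hd hF u
    have h1 : nuL μ β ω h u s ≤ (1 + (p - 1) * x) / p := by
      refine le_of_forall_gt_imp_ge_of_dense fun a ha => ?_
      have ha1 : 1 + (p - 1) * x < p * a := by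
        rw [div_lt_iff₀ hp0] at ha
        linarith
      have ha0 : 0 < a := by
        have h2 : 0 < p * a := lt_of_le_of_lt (by nlinarith) ha1
        exact (mul_pos_iff_of_pos_left hp0).1 h2
      exact csInf_le ⟨0, fun b hb => hb.1.le⟩ ((mem_nuSetL hω h u s a).2
        ⟨ha0, hA K h u s p x a hu hp hx0 hx1 hK hDK hs hU ha1⟩)
    rw [le_div_iff₀ hp0] at h1
    linarith
  refine le_of_forall_pos_le_add fun ε hε => ?_
  have h3 : 0 < min (ε / (p - 1)) (1 / 4) := lt_min (div_pos hε hp1) (by norm_num)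
  obtain ⟨x, hx, hxlt⟩ := exists_lt_of_csInf_lt hne
    (show sInf (chiSetS μ β ω h) < chiS μ β ω h + min (ε / (p - 1)) (1 / 4) by
      change chiS μ β ω h < _
      linarith)
  have h4 := min_le_left (ε / (p - 1)) (1 / 4)
  have h5 := min_le_right (ε / (p - 1)) (1 / 4)
  have h6 := key x hx (by linarith)
  have h7 : (p - 1) * x ≤ (p - 1) * (chiS μ β ω h + ε / (p - 1)) :=
    mul_le_mul_of_nonneg_left (by linarith) hp1.le
  have h8 : (p - 1) * (chiS μ β ω h + ε / (p - 1)) = (p - 1) * chiS μ β ω h + ε := by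
    field_simp
  linarith

/-- For exponents in the sets of the definitions. -/
lemma loE_pair (hd : 0 < d) (hω : IID μ ρ ω) (hρ : EM ρ) {h u : Vec d} {s p a x : ℝ}
    (hu : ‖u‖ = 1) (hp : 1 < p) (hLo : LoU (lam ρ β) h u s p) (ha : a ∈ nuSetL μ β ω h u s)
    (hx : x ∈ chiSetS μ β ω h) (hx1 : x < 1) :
    (1 + (p - 1) * x) * chiF μ β ω h ≤ p * a * x := by
  obtain ⟨hx0, hF⟩ := (mem_chiSetS hd hω hρ h x).1 hx
  obtain ⟨ha0, hT⟩ := (mem_nuSetL hω h u s a).1 ha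
  obtain ⟨K, hK, hDK⟩ := exists_KL hd hF u
  have hp0 : 0 < p := by linarith
  rcases lt_or_ge (p * a) (1 + (p - 1) * x) with hth | hth
  · exact expK34_pair (μ := μ) (ω := ω) hd hω hρ
      (coreU46 hd hρ hu ha0 hx0 hx1 hK (fun Q => (hDK Q).1) (fun Q => (hDK Q).2.1) hT)
      ha0 hx0 hx1 hp (loAK_of_LoU hu hp0.le hDK hLo) hth
  · have h1 : chiF μ β ω h ≤ x := (chiF_le_chiS hd hω hρ h).trans
      (csInf_le ⟨0, fun y hy => hy.1.le⟩ hx)
    have h0 : 0 ≤ chiF μ β ω h := chiF_nonneg h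
    calc (1 + (p - 1) * x) * chiF μ β ω h ≤ (p * a) * chiF μ β ω h :=
          mul_le_mul_of_nonneg_right hth h0
      _ ≤ (p * a) * x := mul_le_mul_of_nonneg_left h1 (by positivity)
      _ = p * a * x := by ring

/-- **The second inequality at every tilt.** -/
theorem loE1 (hd : 0 < d) (hω : IID μ ρ ω) (hρ : EM ρ) {h u : Vec d} {s p : ℝ}
    (hu : ‖u‖ = 1) (hp : 1 < p) (hLo : LoU (lam ρ β) h u s p) :
    (1 + (p - 1) * chiS μ β ω h) * chiF μ β ω h ≤ p * nuL μ β ω h u s * chiS μ β ω h := by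
  have hN0 : 0 ≤ nuL μ β ω h u s := Real.sInf_nonneg fun _ hx => hx.1.le
  have hX0 : 0 ≤ chiS μ β ω h := Real.sInf_nonneg fun _ hx => hx.1.le
  have hF0 : 0 ≤ chiF μ β ω h := chiF_nonneg h
  have hhalf := chiS_le_half (β := β) hd hω hρ h
  have hneX : (chiSetS μ β ω h).Nonempty :=
    ⟨1 / 2, (mem_chiSetS hd hω hρ h (1 / 2)).2 ⟨by norm_num, Fl_half hd hρ β h⟩⟩
  have hneE : (nuSetL μ β ω h u s).Nonempty := ⟨2, two_mem_nuSetL hd hω h u s⟩
  have hp0 : 0 < p := by linarith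
  have hp1 : 0 < p - 1 := by linarith
  refine le_of_forall_pos_le_add fun ε hε => ?_
  obtain ⟨c, hc⟩ : ∃ c : ℝ, c = chiS μ β ω h := ⟨_, rfl⟩
  obtain ⟨N, hN⟩ : ∃ N : ℝ, N = nuL μ β ω h u s := ⟨_, rfl⟩
  rw [← hc] at hX0 hhalf ⊢
  rw [← hN] at hN0 ⊢
  have hS : 0 < p * (N + c + 1) := by positivity
  obtain ⟨η, hη0, hη1, hη2, hη3⟩ : ∃ η : ℝ, 0 < η ∧ η ≤ 1 ∧ η * (p * (N + c + 1)) ≤ ε ∧
      η ≤ 1 / 4 := by
    refine ⟨min (min 1 (ε / (p * (N + c + 1)))) (1 / 4),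
      lt_min (lt_min one_pos (by positivity)) (by norm_num),
      (min_le_left _ _).trans (min_le_left _ _), ?_, min_le_right _ _⟩
    rw [← le_div_iff₀ hS]
    exact (min_le_left _ _).trans (min_le_right _ _)
  obtain ⟨x, hx, hxlt⟩ := exists_lt_of_csInf_lt hneX (show sInf (chiSetS μ β ω h) < c + η by
    rw [hc]
    change chiS μ β ω h < _
    linarith)
  obtain ⟨a, ha, halt⟩ := exists_lt_of_csInf_lt hneE
    (show sInf (nuSetL μ β ω h u s) < N + η by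
      rw [hN]
      change nuL μ β ω h u s < _
      linarith)
  have hcx : c ≤ x := by
    rw [hc]
    exact csInf_le ⟨0, fun y hy => hy.1.le⟩ hx
  have hx0 : 0 < x := hx.1
  have h2 := loE_pair (μ := μ) (ω := ω) hd hω hρ hu hp hLo ha hx (by linarith)
  have h3 : (1 + (p - 1) * c) * chiF μ β ω h ≤ (1 + (p - 1) * x) * chiF μ β ω h := by
    refine mul_le_mul_of_nonneg_right ?_ hF0
    have := mul_le_mul_of_nonneg_left hcx hp1.le
    linarith
  have h4 : a * x ≤ (N + η) * (c + η) := mul_le_mul halt.le hxlt.le hx0.le (by linarith)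
  have h5 : (N + η) * (c + η) ≤ N * c + η * (N + c + 1) := by nlinarith
  have h6 : p * (a * x) ≤ p * (N * c + η * (N + c + 1)) :=
    mul_le_mul_of_nonneg_left (h4.trans h5) hp0.le
  calc (1 + (p - 1) * c) * chiF μ β ω h ≤ (1 + (p - 1) * x) * chiF μ β ω h := h3
    _ ≤ p * a * x := h2
    _ = p * (a * x) := by ring
    _ ≤ p * (N * c + η * (N + c + 1)) := h6
    _ = p * N * c + η * (p * (N + c + 1)) := by ring
    _ ≤ p * N * c + ε := by linarith

/-- **The second inequality at every tilt**, for every direction. -/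
theorem loE46 (hd : 0 < d) (hω : IID μ ρ ω) (hρ : EM ρ) {h u : Vec d} {s p : ℝ} (hu : u ≠ 0)
    (hp : 1 < p) (hLo : LoU (lam ρ β) h u s p) :
    (1 + (p - 1) * chiS μ β ω h) * chiF μ β ω h ≤ p * nuL μ β ω h u s * chiS μ β ω h := by
  have hu0 : 0 < ‖u‖ := norm_pos_iff.2 hu
  have hc : 0 < ‖u‖⁻¹ := inv_pos.2 hu0
  have hu1 : ‖‖u‖⁻¹ • u‖ = 1 := by
    rw [norm_smul, norm_inv, norm_norm, inv_mul_cancel₀ hu0.ne']
  rw [← nuL_scale hω hd hc]
  exact loE1 hd hω hρ hu1 hp (LoU_scale hc hLo)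

end Pool.Agent.W_7d29a1_KL
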