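import Pool.Agent.W_7d29a1_KL.DefsK46
import Pool.Agent.W_7d29a1_D2.TubF74

/-!
The first inequality for one component of the polymer, with the fluctuations known only on a set of
tilts of the line which has `h` as a point of density.
-/

namespace Pool.Agent.W_7d29a1_KL.LeafA74

open MeasureTheory ProbabilityTheory Filter Topology Pool.Agent.W_MP_7d29a1_pr
  Pool.Agent.W_7d29a1_h46 Pool.Agent.W_7d29a1_h46u Pool.Agent.W_7d29a1_D2 Pool.Agent.W_7d29a1_V
  Pool.Agent.W_7d29a1_VT Pool.Agent.W_7d29a1_V.Li70 Pool.Agent.W_7d29a1_D2.TubK74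

variable {d : ℕ}

/-- The far mass on one side does not depend on the size of the parameter. -/
lemma farL_pos (β : ℝ) (h u : Vec d) (η : Env d) (n i : ℕ) (s w : ℝ) {t : ℝ} (ht : 0 < t) :
    FarL β h u η n i s t w = FarL β h u η n i s 1 w := by
  have h1 : {q : Fin n → Step d | |t| * w ≤ t * (inner ℝ u (emb (pos q i)) - i * s)} =
      {q : Fin n → Step d | |(1 : ℝ)| * w ≤ 1 * (inner ℝ u (emb (pos q i)) - i * s)} := by
    ext q
    simp only [Set.mem_ofPred_eq]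
    rw [abs_of_pos ht, abs_one, one_mul, one_mul]
    exact mul_le_mul_iff_right₀ ht
  unfold FarL
  rw [h1]

lemma farL_neg (β : ℝ) (h u : Vec d) (η : Env d) (n i : ℕ) (s w : ℝ) {t : ℝ} (ht : t < 0) :
    FarL β h u η n i s t w = FarL β h u η n i s (-1) w := by
  have h1 : {q : Fin n → Step d | |t| * w ≤ t * (inner ℝ u (emb (pos q i)) - i * s)} =
      {q : Fin n → Step d | |(-1 : ℝ)| * w ≤ (-1) * (inner ℝ u (emb (pos q i)) - i * s)} := by
    ext q
    simp only [Set.mem_ofPred_eq]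
    rw [abs_of_neg ht, abs_neg, abs_one, one_mul]
    constructor
    · intro h2
      by_contra hcon
      nlinarith
    · intro h2
      nlinarith
  unfold FarL
  rw [h1]

variable {ρ : Measure ℝ} [IsProbabilityMeasure ρ]

/-- The mass outside of the slab on the good event. -/
theorem good_U (hd : 0 < d) (hρ : EM ρ) {β : ℝ} {h u : Vec d} {E s t t1 t2 w R r : ℝ} {n : ℕ}
    {η : Env d} (ht : 0 < t) (ht1 : t ≤ t1) (ht2 : t2 ≤ -t) (hE0 : 0 ≤ E) (hr : 0 ≤ r)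
    (hE1 : lam ρ β (h + t1 • u) ≤ lam ρ β h + s * t1 + E)
    (hE2 : lam ρ β (h + t2 • u) ≤ lam ρ β h + s * t2 + E)
    (hR : n * lam ρ β h - A ρ β h n ≤ R)
    (hs1 : ∀ i ≤ n, |X β (h + t1 • u) η i - A ρ β (h + t1 • u) i| ≤ w)
    (hs2 : ∀ i ≤ n, |X β (h + t2 • u) η i - A ρ β (h + t2 • u) i| ≤ w)
    (hmid : ∀ i ≤ n, ∀ y ∈ boxF d n, |X β h (sh i y η) (n - i) - A ρ β h (n - i)| ≤ w) :
    1 - PolT β h η (slb d n u s r) ≤
      2 * ((n : ℝ) + 1) * Real.exp (n * E + 3 * w + R - t * r) := by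
  refine (one_sub_leL hd β h u η n s (r := r) (t := 1) one_pos).trans ?_
  have h1 : ∀ i ∈ Finset.range (n + 1),
      (FarL β h u η n i s 1 r + FarL β h u η n i s (-1) r) ≤
      2 * Real.exp (n * E + 3 * w + R - t * r) := by
    intro i hi
    have hi' : i ≤ n := Nat.lt_succ_iff.1 (Finset.mem_range.1 hi)
    have b1 : |t1| = t1 := abs_of_pos (ht.trans_le ht1)
    have b2 : |t2| = -t2 := abs_of_neg (by linarith)
    have a1 := farL_good (r := r) hd hρ b1 hE0 hE1 hR hs1 hmid hi'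
    have a2 := farL_good (r := r) hd hρ b2 hE0 hE2 hR hs2 hmid hi'
    rw [farL_pos β h u η n i s r (ht.trans_le ht1)] at a1
    rw [farL_neg β h u η n i s r (show t2 < 0 by linarith)] at a2
    have c1 : Real.exp (n * E + 3 * w + R - t1 * r) ≤ Real.exp (n * E + 3 * w + R - t * r) :=
      Real.exp_le_exp.2 (by nlinarith)
    have c2 : Real.exp (n * E + 3 * w + R - -t2 * r) ≤ Real.exp (n * E + 3 * w + R - t * r) :=
      Real.exp_le_exp.2 (by nlinarith)
    linarith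
  refine (Finset.sum_le_sum h1).trans ?_
  rw [Finset.sum_const, Finset.card_range, nsmul_eq_mul]
  push_cast
  linarith

/-- Two tilts of `K Q` on the two sides of `h`, at distance of the order `t`. -/
lemma exists_U {K : ℕ → Set (Vec d)} {h u : Vec d} (hD : DnU K h u) (Q : ℕ) :
    ∃ δ : ℝ, 0 < δ ∧ ∀ t : ℝ, 0 < t → t < δ → ∃ t1 t2 : ℝ,
      h + t1 • u ∈ K Q ∧ h + t2 • u ∈ K Q ∧ t ≤ t1 ∧ t1 ≤ 3 * t ∧ -(3 * t) ≤ t2 ∧ t2 ≤ -t := by
  obtain ⟨δ, hδ, H⟩ := (hD Q).2.2 (1 / 2) (by norm_num)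
  refine ⟨δ / 2, by linarith, fun t ht htδ => ?_⟩
  have e1 : |2 * t| = 2 * t := abs_of_pos (by linarith)
  have e2 : |-(2 * t)| = 2 * t := by rw [abs_neg, e1]
  obtain ⟨t1, h1, h2⟩ := H (2 * t) (by rw [e1]; linarith) (by rw [e1]; linarith)
  obtain ⟨t2, h3, h4⟩ := H (-(2 * t)) (by rw [e2]; linarith) (by rw [e2]; linarith)
  rw [e1, abs_le] at h2
  rw [e2, abs_le] at h4
  exact ⟨t1, t2, h1, h3, by linarith [h2.1], by linarith [h2.2], by linarith [h4.1],
    by linarith [h4.2]⟩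

/-- The mass outside of the slab, with the fluctuations at the tilts of `K Q` only. -/
theorem slab_U (hd : 0 < d) (hρ : EM ρ) {β : ℝ} {h u : Vec d} {s x : ℝ} (hx : 0 < x)
    (hx1 : x < 1) {K : ℕ → Set (Vec d)} (hD : DnU K h u) (hT : TailK ρ β x K)
    (hRt : RateK ρ β x h) {p : ℝ} (hp : 0 < p) (hU : UpU (lam ρ β) h u s p) {a : ℝ}
    (ha : 1 + (p - 1) * x < p * a) : SbF ρ β h u s a := by
  intro q
  have hh : ∀ Q, h ∈ K Q := fun Q => (hD Q).1
  have ha' : x + (1 - x) / p < a := by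
    have h1 : p * (x + (1 - x) / p) < p * a := by
      rw [mul_add, mul_div_cancel₀ _ hp.ne']
      linarith
    exact lt_of_mul_lt_mul_left h1 hp.le
  obtain ⟨ε, hε, hε1, hε2⟩ : ∃ ε : ℝ, 0 < ε ∧ x + (1 - x) / p + 3 * ε ≤ a ∧ x + ε < 1 := by
    refine ⟨min ((a - (x + (1 - x) / p)) / 3) ((1 - x) / 2), lt_min (by linarith) (by linarith),
      ?_, ?_⟩
    · have := min_le_left ((a - (x + (1 - x) / p)) / 3) ((1 - x) / 2)
      linarith
    · have := min_le_right ((a - (x + (1 - x) / p)) / 3) ((1 - x) / 2)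
      linarith
  obtain ⟨C₁, hC₁, H₁⟩ := hRt ε hε hε2
  obtain ⟨Q, C₂, hC₂, H₂⟩ := prob_K hh hT hε q
  obtain ⟨δ₂, hδ₂, HK⟩ := exists_U hD Q
  obtain ⟨C₃, δ₃, hδ₃, H₃⟩ := hU
  have hC₃ : 0 ≤ max C₃ 0 := le_max_right _ _
  obtain ⟨D, hD'⟩ : ∃ D : ℝ, D = max C₃ 0 * 3 ^ p := ⟨_, rfl⟩
  have hD0 : 0 ≤ D := by
    rw [hD']
    exact mul_nonneg hC₃ (Real.rpow_nonneg (by norm_num) _)
  obtain ⟨C', hC'⟩ : ∃ C' : ℝ, C' = D + 3 + C₁ := ⟨_, rfl⟩
  have hC'0 : 0 ≤ C' := by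
    rw [hC']
    linarith
  have hint : ∀ n : ℕ, ∀ η : Env d, 1 - PolT β h η (slb d n u s ((n : ℝ) ^ a)) ≤ 1 := fun n η => by
    have := PolT_nonneg β h η (slb d n u s ((n : ℝ) ^ a))
    linarith
  have hint0 : ∀ n : ℕ, ∀ η : Env d, 0 ≤ 1 - PolT β h η (slb d n u s ((n : ℝ) ^ a)) :=
    fun n η => by
    have := PolT_le_one β h η (slb d n u s ((n : ℝ) ^ a))
    linarith
  -- small tilts
  have hcast := tendsto_natCast_atTop_atTop (R := ℝ)
  have hxp : 0 < (1 - x) / p := div_pos (by linarith) hp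
  have hδ' : 0 < min δ₂ (δ₃ / 3) := lt_min hδ₂ (by positivity)
  have ht : ∀ᶠ n : ℕ in atTop, (n : ℝ) ^ (-((1 - x) / p)) < min δ₂ (δ₃ / 3) := by
    have h1 := (tendsto_rpow_neg_atTop hxp).comp hcast
    exact h1.eventually (gt_mem_nhds hδ')
  obtain ⟨N, hN⟩ := eventually_atTop.1 (ht.and (TubW_asym 1 one_pos C' hC'0 hx hε q))
  refine ⟨max (C₂ + 4) ((N : ℝ) ^ (q : ℝ)), fun n hn => ?_⟩
  have hn1 : (1 : ℝ) ≤ n := by exact_mod_cast hn
  have hn0 : (0 : ℝ) < n := by linarith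
  have hq0 : 0 ≤ (n : ℝ) ^ (-(q : ℝ)) := Real.rpow_nonneg hn0.le _
  rcases lt_or_ge n N with hnN | hnN
  · -- small n
    have h1 : ∫ η, (1 - PolT β h η (slb d n u s ((n : ℝ) ^ a))) ∂(law d ρ) ≤ 1 := by
      have h2 := integral_mono_of_nonneg (μ := law d ρ) (Eventually.of_forall (hint0 n))
        (integrable_const (1 : ℝ)) (Eventually.of_forall (hint n))
      refine h2.trans (le_of_eq ?_)
      simp
    refine h1.trans ?_
    have h3 : 1 ≤ (N : ℝ) ^ (q : ℝ) * (n : ℝ) ^ (-(q : ℝ)) := by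
      rw [Real.rpow_neg hn0.le, ← div_eq_mul_inv, one_le_div (Real.rpow_pos_of_pos hn0 _)]
      exact Real.rpow_le_rpow hn0.le (by exact_mod_cast hnN.le) (Nat.cast_nonneg q)
    exact h3.trans (mul_le_mul_of_nonneg_right (le_max_right _ _) hq0)
  · obtain ⟨ht1, hasym⟩ := hN n hnN
    rw [Nat.cast_one, div_one, mul_one, mul_one] at hasym
    set t : ℝ := (n : ℝ) ^ (-((1 - x) / p)) with htdef
    have ht0 : 0 < t := Real.rpow_pos_of_pos hn0 _
    have ht2 : t < δ₂ := ht1.trans_le (min_le_left _ _)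
    have ht3 : 3 * t ≤ δ₃ := by
      have h1 : t < δ₃ / 3 := ht1.trans_le (min_le_right _ _)
      linarith
    obtain ⟨t1, t2, hk1, hk2, g1, g2, g3, g4⟩ := HK t ht0 ht2
    obtain ⟨k, hk⟩ : ∃ k : Fin d → Bool → (Fin d → Bool) → Vec d,
        k = fun _ b _ => h + (if b then t1 else t2) • u := ⟨_, rfl⟩
    have hkQ : ∀ j b σ, k j b σ ∈ K Q := by
      intro j b σ
      rw [hk]
      cases b
      · simpa using hk2
      · simpa using hk1
    have hbad := H₂ n hn k hkQ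
    have hR := H₁ n hn
    have htp : 0 < t ^ p := Real.rpow_pos_of_pos ht0 _
    have hE : ∀ σ : ℝ, |σ| ≤ 3 * t → lam ρ β (h + σ • u) ≤ lam ρ β h + s * σ + D * t ^ p := by
      intro σ hσ
      have h1 := H₃ σ (hσ.trans ht3)
      have h2 : C₃ * |σ| ^ p ≤ max C₃ 0 * (3 * t) ^ p :=
        mul_le_mul (le_max_left _ _) (Real.rpow_le_rpow (abs_nonneg _) hσ hp.le)
          (Real.rpow_nonneg (abs_nonneg _) _) hC₃
      have h3 : max C₃ 0 * (3 * t) ^ p = D * t ^ p := by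
        rw [hD', Real.mul_rpow (by norm_num) ht0.le]
        ring
      linarith
    have hnt : n * (D * t ^ p) ≤ D * (n : ℝ) ^ (x + ε) := by
      have h1 : (n : ℝ) * t ^ p = (n : ℝ) ^ x := by
        have h2 : t ^ p = (n : ℝ) ^ (-(1 - x)) := by
          rw [htdef, ← Real.rpow_mul hn0.le]
          congr 1
          field_simp
        rw [h2]
        nth_rewrite 1 [← Real.rpow_one (n : ℝ)]
        rw [← Real.rpow_add hn0]
        congr 1
        ring
      have h2 : (n : ℝ) ^ x ≤ (n : ℝ) ^ (x + ε) :=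
        Real.rpow_le_rpow_of_exponent_le hn1 (by linarith)
      calc n * (D * t ^ p) = D * (n * t ^ p) := by ring
        _ = D * (n : ℝ) ^ x := by rw [h1]
        _ ≤ _ := mul_le_mul_of_nonneg_left h2 hD0
    have htr : (n : ℝ) ^ (x + 3 * ε) ≤ t * (n : ℝ) ^ a := by
      rw [htdef, ← Real.rpow_add hn0]
      exact Real.rpow_le_rpow_of_exponent_le hn1 (by linarith)
    have hexp : n * (D * t ^ p) + 3 * (n : ℝ) ^ (x + ε) + C₁ * (n : ℝ) ^ (x + ε) -
        t * (n : ℝ) ^ a ≤ C' * (n : ℝ) ^ (x + ε) - (n : ℝ) ^ (x + 3 * ε) := by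
      rw [hC']
      linarith
    have hgood : ∀ η ∈ {η | GdK ρ β h k ((n : ℝ) ^ (x + ε)) n η},
        1 - PolT β h η (slb d n u s ((n : ℝ) ^ a)) ≤
          2 * ((n : ℝ) + 1) * Real.exp (n * (D * t ^ p) + 3 * (n : ℝ) ^ (x + ε) +
            C₁ * (n : ℝ) ^ (x + ε) - t * (n : ℝ) ^ a) := by
      intro η hη
      have hη' : GdK ρ β h k ((n : ℝ) ^ (x + ε)) n η := hη
      refine good_U hd hρ ht0 g1 g4 (mul_nonneg hD0 htp.le) (Real.rpow_nonneg hn0.le _)
        (hE t1 (by rw [abs_of_pos (ht0.trans_le g1)]; exact g2))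
        (hE t2 (by rw [abs_of_neg (by linarith)]; linarith)) hR ?_ ?_ hη'.mid
      · intro i hi
        have h1 := hη'.side i hi ⟨0, hd⟩ true fun _ => true
        rw [hk] at h1
        simpa using h1
      · intro i hi
        have h1 := hη'.side i hi ⟨0, hd⟩ false fun _ => true
        rw [hk] at h1
        simpa using h1
    have hmain := TubW_split (μ := law d ρ)
      (f := fun η => 1 - PolT β h η (slb d n u s ((n : ℝ) ^ a))) (hint n)
      (G := {η | GdK ρ β h k ((n : ℝ) ^ (x + ε)) n η}) (b := 4 * (n : ℝ) ^ (-(q : ℝ)))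
      (by positivity)
      (fun η hη => (hgood η hη).trans
        ((mul_le_mul_of_nonneg_left (Real.exp_le_exp.2 hexp) (by positivity)).trans hasym))
      (hint0 n)
    have hset : ({η | GdK ρ β h k ((n : ℝ) ^ (x + ε)) n η} : Set (Env d))ᶜ =
        {η | ¬ GdK ρ β h k ((n : ℝ) ^ (x + ε)) n η} := rfl
    rw [hset] at hmain
    refine hmain.trans ?_
    calc (law d ρ).real {η | ¬ GdK ρ β h k ((n : ℝ) ^ (x + ε)) n η} +
          4 * (n : ℝ) ^ (-(q : ℝ)) ≤ C₂ * (n : ℝ) ^ (-(q : ℝ)) +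
          4 * (n : ℝ) ^ (-(q : ℝ)) := add_le_add hbad le_rfl
      _ = (C₂ + 4) * (n : ℝ) ^ (-(q : ℝ)) := by ring
      _ ≤ _ := mul_le_mul_of_nonneg_right (le_max_left _ _) hq0

end Pool.Agent.W_7d29a1_KL.LeafA74

namespace Pool.Agent.W_7d29a1_KL

open MeasureTheory ProbabilityTheory Filter Topology Pool.Agent.W_MP_7d29a1_pr
  Pool.Agent.W_7d29a1_h46 Pool.Agent.W_7d29a1_h46u Pool.Agent.W_7d29a1_D2 Pool.Agent.W_7d29a1_V
  Pool.Agent.W_7d29a1_VT Pool.Agent.W_7d29a1_KL.LeafA74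

/-- **LEAF A.** -/
theorem leafA74 {d : ℕ} {ρ : Measure ℝ} [IsProbabilityMeasure ρ] (hd : 0 < d) (hρ : EM ρ)
    (β : ℝ) : LeafA d ρ β := by
  intro K h u s p x a _ hp hx hx1 hK hD _ hU ha
  exact slab_U hd hρ hx hx1 hD (tailK74 hd hρ hx.le hK)
    (rateK74 hd hρ hx.le hK fun Q => (hD Q).1) (by linarith) hU ha

end Pool.Agent.W_7d29a1_KL
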