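import Pool.Agent.W_7d29a1_KL.DefsK46
import Pool.Agent.W_7d29a1_D2.DensK21

/-!
Leaf D: almost every tilt of a line is a density point of the sets of tilts with bounded moments.
-/

namespace Pool.Agent.W_7d29a1_KL

open MeasureTheory ProbabilityTheory Filter Topology Metric Pool.Agent.W_MP_7d29a1_pr
  Pool.Agent.W_7d29a1_h46 Pool.Agent.W_7d29a1_h46u Pool.Agent.W_7d29a1_D2

/-- Density points of a set of real numbers. -/
theorem dens_real21 (S : Set ℝ) : ∀ᵐ x ∂((volume : Measure ℝ).restrict S),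
    ∀ ε > 0, ∃ δ > 0, ∀ r : ℝ, 0 < |r| → |r| < δ → ∃ k ∈ S, |k - (x + r)| ≤ ε * |r| := by
  have h1 : ∀ K : ℕ, ∀ᵐ x ∂((volume : Measure ℝ).restrict S),
      ∀ (w : ℝ → ℝ) (δ : ℝ → ℝ), Tendsto δ (𝓝[≠] 0) (𝓝[>] 0) →
        (∀ᶠ j in 𝓝[≠] (0 : ℝ), x ∈ closedBall (w j) ((K : ℝ) * δ j)) →
        Tendsto (fun j => volume (S ∩ closedBall (w j) (δ j)) / volume (closedBall (w j) (δ j)))
          (𝓝[≠] (0 : ℝ)) (𝓝 1) := by
    intro K
    filter_upwards [IsUnifLocDoublingMeasure.ae_tendsto_measure_inter_div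
      (volume : Measure ℝ) S (K : ℝ)] with x hx w δ h2 h3 using hx w δ h2 h3
  filter_upwards [ae_all_iff.2 h1] with x hx ε hε
  obtain ⟨K, hK⟩ := exists_nat_gt (1 / ε)
  have hK0 : (0 : ℝ) < K := lt_trans (by positivity) hK
  have hKε : 1 / (K : ℝ) ≤ ε := by
    rw [div_le_iff₀ hK0]
    rw [div_lt_iff₀ hε] at hK
    linarith
  have h2 : Tendsto (fun r : ℝ => ‖r‖ / K) (𝓝[≠] 0) (𝓝[>] 0) := by
    rw [tendsto_nhdsWithin_iff]
    constructor
    · have h3 : Tendsto (fun r : ℝ => ‖r‖ / K) (𝓝 0) (𝓝 (‖(0 : ℝ)‖ / K)) :=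
        (continuous_norm.div_const _).tendsto 0
      rw [norm_zero, zero_div] at h3
      exact h3.mono_left nhdsWithin_le_nhds
    · filter_upwards [self_mem_nhdsWithin] with r hr
      exact div_pos (norm_pos_iff.2 hr) hK0
  have h3 := hx K (fun r => x + r) (fun r => ‖r‖ / K) h2 (Eventually.of_forall fun r => by
    rw [mem_closedBall, dist_eq_norm]
    have : x - (x + r) = -r := by ring
    rw [this, norm_neg, mul_div_cancel₀ _ hK0.ne'])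
  have h4 : ∀ᶠ r in 𝓝[≠] (0 : ℝ),
      volume (S ∩ closedBall (x + r) (‖r‖ / K)) / volume (closedBall (x + r) (‖r‖ / K)) ≠ 0 := by
    have h5 : ∀ᶠ a in 𝓝 (1 : ENNReal), a ≠ 0 := isOpen_ne.mem_nhds one_ne_zero
    exact h3.eventually h5
  rw [eventually_nhdsWithin_iff, Metric.eventually_nhds_iff] at h4
  obtain ⟨δ, hδ, h6⟩ := h4
  refine ⟨δ, hδ, fun r hr hrδ => ?_⟩
  rw [← Real.norm_eq_abs] at hr hrδ
  have h7 := h6 (by rw [dist_zero_right]; exact hrδ) (norm_pos_iff.1 hr)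
  have h8 : volume (S ∩ closedBall (x + r) (‖r‖ / K)) ≠ 0 := by
    intro h0
    rw [h0] at h7
    simp at h7
  obtain ⟨k, hk⟩ := nonempty_of_measure_ne_zero h8
  refine ⟨k, hk.1, ?_⟩
  have h9 := hk.2
  rw [mem_closedBall, dist_eq_norm] at h9
  rw [← Real.norm_eq_abs, ← Real.norm_eq_abs]
  calc ‖k - (x + r)‖ ≤ ‖r‖ / K := h9
    _ = 1 / (K : ℝ) * ‖r‖ := by ring
    _ ≤ ε * ‖r‖ := mul_le_mul_of_nonneg_right hKε (norm_nonneg r)

variable {d : ℕ} {ρ : Measure ℝ} [IsProbabilityMeasure ρ] {β : ℝ}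

/-- **LEAF D.** -/
theorem leafD21 (hd : 0 < d) (hρ : EM ρ) (β : ℝ) : LeafD d ρ β := by
  intro h0 u hu
  have hcont : Continuous fun r : ℝ => h0 + r • u := by fun_prop
  have hcl : ∀ (z : ℚ) (L : List ℕ),
      IsClosed {r : ℝ | h0 + r • u ∈ (SL21 ρ β (z : ℝ) L : Set (Vec d))} := fun z L =>
    (closed_SL21 hd hρ β (z : ℝ) L).preimage hcont
  have h1 : ∀ z : ℚ, ∀ L : List ℕ, ∀ᵐ x : ℝ, h0 + x • u ∈ (SL21 ρ β (z : ℝ) L : Set (Vec d)) →
      ∀ ε > 0, ∃ δ > 0, ∀ r : ℝ, 0 < |r| → |r| < δ →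
        ∃ k : ℝ, h0 + k • u ∈ (SL21 ρ β (z : ℝ) L : Set (Vec d)) ∧ |k - (x + r)| ≤ ε * |r| :=
    fun z L => (ae_restrict_iff' (hcl z L).measurableSet).1
      (dens_real21 {r : ℝ | h0 + r • u ∈ (SL21 ρ β (z : ℝ) L : Set (Vec d))})
  have h2 : ∀ᵐ x : ℝ, ∀ z : ℚ, ∀ L : List ℕ, h0 + x • u ∈ (SL21 ρ β (z : ℝ) L : Set (Vec d)) →
      ∀ ε > 0, ∃ δ > 0, ∀ r : ℝ, 0 < |r| → |r| < δ →
        ∃ k : ℝ, h0 + k • u ∈ (SL21 ρ β (z : ℝ) L : Set (Vec d)) ∧ |k - (x + r)| ≤ ε * |r| :=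
    ae_all_iff.2 fun z => ae_all_iff.2 fun L => h1 z L
  filter_upwards [h2] with x0 hh x y hxy hx
  obtain ⟨z, hz1, hz2⟩ := exists_rat_btwn hxy
  have hz : FlF ρ β (h0 + x0 • u) (z : ℝ) := FlU21_mono hz1.le hx
  have hC : ∀ q : ℕ, ∃ C : ℕ, h0 + x0 • u ∈ (St21 ρ β (z : ℝ) q C : Set (Vec d)) := by
    intro q
    obtain ⟨C, hC⟩ := hz q
    obtain ⟨K, hK⟩ := exists_nat_ge C
    exact ⟨K, fun n hn => (hC n hn).trans (mul_le_mul_of_nonneg_right hK (by positivity))⟩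
  choose C hC using hC
  refine ⟨fun Q => SL21 ρ β (z : ℝ) ((List.range (Q + 1)).map C) ∩ {k | ∃ r : ℝ, k = h0 + r • u},
    ⟨?_, ?_⟩, ?_⟩
  · intro p q hpq
    simp only [SL21_map]
    rintro k ⟨hk, hk'⟩
    refine ⟨?_, hk'⟩
    simp only [Set.mem_iInter] at hk ⊢
    exact fun i hi => hk i (hi.trans hpq)
  · intro q
    refine ⟨C q, fun k hk n hn => ?_⟩
    replace hk := hk.1
    rw [SL21_map] at hk
    simp only [Set.mem_iInter] at hk
    have h3 := hk q le_rfl n hn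
    have hn1 : (1 : ℝ) ≤ n := by exact_mod_cast hn
    refine le_trans h3 (mul_le_mul_of_nonneg_left (Real.rpow_le_rpow_of_exponent_le hn1 ?_)
      (Nat.cast_nonneg _))
    exact mul_le_mul_of_nonneg_right hz2.le (Nat.cast_nonneg q)
  · intro Q
    have hmem : h0 + x0 • u ∈ (SL21 ρ β (z : ℝ) ((List.range (Q + 1)).map C) : Set (Vec d)) := by
      rw [SL21_map]
      simp only [Set.mem_iInter]
      exact fun q _ => hC q
    refine ⟨⟨hmem, x0, rfl⟩, ?_, fun ε hε => ?_⟩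
    · rintro k ⟨_, r, rfl⟩
      refine ⟨r - x0, ?_⟩
      rw [add_assoc, ← add_smul]
      congr 2
      ring
    · obtain ⟨δ, hδ, h3⟩ := hh z _ hmem ε hε
      refine ⟨δ, hδ, fun t ht htδ => ?_⟩
      obtain ⟨k, hk, hk2⟩ := h3 t ht htδ
      have e1 : h0 + x0 • u + (k - x0) • u = h0 + k • u := by
        rw [add_assoc, ← add_smul]
        congr 2
        ring
      refine ⟨k - x0, ⟨?_, k, e1⟩, ?_⟩
      · rw [e1]
        exact hk
      · have e2 : k - x0 - t = k - (x0 + t) := by ring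
        rw [e2]
        exact hk2

end Pool.Agent.W_7d29a1_KL
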