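import Pool.Agent.W_7d29a1_VT.Slab46

/-!
The exponent of one component is at most the exponent of the tube.
-/

namespace Pool.Agent.W_7d29a1_KL

open MeasureTheory ProbabilityTheory Filter Topology Pool.Agent.W_MP_7d29a1_pr
  Pool.Agent.W_7d29a1_h46 Pool.Agent.W_7d29a1_h46u Pool.Agent.W_7d29a1_D2 Pool.Agent.W_7d29a1_V
  Pool.Agent.W_7d29a1_VT Pool.Agent.W_7d29a1_VT.Slab46

variable {d : ℕ} {ρ : Measure ℝ} [IsProbabilityMeasure ρ] {β : ℝ} {Ω : Type*} [MeasurableSpace Ω]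
  {μ : Measure Ω} [IsProbabilityMeasure μ] {ω : ℕ × Site d → Ω → ℝ}

lemma tube_sub_slb {n : ℕ} (u v : Vec d) {r W : ℝ} (h : ‖u‖ * r ≤ W) :
    tube d n v r ⊆ slb d n u (inner ℝ u v) W := by
  intro q hq i hi
  have h1 := hq i hi
  have h2 : inner ℝ u (emb (pos q i)) - i * inner ℝ u v =
      inner ℝ u (emb (pos q i) - (i : ℝ) • v) := by
    rw [inner_sub_right, real_inner_smul_right]
  rw [h2]
  exact (abs_real_inner_le_norm _ _).trans ((mul_le_mul_of_nonneg_left h1 (norm_nonneg u)).trans h)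

/-- **The exponent of one component is at most the exponent of the tube.** -/
theorem nuL_le_nuS (hd : 0 < d) (hω : IID μ ρ ω) (h u v : Vec d) :
    nuL μ β ω h u (inner ℝ u v) ≤ nuS μ β ω h v := by
  refine le_csInf ⟨2, StrB_two_mem hd ω β h v⟩ fun a ha => ?_
  obtain ⟨ha0, hT⟩ := (mem_nuSetS hω h v a).1 ha
  refine le_of_forall_gt_imp_ge_of_dense fun b hb => ?_
  refine csInf_le ⟨0, fun y hy => hy.1.le⟩ ((mem_nuSetL hω h u _ b).2 ⟨ha0.trans hb, fun q => ?_⟩)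
  obtain ⟨N, hN⟩ : ∃ N : ℕ, ∀ n : ℕ, N ≤ n → 1 ≤ n → ‖u‖ * (n : ℝ) ^ a ≤ (n : ℝ) ^ b := by
    have h1 : Tendsto (fun n : ℕ => (n : ℝ) ^ (b - a)) atTop atTop :=
      (tendsto_rpow_atTop (by linarith)).comp tendsto_natCast_atTop_atTop
    obtain ⟨N, hN⟩ := eventually_atTop.1 (h1.eventually_ge_atTop ‖u‖)
    refine ⟨N, fun n hn hn1 => ?_⟩
    have hn0 : (0 : ℝ) < n := by exact_mod_cast hn1
    have h3 : (n : ℝ) ^ b = (n : ℝ) ^ (b - a) * (n : ℝ) ^ a := by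
      rw [← Real.rpow_add hn0]
      congr 1
      ring
    rw [h3]
    exact mul_le_mul_of_nonneg_right (hN n hn) (Real.rpow_nonneg hn0.le _)
  exact fam_mono (E := fun n => tube d n v ((n : ℝ) ^ a))
    (E' := fun n => slb d n u (inner ℝ u v) ((n : ℝ) ^ b)) (N := N)
    (fun n hn hn1 => tube_sub_slb u v (hN n hn hn1)) (hT q)

end Pool.Agent.W_7d29a1_KL
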