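import Pool.Agent.W_7d29a1_VT.FinM46
import Pool.Agent.W_7d29a1_KL.EveryL46
import Pool.Agent.W_7d29a1_KL.TubeL46
import Pool.Agent.W_7d29a1_KL.LeafA74
import Pool.Agent.W_7d29a1_KL.LeafD21
import Pool.Agent.W_7d29a1_KL.EK99

/-!
The scaling exponents in every dimension: the final theorem, with the exponents of one component of
the polymer.
-/

namespace Pool.Agent.W_7d29a1_KL

open MeasureTheory ProbabilityTheory Filter Topology Pool.Agent.W_MP_7d29a1_pr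
  Pool.Agent.W_7d29a1_h46 Pool.Agent.W_7d29a1_h46u Pool.Agent.W_7d29a1_D2 Pool.Agent.W_7d29a1_V
  Pool.Agent.W_7d29a1_VT

/-- **The scaling exponents in every dimension: bounds, the relation at almost every tilt and for one
component on every line of tilts, the growth of the free energy and the exceptional tilts.** -/
theorem finalP {d : ℕ} (hd : 1 ≤ d) {Ω : Type*} [MeasurableSpace Ω] (μ : Measure Ω)
    [IsProbabilityMeasure μ] (ω : ℕ × Site d → Ω → ℝ) (hmeas : ∀ p, Measurable (ω p))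
    (hindep : iIndepFun ω μ) (hident : ∀ p q, IdentDistrib (ω p) (ω q) μ μ)
    (hnc : ∀ p, ¬ ∃ c : ℝ, ∀ᵐ x ∂μ, ω p x = c)
    (hexp : ∀ (b : ℝ) p, Integrable (fun x => Real.exp (b * ω p x)) μ) {β : ℝ} (hβ : 0 < β) :
    -- the exponents of the problem
    2 * chi μ β ω ≤ nu μ β ω ∧ 1 / ((d : ℝ) + 1) ≤ nu μ β ω ∧
    1 ≤ d * nu μ β ω + 2 * chi μ β ω ∧ nuT μ β ω 0 0 = nu μ β ω ∧ chiT μ β ω 0 = chi μ β ω ∧
    ∃ L : Vec d → ℝ,
      -- the free energy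
      (∀ h, ∀ᵐ x ∂μ, Tendsto (fun n : ℕ =>
        Real.log (Zn β h (fun p => ω p x) n) / n) atTop (𝓝 (L h))) ∧
      ConvexOn ℝ Set.univ L ∧
      -- every tilt `h`, every direction `v`
      (∀ h v : Vec d, 2 * chiT μ β ω h ≤ nuT μ β ω h v ∧
        (∀ x : ℝ, nuT μ β ω h v / 2 < x → ∀ᶠ n : ℕ in atTop,
          Var[fun y => Real.log (Zn β h (fun p => ω p y) n); μ] ≤ (n : ℝ) ^ (2 * x) ∧
          0 ≤ n * L h - ∫ y, Real.log (Zn β h (fun p => ω p y) n) ∂μ ∧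
          n * L h - ∫ y, Real.log (Zn β h (fun p => ω p y) n) ∂μ ≤ (n : ℝ) ^ x) ∧
        1 / ((d : ℝ) + 1) ≤ nuT μ β ω h v ∧ 1 ≤ d * nuT μ β ω h v + 2 * chiT μ β ω h ∧
        nuT μ β ω h v ≤ nuS μ β ω h v ∧ nuS μ β ω h v ≤ 1 ∧ chiT μ β ω h ≤ chiF μ β ω h ∧
        2 * chiF μ β ω h ≤ nuS μ β ω h v ∧ chiF μ β ω h ≤ chiS μ β ω h ∧
        chiS μ β ω h ≤ 1 / 2) ∧
      -- the growth exponent
      (∀ h v : Vec d, BddAbove {p : ℝ | 1 ≤ p ∧ UpG L h v p} ∧ 1 ≤ gam L h v ∧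
        gam L h v ≤ 2 * d + 1 ∧ nuS μ β ω h v ≤ 2 / (gam L h v + 1) ∧
        chiF μ β ω h ≤ 1 / (gam L h v + 1) ∧
        gam L h v * nuS μ β ω h v ≤ 1 + (gam L h v - 1) * chiS μ β ω h ∧
        (1 + (gam L h v - 1) * chiS μ β ω h) * chiT μ β ω h ≤
          gam L h v * nuS μ β ω h v * chiS μ β ω h ∧
        (chiT μ β ω h = chiS μ β ω h → 0 < chiS μ β ω h →
          gam L h v * nuS μ β ω h v = 1 + (gam L h v - 1) * chiS μ β ω h) ∧
        ∀ p : ℝ, (2 * (d : ℝ) + 1 < p → LoA L h v p) ∧ (1 ≤ p → LoA L h v p →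
          (1 + (p - 1) * chiS μ β ω h) * chiF μ β ω h ≤
            p * nuS μ β ω h v * chiS μ β ω h)) ∧
      -- one component of the polymer, every tilt
      (∀ h u v : Vec d, nuL μ β ω h u (inner ℝ u v) ≤ nuS μ β ω h v) ∧
      (∀ (h u : Vec d) (s : ℝ), u ≠ 0 → 2 * chiF μ β ω h ≤ nuL μ β ω h u s ∧
        ∀ p : ℝ, 1 < p →
          ((∀ r : ℝ, L h + s * r ≤ L (ray h u r)) → UpU L h u s p →
            nuL μ β ω h u s ≤ 2 / (p + 1) ∧
            p * nuL μ β ω h u s ≤ 1 + (p - 1) * chiS μ β ω h) ∧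
          (LoU L h u s p → (1 + (p - 1) * chiS μ β ω h) * chiF μ β ω h ≤
            p * nuL μ β ω h u s * chiS μ β ω h)) ∧
      -- the tilt `0`
      (∀ ε : ℝ, 0 < ε → ∃ c : ℝ, 0 < c ∧ ∀ h : Vec d, ‖h‖ ≤ 1 →
        L 0 + c * ‖h‖ ^ (2 * (d : ℝ) + 1 + ε) ≤ L h) ∧
      -- almost every tilt
      (∀ᵐ h : Vec d, ∃ v : Vec d, (∀ k, L h + inner ℝ v k ≤ L (h + k)) ∧ UpG L h v 2 ∧
        nuS μ β ω h v ≤ 2 / 3 ∧ chiF μ β ω h ≤ 1 / 3 ∧ 2 * nuS μ β ω h v - 1 ≤ chiF μ β ω h ∧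
        ((∀ ε > 0, ∃ δ > 0, ∀ r : Vec d, ‖r‖ ≤ δ → gap L h v r ≤ ε * ‖r‖ ^ 2) ∨
          (1 / 2 ≤ nuT μ β ω h v ∧ chiF μ β ω h = 2 * nuS μ β ω h v - 1)) ∧
        gam L h v * nuS μ β ω h v ≤ 1 + (gam L h v - 1) * chiF μ β ω h ∧
        (1 + (gam L h v - 1) * chiF μ β ω h) * chiT μ β ω h ≤
          gam L h v * nuS μ β ω h v * chiF μ β ω h ∧
        ∀ p : ℝ, 1 ≤ p → LoA L h v p → (1 + (p - 1) * chiF μ β ω h) * chiF μ β ω h ≤
          p * nuS μ β ω h v * chiF μ β ω h) ∧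
      -- the exceptional tilts
      (∀ a : ℝ, 0 < a → a < 1 →
        dimH {h : Vec d | ¬ ∃ v : Vec d, nuS μ β ω h v ≤ a ∧ chiF μ β ω h ≤ a / 2} ≤
          ENNReal.ofReal (d - 3 + 2 / a) ∧
        dimH {h : Vec d | ¬ chiF μ β ω h ≤ a / 2} ≤ ENNReal.ofReal (d * (2 / a - 2))) ∧
      dimH {h : Vec d | ¬ chiF μ β ω h < 1 / 2} = 0 ∧
      -- one component of the polymer, every line of tilts
      (∀ h u : Vec d, u ≠ 0 →
        (∀ᵐ r : ℝ, ∃ s : ℝ, (∀ t : ℝ, L (ray h u r) + s * t ≤ L (ray h u (r + t))) ∧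
          nuL μ β ω (ray h u r) u s ≤ 2 / 3 ∧
          2 * nuL μ β ω (ray h u r) u s - 1 ≤ chiF μ β ω (ray h u r) ∧
          ((∀ ε > 0, ∃ δ > 0, ∀ t : ℝ, |t| ≤ δ →
              L (ray h u (r + t)) - L (ray h u r) - s * t ≤ ε * t ^ 2) ∨
            (1 / 2 ≤ nuL μ β ω (ray h u r) u s ∧
              chiF μ β ω (ray h u r) = 2 * nuL μ β ω (ray h u r) u s - 1))) ∧
        ∀ a : ℝ, 0 < a → a < 1 →
          dimH {r : ℝ | ¬ ∃ s : ℝ, nuL μ β ω (ray h u r) u s ≤ a} ≤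
            ENNReal.ofReal (2 / a - 2)) ∧
      -- a dense set of tilts
      (∀ U : Set (Vec d), IsOpen U → U.Nonempty → ∃ h ∈ U, ∃ v : Vec d,
        (∀ k, L h + inner ℝ v k ≤ L (h + k)) ∧ UpG L h v 2 ∧ LoG L h v 2 ∧
        1 / 2 ≤ nuT μ β ω h v ∧ nuS μ β ω h v ≤ 2 / 3 ∧ chiF μ β ω h ≤ 1 / 3) ∧
      -- generic tilts
      (∃ G : Set (Vec d), IsGδ G ∧ Dense G ∧ ∀ h ∈ G, chiF μ β ω h = chiS μ β ω h) := by
  have hd0 : 0 < d := hd
  set p0 : ℕ × Site d := (0, 0) with hp0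
  set ρ : Measure ℝ := μ.map (ω p0) with hρdef
  have : IsProbabilityMeasure ρ := Measure.isProbabilityMeasure_map (hmeas p0).aemeasurable
  have hω : IID μ ρ ω := ⟨hmeas, hindep, fun p => (hident p p0).map_eq⟩
  have hρ : EM ρ := by
    intro b
    rw [hρdef, integrable_map_measure (by fun_prop) (hmeas p0).aemeasurable]
    exact hexp b p0
  have hmp := mp_env hω
  have tr : ∀ {P : (ℕ × Site d → ℝ) → Prop}, (∀ᵐ η ∂(law d ρ), P η) →
      ∀ᵐ x ∂μ, P (fun p => ω p x) := fun hP => hmp.quasiMeasurePreserving.ae hP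
  obtain ⟨a1, a2, a3, a4, a5, L, l1, lc, l2, l3, -, l5, l6, l7, l8, -, l10, l11⟩ :=
    finalM hd μ ω hmeas hindep hident hnc hexp hβ
  have hL : ∀ h, L h = lam ρ β h - Real.log (2 * d) := by
    intro h
    have h1 : ∀ᵐ x ∂μ, Tendsto (fun n : ℕ =>
        Real.log (Zn β h (fun p => ω p x) n) / n) atTop
          (𝓝 (lam ρ β h - Real.log (2 * d))) := by
      filter_upwards [tr (W_7d29a1_h3.ae_X hd0 hρ β h)] with x hx
      refine (hx.sub_const (Real.log (2 * d))).congr' ?_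
      filter_upwards [eventually_ge_atTop 1] with n hn
      have hn0 : (n : ℝ) ≠ 0 := by
        have : (0 : ℝ) < n := by exact_mod_cast hn
        exact this.ne'
      rw [StrA_log hd0, Real.log_pow]
      field_simp
    obtain ⟨x, hx1, hx2⟩ := ((l1 h).and h1).exists
    exact tendsto_nhds_unique hx1 hx2
  have hA : LeafA d ρ β := leafA74 hd0 hρ β
  have hD : LeafD d ρ β := leafD21 hd0 hρ β
  have hE : LeafE d ρ β := EK99.leafE99 hd0 hρ β
  refine ⟨a1, a2, a3, a4, a5, L, l1, lc, l2, l3, fun h u v => nuL_le_nuS hd0 hω h u v,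
    fun h u s hu => ⟨two_chiF_le_nuL hd0 hω hρ hu s, fun p hp => ⟨fun hs hU => ?_, fun hLo => ?_⟩⟩,
    l5, l6, l7, l8, fun h u hu => ⟨?_, fun a ha ha1 => nuL_dim hd0 hω hρ hu ha ha1⟩, l10, l11⟩
  · have hs' : ∀ r : ℝ, lam ρ β h + s * r ≤ lam ρ β (h + r • u) := by
      intro r
      have h1 := hs r
      unfold ray at h1
      rw [hL, hL] at h1
      linarith
    have hU' : UpU (lam ρ β) h u s p := by
      obtain ⟨C, δ, hδ, H⟩ := hU
      refine ⟨C, δ, hδ, fun t ht => ?_⟩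
      have h1 := H t ht
      rw [hL, hL] at h1
      linarith
    exact ⟨nuL_le hd0 hω hρ hu hp hs' hU', upE46 hd0 hω hρ hA hu hp hs' hU'⟩
  · have hLo' : LoU (lam ρ β) h u s p := by
      obtain ⟨c, δ, hc, hδ, H⟩ := hLo
      refine ⟨c, δ, hc, hδ, fun t ht => ?_⟩
      have h1 := H t ht
      rw [hL, hL] at h1
      linarith
    exact loE46 hd0 hω hρ hu hp hLo'
  · filter_upwards [kpzL_of (μ := μ) (ω := ω) hd0 hω hρ hA hD hE h hu] with r hr
    obtain ⟨s, h1, h2, h3, h4⟩ := hr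
    have e : ∀ t : ℝ, ray h u (r + t) = h + r • u + t • u := by
      intro t
      unfold ray
      rw [add_smul, add_assoc]
    refine ⟨s, fun t => ?_, h2, h3, ?_⟩
    · rw [e, hL, hL]
      have := h1 t
      unfold ray
      linarith
    · rcases h4 with h4 | h4
      · left
        intro ε hε
        obtain ⟨δ, hδ, H⟩ := h4 ε hε
        refine ⟨δ, hδ, fun t ht => ?_⟩
        rw [e, hL, hL]
        have := H t ht
        unfold ray
        linarith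
      · right
        exact h4

end Pool.Agent.W_7d29a1_KL
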