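import Pool.Agent.W_7d29a1_KL.DefsS46
import Pool.Agent.W_7d29a1_h46.Peano
import Mathlib.MeasureTheory.Function.Jacobian

/-!
LEAF Z: at almost every slope the relation of the slopes of a convex function of one variable is
differentiable as a function of the slope. Consequences at such a slope: infinite curvature if the
derivative is `0`, otherwise the right derivative is differentiable.
-/

namespace Pool.Agent.W_7d29a1_KL

open MeasureTheory ProbabilityTheory Filter Topology Pool.Agent.W_MP_7d29a1_pr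
  Pool.Agent.W_7d29a1_h46 Pool.Agent.W_7d29a1_h46u Pool.Agent.W_7d29a1_D2 Pool.Agent.W_7d29a1_V
  Pool.Agent.W_7d29a1_VT

namespace SlopeZ46

variable {f : ℝ → ℝ}

lemma slp_mono {r s r' s' : ℝ} (h : Slp f r s) (h' : Slp f r' s') :
    0 ≤ (r' - r) * (s' - s) := by
  have h1 := h (r' - r)
  have h2 := h' (r - r')
  rw [add_sub_cancel] at h1 h2
  nlinarith

lemma slp_le {r s r' s' : ℝ} (h : Slp f r s) (h' : Slp f r' s') (hs : s < s') : r ≤ r' := by
  by_contra hcon
  have h1 := slp_mono h h'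
  have h2 : (r' - r) * (s' - s) < 0 := mul_neg_of_neg_of_pos (by linarith) (by linarith)
  linarith

/-- Slopes between two slopes. -/
lemma slp_mid (hf : ConvexOn ℝ Set.univ f) {r₁ s₁ r₂ s₂ s : ℝ} (h1 : Slp f r₁ s₁)
    (h2 : Slp f r₂ s₂) (hs1 : s₁ < s) (hs2 : s < s₂) : ∃ r, r₁ ≤ r ∧ r ≤ r₂ ∧ Slp f r s := by
  have hr : r₁ ≤ r₂ := slp_le h1 h2 (hs1.trans hs2)
  have hc : Continuous f := hf.locallyLipschitz.continuous
  have hg : ContinuousOn (fun x => f x - s * x) (Set.Icc r₁ r₂) := by fun_prop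
  obtain ⟨r, hrm, hmin⟩ := isCompact_Icc.exists_isMinOn ⟨r₁, Set.left_mem_Icc.2 hr⟩ hg
  refine ⟨r, hrm.1, hrm.2, fun t => ?_⟩
  have key : f r - s * r ≤ f (r + t) - s * (r + t) := by
    have hmin' : ∀ x ∈ Set.Icc r₁ r₂, f r - s * r ≤ f x - s * x := fun x hx => hmin hx
    rcases lt_or_ge (r + t) r₁ with h3 | h3
    · have h4 := hmin' r₁ (Set.left_mem_Icc.2 hr)
      have h5 := h1 (r + t - r₁)
      rw [add_sub_cancel] at h5
      nlinarith
    · rcases lt_or_ge r₂ (r + t) with h6 | h6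
      · have h4 := hmin' r₂ (Set.right_mem_Icc.2 hr)
        have h5 := h2 (r + t - r₂)
        rw [add_sub_cancel] at h5
        nlinarith
      · exact hmin' (r + t) ⟨h3, h6⟩
  linarith

/-- The right derivative is a slope. -/
lemma slp_G (hf : ConvexOn ℝ Set.univ f) (r : ℝ) : Slp f r (PeanoG f r) := by
  intro t
  have h1 := Peano_sub hf r (r + t)
  rw [add_sub_cancel_left] at h1
  exact h1

open Classical in
/-- LEAF Z. -/
theorem leafZ46 : LeafZ := by
  intro f hf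
  obtain ⟨S, hS⟩ : ∃ S : Set ℝ, S = {s | ∃ r, Slp f r s} := ⟨_, rfl⟩
  obtain ⟨R, hR⟩ : ∃ R : ℝ → ℝ, ∀ s ∈ S, Slp f (R s) s := by
    refine ⟨fun s => if h : ∃ r, Slp f r s then h.choose else 0, fun s hs => ?_⟩
    rw [hS] at hs
    have hs' : ∃ r, Slp f r s := hs
    simp only [hs', dif_pos]
    exact hs'.choose_spec
  have hmono : MonotoneOn R S := by
    intro s hs s' hs' hss
    rcases hss.lt_or_eq with h1 | h1
    · exact slp_le (hR s hs) (hR s' hs') h1
    · rw [h1]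
  have hae := hmono.ae_differentiableWithinAt_of_mem
  -- the end points of `S`
  have hE1 : ∀ᵐ s : ℝ, ¬ (s ∈ S ∧ ∀ s' ∈ S, s' ≤ s) := by
    have h1 : ({s | s ∈ S ∧ ∀ s' ∈ S, s' ≤ s} : Set ℝ).Subsingleton := by
      rintro a ⟨ha, ha'⟩ b ⟨hb, hb'⟩
      exact le_antisymm (hb' a ha) (ha' b hb)
    have h2 := h1.measure_zero (volume : Measure ℝ)
    rw [measure_eq_zero_iff_ae_notMem] at h2
    exact h2
  have hE2 : ∀ᵐ s : ℝ, ¬ (s ∈ S ∧ ∀ s' ∈ S, s ≤ s') := by
    have h1 : ({s | s ∈ S ∧ ∀ s' ∈ S, s ≤ s'} : Set ℝ).Subsingleton := by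
      rintro a ⟨ha, ha'⟩ b ⟨hb, hb'⟩
      exact le_antisymm (ha' b hb) (hb' a ha)
    have h2 := h1.measure_zero (volume : Measure ℝ)
    rw [measure_eq_zero_iff_ae_notMem] at h2
    exact h2
  filter_upwards [hae, hE1, hE2] with s hd h1 h2 r hr
  have hs : s ∈ S := by
    rw [hS]
    exact ⟨r, hr⟩
  obtain ⟨s₂, hs2, hss2⟩ : ∃ s₂ ∈ S, s < s₂ := by
    by_contra hcon
    push Not at hcon
    exact h1 ⟨hs, hcon⟩
  obtain ⟨s₁, hs1, hss1⟩ : ∃ s₁ ∈ S, s₁ < s := by
    by_contra hcon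
    push Not at hcon
    exact h2 ⟨hs, hcon⟩
  -- the interval of slopes
  have hint : ∀ x : ℝ, s₁ < x → x < s₂ → x ∈ S := by
    intro x hx1 hx2
    obtain ⟨r', -, -, hr'⟩ := slp_mid hf (hR s₁ hs1) (hR s₂ hs2) hx1 hx2
    rw [hS]
    exact ⟨r', hr'⟩
  have hnhds : S ∈ 𝓝 s :=
    mem_of_superset (Ioo_mem_nhds hss1 hss2) fun x hx => hint x hx.1 hx.2
  have hD := ((hd hs).differentiableAt hnhds).hasDerivAt
  obtain ⟨κ, hκ⟩ : ∃ κ : ℝ, κ = deriv R s := ⟨_, rfl⟩
  rw [← hκ] at hD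
  have hexp : ∀ η : ℝ, 0 < η → ∃ δ : ℝ, 0 < δ ∧ ∀ x : ℝ, |x - s| ≤ δ →
      x ∈ S ∧ |R x - R s - κ * (x - s)| ≤ η * |x - s| := by
    intro η hη
    have g1 := hD.isLittleO
    rw [Asymptotics.isLittleO_iff] at g1
    have g2 := g1 hη
    have g3 := g2.and hnhds
    rw [Metric.eventually_nhds_iff] at g3
    obtain ⟨δ, hδ, g3⟩ := g3
    refine ⟨δ / 2, by positivity, fun x hx => ?_⟩
    obtain ⟨g4, g5⟩ := g3 (y := x) (by
      rw [Real.dist_eq]
      linarith)
    rw [Real.norm_eq_abs, Real.norm_eq_abs, smul_eq_mul] at g4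
    rw [mul_comm κ]
    exact ⟨g5, g4⟩
  -- points with the slope `s`
  have huniq : ∀ r' : ℝ, Slp f r' s → r' = R s := by
    intro r' hr'
    by_contra hne
    have hpos : 0 < |r' - R s| := abs_pos.2 (sub_ne_zero.2 hne)
    obtain ⟨δ, hδ, H⟩ := hexp 1 one_pos
    obtain ⟨τ, hτ⟩ : ∃ τ : ℝ, τ = min δ (|r' - R s| / (2 * (|κ| + 1))) := ⟨_, rfl⟩
    have hK : 0 < |κ| + 1 := by positivity
    have hτ0 : 0 < τ := by
      rw [hτ]
      exact lt_min hδ (by positivity)
    have hτ1 : τ ≤ δ := by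
      rw [hτ]
      exact min_le_left _ _
    have hτ2 : τ * (2 * (|κ| + 1)) ≤ |r' - R s| := by
      have : τ ≤ |r' - R s| / (2 * (|κ| + 1)) := by
        rw [hτ]
        exact min_le_right _ _
      rwa [le_div_iff₀ (by positivity)] at this
    have hb : ∀ x : ℝ, |x - s| = τ → |R x - R s| ≤ (|κ| + 1) * τ := by
      intro x hx
      obtain ⟨-, g1⟩ := H x (by rw [hx]; exact hτ1)
      rw [hx, one_mul] at g1
      have g2 : |κ * (x - s)| = |κ| * τ := by rw [abs_mul, hx]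
      have g3 : R x - R s = (R x - R s - κ * (x - s)) + κ * (x - s) := by ring
      rw [g3]
      refine (abs_add_le _ _).trans ?_
      rw [g2]
      linarith
    have hτabs : |s + τ - s| = τ := by rw [add_sub_cancel_left, abs_of_pos hτ0]
    have hτabs' : |s - τ - s| = τ := by
      rw [show s - τ - s = -τ by ring, abs_neg, abs_of_pos hτ0]
    have c1 := hb (s + τ) hτabs
    have c2 := hb (s - τ) hτabs'
    have c3 := (H (s + τ) (by rw [hτabs]; exact hτ1)).1
    have c4 := (H (s - τ) (by rw [hτabs']; exact hτ1)).1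
    have c5 : r' ≤ R (s + τ) := slp_le hr' (hR _ c3) (by linarith)
    have c6 : R (s - τ) ≤ r' := slp_le (hR _ c4) hr' (by linarith)
    have c7 := (abs_le.1 c1).2
    have c8 := (abs_le.1 c2).1
    have c9 : |r' - R s| ≤ (|κ| + 1) * τ := by
      rw [abs_le]
      constructor <;> linarith
    nlinarith
  have hrs : r = R s := huniq r hr
  refine ⟨κ, fun ε hε => ?_⟩
  obtain ⟨θ, hθ⟩ : ∃ θ : ℝ, θ = min 1 (ε / (2 * (|κ| + 1))) := ⟨_, rfl⟩
  have hK : 0 < |κ| + 1 := by positivity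
  have hθ0 : 0 < θ := by
    rw [hθ]
    exact lt_min one_pos (by positivity)
  have hθ1 : θ ≤ 1 := by
    rw [hθ]
    exact min_le_left _ _
  have hθ2 : θ * (2 * (|κ| + 1)) ≤ ε := by
    have : θ ≤ ε / (2 * (|κ| + 1)) := by
      rw [hθ]
      exact min_le_right _ _
    rwa [le_div_iff₀ (by positivity)] at this
  obtain ⟨δ, hδ, H⟩ := hexp (ε / 4) (by positivity)
  refine ⟨δ / 2, by positivity, fun r' s' hr' hs' => ?_⟩
  rcases eq_or_ne s' s with h0 | h0
  · rw [h0] at hr' ⊢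
    rw [huniq r' hr', hrs, sub_self, sub_self, mul_zero, sub_zero, abs_zero, mul_zero]
  · obtain ⟨v, hv⟩ : ∃ v : ℝ, v = |s' - s| := ⟨_, rfl⟩
    have hv0 : 0 < v := by
      rw [hv]
      exact abs_pos.2 (sub_ne_zero.2 h0)
    rw [← hv] at hs' ⊢
    -- the two neighbours
    have hb : ∀ x : ℝ, |x - s'| = θ * v → x ∈ S ∧
        |R x - R s - κ * (s' - s)| ≤ ε * v := by
      intro x hx
      have g0 : |x - s| ≤ 2 * v := by
        have : x - s = (x - s') + (s' - s) := by ring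
        rw [this]
        refine (abs_add_le _ _).trans ?_
        rw [hx, ← hv]
        nlinarith
      obtain ⟨g1, g2⟩ := H x (by linarith)
      refine ⟨g1, ?_⟩
      have g3 : R x - R s - κ * (s' - s) = (R x - R s - κ * (x - s)) + κ * (x - s') := by ring
      rw [g3]
      refine (abs_add_le _ _).trans ?_
      rw [abs_mul, hx]
      have g4 : ε / 4 * |x - s| ≤ ε / 4 * (2 * v) := mul_le_mul_of_nonneg_left g0 (by positivity)
      have g5 : |κ| * (θ * v) ≤ ε / 2 * v := by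
        have : |κ| * θ ≤ ε / 2 := by nlinarith [abs_nonneg κ]
        nlinarith
      linarith
    have hθv : 0 < θ * v := by positivity
    obtain ⟨a1, a2⟩ := hb (s' + θ * v) (by rw [add_sub_cancel_left, abs_of_pos hθv])
    obtain ⟨b1, b2⟩ := hb (s' - θ * v) (by
      rw [show s' - θ * v - s' = -(θ * v) by ring, abs_neg, abs_of_pos hθv])
    have c5 : r' ≤ R (s' + θ * v) := slp_le hr' (hR _ a1) (by linarith)
    have c6 : R (s' - θ * v) ≤ r' := slp_le (hR _ b1) hr' (by linarith)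
    rw [hrs]
    rw [abs_le] at a2 b2 ⊢
    constructor <;> linarith [a2.2, b2.1]

/-- Infinite curvature where the derivative is `0`. -/
theorem inf_curv (hf : ConvexOn ℝ Set.univ f) {r s : ℝ} (h : Slp f r s) (hD : DfS f r s 0) (C : ℝ) :
    ∃ δ : ℝ, 0 < δ ∧ ∀ t : ℝ, |t| ≤ δ → C * t ^ 2 ≤ f (r + t) - f r - s * t := by
  obtain ⟨ε, hε⟩ : ∃ ε : ℝ, ε = 1 / (4 * (|C| + 1)) := ⟨_, rfl⟩
  have hK : 0 < |C| + 1 := by positivity
  have hε0 : 0 < ε := by
    rw [hε]
    positivity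
  obtain ⟨δ, hδ, H⟩ := hD ε hε0
  refine ⟨2 * (ε * δ), by positivity, fun t ht => ?_⟩
  obtain ⟨y, hy⟩ : ∃ y : ℝ, y = t / 2 := ⟨_, rfl⟩
  have hy1 : |y| ≤ ε * δ := by
    rw [hy, abs_div, abs_two]
    linarith
  have hG := slp_G hf (r + y)
  obtain ⟨σ, hσ⟩ : ∃ σ : ℝ, σ = PeanoG f (r + y) - s := ⟨_, rfl⟩
  have h1 : |y| ≤ ε * |σ| := by
    rcases le_or_gt |σ| δ with h2 | h2
    · have h3 := H (r + y) (PeanoG f (r + y)) hG (by rw [← hσ]; exact h2)
      rw [← hσ, zero_mul, sub_zero, add_sub_cancel_left] at h3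
      exact h3
    · exact hy1.trans (mul_le_mul_of_nonneg_left h2.le hε0.le)
  have h2 : 0 ≤ y * σ := by
    have := slp_mono h hG
    rwa [add_sub_cancel_left, ← hσ] at this
  have h3 : y * σ = |y| * |σ| := by rw [← abs_mul, abs_of_nonneg h2]
  -- the gap
  have h4 := hG y
  have h5 := h y
  have e1 : r + y + y = r + t := by
    rw [hy]
    ring
  rw [e1] at h4
  have h6 : y * σ ≤ f (r + t) - f r - s * t := by
    have e2 : s * t = 2 * (s * y) := by
      rw [hy]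
      ring
    have e3 : y * σ = PeanoG f (r + y) * y - s * y := by
      rw [hσ]
      ring
    rw [e3, e2]
    linarith
  refine le_trans ?_ h6
  rw [h3]
  have h7 : |y| * |y| ≤ |y| * (ε * |σ|) := mul_le_mul_of_nonneg_left h1 (abs_nonneg y)
  have h8 : C * t ^ 2 ≤ (|C| + 1) * t ^ 2 :=
    mul_le_mul_of_nonneg_right (by linarith [le_abs_self C]) (sq_nonneg t)
  have h9 : t ^ 2 = 4 * (|y| * |y|) := by
    rw [abs_mul_abs_self, hy]
    ring
  have h10 : (|C| + 1) * (4 * (|y| * (ε * |σ|))) = |y| * |σ| := by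
    rw [hε]
    field_simp
  calc C * t ^ 2 ≤ (|C| + 1) * (4 * (|y| * |y|)) := by rw [← h9]; exact h8
    _ ≤ (|C| + 1) * (4 * (|y| * (ε * |σ|))) := by
        refine mul_le_mul_of_nonneg_left ?_ hK.le
        linarith
    _ = |y| * |σ| := h10

/-- Differentiability of the right derivative where the derivative in the slope is not `0`. -/
theorem hasDeriv_G (hf : ConvexOn ℝ Set.univ f) {r s κ : ℝ} (h : Slp f r s) (hD : DfS f r s κ)
    (hκ : κ ≠ 0) : PeanoG f r = s ∧ HasDerivAt (PeanoG f) κ⁻¹ r := by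
  have hκ0 : 0 < |κ| := abs_pos.2 hκ
  -- the graph does not move vertically
  have hnv : ∀ s' : ℝ, Slp f r s' → s' = s := by
    intro s' hs'
    by_contra hne
    obtain ⟨δ, hδ, H⟩ := hD (|κ| / 2) (by positivity)
    obtain ⟨v, hv⟩ : ∃ v : ℝ, v = |s' - s| := ⟨_, rfl⟩
    have hv0 : 0 < v := by
      rw [hv]
      exact abs_pos.2 (sub_ne_zero.2 hne)
    obtain ⟨θ, hθ⟩ : ∃ θ : ℝ, θ = min 1 (δ / v) := ⟨_, rfl⟩
    have hθ0 : 0 < θ := by
      rw [hθ]
      exact lt_min one_pos (by positivity)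
    have hθ1 : θ ≤ 1 := by
      rw [hθ]
      exact min_le_left _ _
    have hθ2 : θ * v ≤ δ := by
      have : θ ≤ δ / v := by
        rw [hθ]
        exact min_le_right _ _
      rwa [le_div_iff₀ hv0] at this
    have hsl : Slp f r (s + θ * (s' - s)) := by
      intro t
      have g1 := h t
      have g2 := hs' t
      nlinarith
    have g3 : |s + θ * (s' - s) - s| = θ * v := by
      rw [add_sub_cancel_left, abs_mul, abs_of_pos hθ0, ← hv]
    have g4 := H r _ hsl (by rw [g3]; exact hθ2)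
    rw [g3, sub_self, zero_sub, abs_neg, abs_mul, g3] at g4
    have g5 : 0 < θ * v := by positivity
    nlinarith
  have hGs : PeanoG f r = s := hnv _ (slp_G hf r)
  refine ⟨hGs, ?_⟩
  rw [hasDerivAt_iff_isLittleO, Asymptotics.isLittleO_iff]
  intro c hc
  -- the constants
  obtain ⟨ε, hε⟩ : ∃ ε : ℝ, ε = min (|κ| / 2) (c * (|κ| * |κ|) / 2) := ⟨_, rfl⟩
  have hε0 : 0 < ε := by
    rw [hε]
    exact lt_min (by positivity) (by positivity)
  have hε1 : ε ≤ |κ| / 2 := by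
    rw [hε]
    exact min_le_left _ _
  have hε2 : ε ≤ c * (|κ| * |κ|) / 2 := by
    rw [hε]
    exact min_le_right _ _
  obtain ⟨δ, hδ, H⟩ := hD ε hε0
  rw [Metric.eventually_nhds_iff]
  refine ⟨|κ| / 2 * δ, by positivity, fun x hx => ?_⟩
  rw [Real.dist_eq] at hx
  obtain ⟨σ, hσ⟩ : ∃ σ : ℝ, σ = PeanoG f x - s := ⟨_, rfl⟩
  have hGx := slp_G hf x
  -- the slope at `x` is near `s`
  have hσδ : |σ| ≤ δ := by
    by_contra hcon
    rw [not_le] at hcon
    -- a point of the graph with slope at distance `δ`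
    obtain ⟨r'', s'', hsl, hs'', hr''⟩ : ∃ r'' s'' : ℝ, Slp f r'' s'' ∧ |s'' - s| = δ ∧
        |r'' - r| ≤ |x - r| := by
      rcases lt_abs.1 hcon with h1 | h1
      · obtain ⟨r'', g1, g2, g3⟩ := slp_mid hf h hGx (s := s + δ) (by linarith) (by linarith)
        refine ⟨r'', s + δ, g3, by rw [add_sub_cancel_left, abs_of_pos hδ], ?_⟩
        rw [abs_of_nonneg (by linarith)]
        exact (by linarith : r'' - r ≤ x - r).trans (le_abs_self _)
      · obtain ⟨r'', g1, g2, g3⟩ := slp_mid hf hGx h (s := s - δ) (by linarith) (by linarith)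
        refine ⟨r'', s - δ, g3, by
          rw [show s - δ - s = -δ by ring, abs_neg, abs_of_pos hδ], ?_⟩
        rw [abs_of_nonpos (by linarith)]
        exact (by linarith : -(r'' - r) ≤ -(x - r)).trans (neg_le_abs _)
    have g1 := H r'' s'' hsl hs''.le
    rw [hs''] at g1
    have g2 : |κ * (s'' - s)| = |κ| * δ := by rw [abs_mul, hs'']
    have g3 : |κ * (s'' - s)| ≤ |r'' - r| + |r'' - r - κ * (s'' - s)| := by
      have : κ * (s'' - s) = (r'' - r) - (r'' - r - κ * (s'' - s)) := by ring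
      nth_rewrite 1 [this]
      exact abs_sub _ _
    rw [g2] at g3
    nlinarith
  have h1 := H x (PeanoG f x) hGx (by rw [← hσ]; exact hσδ)
  rw [← hσ] at h1
  have h2 : |κ| * |σ| ≤ |x - r| + ε * |σ| := by
    have : κ * σ = (x - r) - (x - r - κ * σ) := by ring
    rw [← abs_mul, this]
    exact (abs_sub _ _).trans (by linarith)
  have h3 : |σ| ≤ 2 / |κ| * |x - r| := by
    have g1 : |κ| / 2 * |σ| ≤ |x - r| := by
      have := mul_le_mul_of_nonneg_right hε1 (abs_nonneg σ)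
      linarith
    rw [div_mul_eq_mul_div, le_div_iff₀ hκ0]
    linarith
  rw [Real.norm_eq_abs, Real.norm_eq_abs, hGs, smul_eq_mul, ← hσ]
  have h4 : σ - (x - r) * κ⁻¹ = -(x - r - κ * σ) * κ⁻¹ := by
    field_simp
    ring
  rw [h4, abs_mul, abs_neg, abs_inv]
  have h5 : |x - r - κ * σ| * |κ|⁻¹ ≤ ε * |σ| * |κ|⁻¹ :=
    mul_le_mul_of_nonneg_right h1 (by positivity)
  have h6 : ε * |σ| * |κ|⁻¹ ≤ ε * (2 / |κ| * |x - r|) * |κ|⁻¹ := by gcongr
  have h7 : ε * (2 / |κ| * |x - r|) * |κ|⁻¹ = (2 * ε / (|κ| * |κ|)) * |x - r| := by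
    field_simp
  have h8 : 2 * ε / (|κ| * |κ|) ≤ c := by
    rw [div_le_iff₀ (by positivity)]
    linarith
  calc |x - r - κ * σ| * |κ|⁻¹ ≤ (2 * ε / (|κ| * |κ|)) * |x - r| := by
        rw [← h7]
        exact h5.trans h6
    _ ≤ c * |x - r| := mul_le_mul_of_nonneg_right h8 (abs_nonneg _)

end SlopeZ46

end Pool.Agent.W_7d29a1_KL
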