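import Pool.Agent.W_7d29a1_KL.KpzL46
import Pool.Agent.W_7d29a1_KL.SlopeZ46

/-!
The relation of the exponents of one component of the polymer at almost every slope of every line:
assembly.
-/

namespace Pool.Agent.W_7d29a1_KL

open MeasureTheory ProbabilityTheory Filter Topology Pool.Agent.W_MP_7d29a1_pr
  Pool.Agent.W_7d29a1_h46 Pool.Agent.W_7d29a1_h46u Pool.Agent.W_7d29a1_D2 Pool.Agent.W_7d29a1_V
  Pool.Agent.W_7d29a1_VT Pool.Agent.W_7d29a1_KL.SlopeZ46

/-- From almost every point to almost every slope: a property `P r s` which holds at almost every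
point `r` with some slope `s` of support where the function is not flat to second order, holds at
almost every slope `s` at every point with the slope `s` where the curvature is not infinite. -/
theorem ae_slope {f : ℝ → ℝ} (hf : ConvexOn ℝ Set.univ f) {P : ℝ → ℝ → Prop}
    (H : ∀ᵐ r : ℝ, ∃ s : ℝ, Slp f r s ∧
      ((∀ ε : ℝ, 0 < ε → ∃ δ : ℝ, 0 < δ ∧ ∀ t : ℝ, |t| ≤ δ →
        f (r + t) - f r - s * t ≤ ε * t ^ 2) ∨ P r s)) :
    ∀ᵐ s : ℝ, ∀ r : ℝ, Slp f r s →
      (∀ C : ℝ, ∃ δ : ℝ, 0 < δ ∧ ∀ t : ℝ, |t| ≤ δ → C * t ^ 2 ≤ f (r + t) - f r - s * t) ∨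
        P r s := by
  obtain ⟨G, hG⟩ : ∃ G : ℝ → ℝ, G = PeanoG f := ⟨_, rfl⟩
  obtain ⟨N, hN⟩ : ∃ N : Set ℝ, N = {r | ¬ ∃ s : ℝ, Slp f r s ∧
      ((∀ ε : ℝ, 0 < ε → ∃ δ : ℝ, 0 < δ ∧ ∀ t : ℝ, |t| ≤ δ →
        f (r + t) - f r - s * t ≤ ε * t ^ 2) ∨ P r s)} ∩ {r | DifferentiableAt ℝ G r} := ⟨_, rfl⟩
  have hN0 : volume N = 0 := by
    rw [hN]
    refine measure_mono_null Set.inter_subset_left ?_
    exact H
  have hdiff : DifferentiableOn ℝ G N := by
    intro r hr
    rw [hN] at hr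
    exact (hr.2 : DifferentiableAt ℝ G r).differentiableWithinAt
  have himg : volume (G '' N) = 0 :=
    addHaar_image_eq_zero_of_differentiableOn_of_addHaar_eq_zero volume hdiff hN0
  have hae : ∀ᵐ s : ℝ, s ∉ G '' N := measure_eq_zero_iff_ae_notMem.1 himg
  filter_upwards [hae, leafZ46 f hf] with s hs hZ r hr
  obtain ⟨κ, hκ⟩ := hZ r hr
  rcases eq_or_ne κ 0 with h0 | h0
  · left
    rw [h0] at hκ
    exact inf_curv hf hr hκ
  · right
    obtain ⟨hGr, hGd⟩ := hasDeriv_G hf hr hκ h0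
    rw [← hG] at hGr hGd
    have hrN : r ∉ N := by
      intro hcon
      exact hs ⟨r, hcon, hGr⟩
    have hex : ∃ s : ℝ, Slp f r s ∧
        ((∀ ε : ℝ, 0 < ε → ∃ δ : ℝ, 0 < δ ∧ ∀ t : ℝ, |t| ≤ δ →
          f (r + t) - f r - s * t ≤ ε * t ^ 2) ∨ P r s) := by
      by_contra hcon
      refine hrN ?_
      rw [hN]
      exact ⟨hcon, hGd.differentiableAt⟩
    obtain ⟨s', hs', hor⟩ := hex
    -- the slope is unique
    have huniq : s' = s := by
      by_contra hne
      obtain ⟨v, hv⟩ : ∃ v : ℝ, v = |s' - s| := ⟨_, rfl⟩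
      have hv0 : 0 < v := by
        rw [hv]
        exact abs_pos.2 (sub_ne_zero.2 hne)
      have hκ0 : 0 < |κ| := abs_pos.2 h0
      obtain ⟨δ, hδ, H⟩ := hκ (|κ| / 2) (by positivity)
      obtain ⟨θ, hθ⟩ : ∃ θ : ℝ, θ = min 1 (δ / v) := ⟨_, rfl⟩
      have hθ0 : 0 < θ := by
        rw [hθ]
        exact lt_min one_pos (by positivity)
      have hθ1 : θ ≤ 1 := by
        rw [hθ]
        exact min_le_left _ _
      have hθ2 : θ * v ≤ δ := by
        have : θ ≤ δ / v := by
          rw [hθ]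
          exact min_le_right _ _
        rwa [le_div_iff₀ hv0] at this
      have hsl : Slp f r (s + θ * (s' - s)) := by
        intro t
        have g1 := hr t
        have g2 := hs' t
        nlinarith
      have g3 : |s + θ * (s' - s) - s| = θ * v := by
        rw [add_sub_cancel_left, abs_mul, abs_of_pos hθ0, ← hv]
      have g4 := H r _ hsl (by rw [g3]; exact hθ2)
      rw [g3, sub_self, zero_sub, abs_neg, abs_mul, g3] at g4
      have g5 : 0 < θ * v := by positivity
      nlinarith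
    rw [huniq] at hs' hor
    rcases hor with hfl | hP
    · -- flat to second order: impossible
      exfalso
      have hκ0 : 0 < |κ| := abs_pos.2 h0
      obtain ⟨δ, hδ, H⟩ := hκ 1 one_pos
      obtain ⟨δ', hδ', H'⟩ := hfl (1 / (8 * (|κ| + 1))) (by positivity)
      have hK : 0 < |κ| + 1 := by positivity
      obtain ⟨t, ht⟩ : ∃ t : ℝ, t = min δ' (2 * ((|κ| + 1) * δ)) := ⟨_, rfl⟩
      have ht0 : 0 < t := by
        rw [ht]
        exact lt_min hδ' (by positivity)
      have ht1 : t ≤ δ' := by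
        rw [ht]
        exact min_le_left _ _
      have ht2 : t ≤ 2 * ((|κ| + 1) * δ) := by
        rw [ht]
        exact min_le_right _ _
      obtain ⟨y, hy⟩ : ∃ y : ℝ, y = t / 2 := ⟨_, rfl⟩
      have hy0 : 0 < y := by
        rw [hy]
        positivity
      have hGy := slp_G hf (r + y)
      obtain ⟨σ, hσ⟩ : ∃ σ : ℝ, σ = PeanoG f (r + y) - s := ⟨_, rfl⟩
      have hσ0 : 0 ≤ y * σ := by
        have := slp_mono hs' hGy
        rwa [add_sub_cancel_left, ← hσ] at this
      have hσ1 : 0 ≤ σ := by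
        by_contra hcon
        have := mul_neg_of_pos_of_neg hy0 (not_le.1 hcon)
        linarith
      have h1 : y ≤ (|κ| + 1) * σ := by
        rcases le_or_gt σ δ with h2 | h2
        · have h3 := H (r + y) (PeanoG f (r + y)) hGy (by rw [← hσ, abs_of_nonneg hσ1]; exact h2)
          rw [← hσ, add_sub_cancel_left, abs_of_nonneg hσ1, one_mul] at h3
          have h4 := (abs_le.1 h3).2
          have h5 : κ * σ ≤ |κ| * σ := mul_le_mul_of_nonneg_right (le_abs_self κ) hσ1
          linarith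
        · have h3 : (|κ| + 1) * δ ≤ (|κ| + 1) * σ := mul_le_mul_of_nonneg_left h2.le hK.le
          linarith
      have h4 := hGy y
      have h5 := hs' y
      have e1 : r + y + y = r + t := by
        rw [hy]
        ring
      rw [e1] at h4
      have h6 : y * σ ≤ f (r + t) - f r - s * t := by
        have e2 : s * t = 2 * (s * y) := by
          rw [hy]
          ring
        have e3 : y * σ = PeanoG f (r + y) * y - s * y := by
          rw [hσ]
          ring
        rw [e3, e2]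
        linarith
      have h7 := H' t (by rw [abs_of_pos ht0]; exact ht1)
      have h8 : t ^ 2 = 4 * (y * y) := by
        rw [hy]
        ring
      rw [h8] at h7
      have h9 : 1 / (8 * (|κ| + 1)) * (4 * (y * y)) = (y * y) / (2 * (|κ| + 1)) := by
        field_simp
        ring
      rw [h9] at h7
      have h10 : y * y ≤ y * ((|κ| + 1) * σ) := mul_le_mul_of_nonneg_left h1 hy0.le
      have h11 : y * σ ≤ (y * y) / (2 * (|κ| + 1)) := h6.trans h7
      rw [le_div_iff₀ (by positivity)] at h11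
      have h12 : 0 < y * y := by positivity
      nlinarith
    · exact hP

variable {d : ℕ} {ρ : Measure ℝ} [IsProbabilityMeasure ρ] {β : ℝ} {Ω : Type*} [MeasurableSpace Ω]
  {μ : Measure Ω} [IsProbabilityMeasure μ] {ω : ℕ × Site d → Ω → ℝ}

/-- **The relation of the exponents of one component at almost every slope of every line**, from the
leaves. -/
theorem kpzS_of (hd : 0 < d) (hω : IID μ ρ ω) (hρ : EM ρ) (hA : LeafA d ρ β) (hD : LeafD d ρ β)
    (hE : LeafE d ρ β) (hS : LeafS d ρ β) (h0 : Vec d) {u : Vec d} (hu : u ≠ 0) :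
    ∀ᵐ s : ℝ, ∀ r : ℝ,
      (∀ t : ℝ, lam ρ β (h0 + r • u) + s * t ≤ lam ρ β (h0 + r • u + t • u)) →
      1 / 2 ≤ nuL μ β ω (h0 + r • u) u s ∧
      ((∀ C : ℝ, ∃ δ : ℝ, 0 < δ ∧ ∀ t : ℝ, |t| ≤ δ →
          C * t ^ 2 ≤ lam ρ β (h0 + r • u + t • u) - lam ρ β (h0 + r • u) - s * t) ∨
        (nuL μ β ω (h0 + r • u) u s ≤ 2 / 3 ∧
          chiF μ β ω (h0 + r • u) = 2 * nuL μ β ω (h0 + r • u) u s - 1)) := by
  have hconv := lam_convex (ρ := ρ) hd hρ β
  have e : ∀ r t : ℝ, h0 + (r + t) • u = h0 + r • u + t • u := by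
    intro r t
    rw [add_smul, add_assoc]
  have key := ae_slope (convex_line hconv h0 u) (P := fun r s =>
    nuL μ β ω (h0 + r • u) u s ≤ 2 / 3 ∧
      chiF μ β ω (h0 + r • u) = 2 * nuL μ β ω (h0 + r • u) u s - 1) (by
    filter_upwards [kpzL_of (μ := μ) (ω := ω) hd hω hρ hA hD hE h0 hu] with r hr
    obtain ⟨s, h1, h2, h3, h4⟩ := hr
    refine ⟨s, fun t => ?_, ?_⟩
    · simp only [e]
      exact h1 t
    · rcases h4 with h4 | h4
      · left
        simp only [e]
        exact h4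
      · right
        exact ⟨h2, h4.2⟩)
  filter_upwards [key, hS h0 u hu] with s h1 h2 r hr
  refine ⟨?_, ?_⟩
  · by_contra hcon
    obtain ⟨a, ha, ha2⟩ := exists_lt_of_csInf_lt
      ⟨2, two_mem_nuSetL (β := β) hd hω (h0 + r • u) u s⟩
      (show sInf (nuSetL μ β ω (h0 + r • u) u s) < 1 / 2 from not_le.1 hcon)
    obtain ⟨ha0, hT⟩ := (mem_nuSetL hω (h0 + r • u) u s a).1 ha
    exact h2 r a hr ha0 ha2 hT
  · have h3 := h1 r (fun t => by
      simp only [e]
      exact hr t)
    simp only [e] at h3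
    exact h3

end Pool.Agent.W_7d29a1_KL
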