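import Pool.Agent.W_7d29a1_KL.DefsS46
import Pool.Agent.W_7d29a1_KL.EK99

/-!
Leaf S: at almost every slope of a line the exponent of the component is at least one half, at
every tilt of the line with this slope.
-/

namespace Pool.Agent.W_7d29a1_KL.LeafS21

open MeasureTheory ProbabilityTheory Filter Topology Metric Pool.Agent.W_MP_7d29a1_pr
  Pool.Agent.W_7d29a1_h46 Pool.Agent.W_7d29a1_h46u Pool.Agent.W_7d29a1_D2 Pool.Agent.W_7d29a1_V
  Pool.Agent.W_7d29a1_VT Pool.Agent.W_7d29a1_KL.EK99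

variable {d : ℕ} {ρ : Measure ℝ} {β : ℝ}

/-- Two likely slabs with distant speeds, the second tilt to the right of the first or equal. -/
theorem two_slabs21 (hd : 0 < d) {n : ℕ} {h u : Vec d} {z s s' r : ℝ} {η : Env d} (hz : 0 ≤ z)
    (hr : 0 < r) (hfar : 8 * r ≤ n * (s' - s)) (h1 : 1 - 1 / 8 ≤ PolT β h η (slb d n u s r))
    (h2 : 1 - 1 / 8 ≤ PolT β (h + z • u) η (slb d n u s' r)) : 4 / 5 ≤ n * z * (s' - s) := by
  rcases hz.eq_or_lt with h0 | h0
  · exfalso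
    subst h0
    rw [zero_smul, add_zero] at h2
    have hdis : Disjoint (slb d n u s r) (slb d n u s' r) := by
      rw [Set.disjoint_left]
      intro q hq hq'
      have a1 := abs_le.1 (hq n le_rfl)
      have a2 := abs_le.1 (hq' n le_rfl)
      have a3 : (n : ℝ) * (s' - s) = n * s' - n * s := by ring
      linarith [a1.2, a2.1]
    obtain ⟨-, -, h3⟩ := compare hd (A := 0) (A' := 0) (by norm_num) le_rfl hdis h1 h2
      (fun q _ => by simp) (fun q _ => by simp)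
    linarith
  · exact two_slabs hd h0 hr hfar h1 h2

/-- The two slabs are likely in a common environment. -/
lemma two_ps21 [IsProbabilityMeasure ρ] (hd : 0 < d) {n m : ℕ} (hn : 0 < n) (hmn : m ≤ n)
    {h u : Vec d} {z s s' a : ℝ} (hz : 0 ≤ z) (hfar : 8 * (n : ℝ) ^ a ≤ n * (s' - s))
    (hP : Ps ρ β h u s a m) (hP' : Ps ρ β (h + z • u) u s' a m) :
    4 / 5 ≤ n * z * (s' - s) := by
  obtain ⟨η, h1, h2⟩ : ∃ η : Env d, 1 - 1 / 8 ≤ PolT β h η (slb d n u s ((n : ℝ) ^ a)) ∧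
      1 - 1 / 8 ≤ PolT β (h + z • u) η (slb d n u s' ((n : ℝ) ^ a)) := by
    by_contra hcon
    push Not at hcon
    have h1 : {η | ¬ (1 - 1 / 8 ≤ PolT β h η (slb d n u s ((n : ℝ) ^ a)))} ∪
        {η | ¬ (1 - 1 / 8 ≤ PolT β (h + z • u) η (slb d n u s' ((n : ℝ) ^ a)))} = Set.univ := by
      ext η
      simp only [Set.mem_union, Set.mem_univ, iff_true]
      by_cases hx : 1 - 1 / 8 ≤ PolT β h η (slb d n u s ((n : ℝ) ^ a))
      · exact Or.inr (not_le.2 (hcon η hx))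
      · exact Or.inl hx
    have h2 := measureReal_union_le (μ := law d ρ)
      {η | ¬ (1 - 1 / 8 ≤ PolT β h η (slb d n u s ((n : ℝ) ^ a)))}
      {η | ¬ (1 - 1 / 8 ≤ PolT β (h + z • u) η (slb d n u s' ((n : ℝ) ^ a)))}
    rw [h1, probReal_univ] at h2
    linarith [hP n hmn hn, hP' n hmn hn]
  exact two_slabs21 hd hz (Real.rpow_pos_of_pos (by exact_mod_cast hn) a) hfar h1 h2

/-- The supports of larger slopes are to the right. -/
lemma slp_mono {f : ℝ → ℝ} {r s r' s' : ℝ} (h : Slp f r s) (h' : Slp f r' s') (hs : s < s') :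
    r ≤ r' := by
  by_contra hcon
  push Not at hcon
  have h1 := h (r' - r)
  have h2 := h' (r - r')
  rw [show r + (r' - r) = r' by ring] at h1
  rw [show r' + (r - r') = r by ring] at h2
  nlinarith

/-- The slopes of the line with a likely slab. -/
def Ss (ρ : Measure ℝ) (β : ℝ) (h0 u : Vec d) (a : ℝ) (m : ℕ) : Set ℝ :=
  {s | ∃ r : ℝ, Slp (fun t => lam ρ β (h0 + t • u)) r s ∧ Ps ρ β (h0 + r • u) u s a m}

/-- Leaf S. -/
theorem leafS21 [IsProbabilityMeasure ρ] (hd : 0 < d) (hρ : EM ρ) (β : ℝ) (hZ : LeafZ) :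
    LeafS d ρ β := by
  intro h0 u hu
  set f : ℝ → ℝ := fun r => lam ρ β (h0 + r • u) with hf
  have hL : ConvexOn ℝ Set.univ (lam (d := d) ρ β) := lam_convex hd hρ β
  have hfc : ConvexOn ℝ Set.univ f := by
    refine ⟨convex_univ, fun x _ y _ a b ha hb hab => ?_⟩
    have h1 := hL.2 (Set.mem_univ (h0 + x • u)) (Set.mem_univ (h0 + y • u)) ha hb hab
    have h2 : a • (h0 + x • u) + b • (h0 + y • u) = h0 + (a • x + b • y) • u := by
      have : h0 = (a + b) • h0 := by rw [hab, one_smul]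
      nth_rewrite 3 [this]
      simp only [smul_add, add_smul, smul_smul, smul_eq_mul]
      abel
    rw [h2] at h1
    exact h1
  have key : ∀ᵐ s : ℝ, ∀ (q : ℚ) (m : ℕ), s ∈ Ss ρ β h0 u (q : ℝ) m →
      ∀ ε : ℝ, 0 < ε → ∃ s0 : ℝ, 0 < s0 ∧ ∀ t : ℝ, 0 < |t| → |t| ≤ s0 →
        ∃ k ∈ Ss ρ β h0 u (q : ℝ) m, |k - (s + t)| ≤ ε * |t| :=
    ae_all_iff.2 fun q => ae_all_iff.2 fun m => ae_densR _
  filter_upwards [key, hZ f hfc] with s hh hZs r a hsup ha0 ha1 hS
  have e1 : ∀ r t : ℝ, h0 + r • u + t • u = h0 + (r + t) • u := fun r t => by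
    rw [add_smul, add_assoc]
  have hsl : Slp f r s := fun t => by
    have := hsup t
    rwa [e1] at this
  obtain ⟨κ, hκ⟩ := hZs r hsl
  obtain ⟨δ, hδ, hκ⟩ := hκ 1 one_pos
  obtain ⟨q, hq1, hq2⟩ := exists_rat_btwn ha1
  obtain ⟨m, hm⟩ := ps_of_sbF hq1.le hS
  have hr : s ∈ Ss ρ β h0 u (q : ℝ) m := ⟨r, hsl, hm⟩
  obtain ⟨s0, hs0, hden⟩ := hh q m hr (1 / 2) (by norm_num)
  set B : ℝ := |κ| + 1 with hB
  have hBp : 0 < B := by positivity
  obtain ⟨s1, hs1, hsc⟩ := NuH99.scale_of (a := (q : ℝ)) (c := 2) (B := 9 / 4 * B)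
    (ha0.trans hq1) hq2 two_pos (by positivity) (m + 1)
  set t : ℝ := min (min s0 s1) (δ / 2) with ht
  have ht0 : 0 < t := by positivity
  have hts0 : t ≤ s0 := (min_le_left _ _).trans (min_le_left _ _)
  have hts1 : t ≤ s1 := (min_le_left _ _).trans (min_le_right _ _)
  have htδ : t ≤ δ / 2 := min_le_right _ _
  have habs : |t| = t := abs_of_pos ht0
  obtain ⟨k, ⟨r', hr', hPk⟩, hk⟩ := hden t (by rw [habs]; exact ht0) (by rw [habs]; exact hts0)
  obtain ⟨n, hmn, hn, hfar, hsmall⟩ := hsc t ht0 hts1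
  rw [habs] at hk
  have hk' := abs_le.1 hk
  have hk1 : t / 2 ≤ k - s := by linarith [hk'.1]
  have hk2 : k - s ≤ 3 / 2 * t := by linarith [hk'.2]
  have hk0 : 0 < k - s := by linarith
  have hrr : r ≤ r' := slp_mono hsl hr' (by linarith)
  have hd1 := hκ r' k hr' (by rw [abs_of_pos hk0]; linarith)
  rw [abs_of_pos hk0, one_mul] at hd1
  have hd2 : r' - r ≤ B * (k - s) := by
    have a1 := (abs_le.1 hd1).2
    have a2 : κ * (k - s) ≤ |κ| * (k - s) := mul_le_mul_of_nonneg_right (le_abs_self κ) hk0.le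
    rw [hB]
    linarith
  have hn0 : (0 : ℝ) < n := by exact_mod_cast hn
  have hfar' : 8 * (n : ℝ) ^ (q : ℝ) ≤ n * (k - s) := by
    refine hfar.trans (mul_le_mul_of_nonneg_left ?_ hn0.le)
    linarith
  have hPk' : Ps ρ β (h0 + r • u + (r' - r) • u) u k q m := by
    rw [e1, show r + (r' - r) = r' by ring]
    exact hPk
  have h5 := two_ps21 hd hn (by omega : m ≤ n) (sub_nonneg.2 hrr) hfar' hm hPk'
  have h6 : n * (r' - r) * (k - s) ≤ 9 / 4 * B * (n * t ^ 2) := by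
    have a1 : (r' - r) * (k - s) ≤ B * (k - s) * (k - s) :=
      mul_le_mul_of_nonneg_right hd2 hk0.le
    have a2 : (k - s) * (k - s) ≤ (3 / 2 * t) * (3 / 2 * t) :=
      mul_le_mul hk2 hk2 hk0.le (by positivity)
    have a3 : B * ((k - s) * (k - s)) ≤ B * ((3 / 2 * t) * (3 / 2 * t)) :=
      mul_le_mul_of_nonneg_left a2 hBp.le
    calc n * (r' - r) * (k - s) = n * ((r' - r) * (k - s)) := by ring
      _ ≤ n * (B * ((3 / 2 * t) * (3 / 2 * t))) :=
        mul_le_mul_of_nonneg_left (by linarith) hn0.le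
      _ = 9 / 4 * B * (n * t ^ 2) := by ring
  linarith

end Pool.Agent.W_7d29a1_KL.LeafS21
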