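import Pool.Agent.W_7d29a1_h3.CheapA
import Pool.Agent.W_7d29a1_KL.UpLo46

/-!
Every number smaller in absolute value than a component of `u` is a slope of the free energy on every
line in the direction `u`.
-/

namespace Pool.Agent.W_7d29a1_KL.SlEx46

open MeasureTheory ProbabilityTheory Filter Topology Pool.Agent.W_MP_7d29a1_pr
  Pool.Agent.W_7d29a1_h46 Pool.Agent.W_7d29a1_h46u Pool.Agent.W_7d29a1_h3

variable {d : ℕ} {ρ : Measure ℝ} [IsProbabilityMeasure ρ]

/-- Averaging over the sign changes of the coordinates outside a set. -/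
private theorem CheapA_avg (j0 : Fin d) (hρ : EM ρ) (β : ℝ) (h : Vec d) (e : Fin d → Bool) :
    lam ρ β ((1 / 2 : ℝ) • h + (1 / 2 : ℝ) • vAct (Equiv.refl _) e h) ≤ lam ρ β h := by
  have h1 := (lam_convex (ρ := ρ) (Fin.pos j0) hρ β).2 (Set.mem_univ h)
    (Set.mem_univ (vAct (Equiv.refl _) e h)) (by norm_num : (0 : ℝ) ≤ 1 / 2)
    (by norm_num : (0 : ℝ) ≤ 1 / 2) (by norm_num)
  simp only [lam_act, smul_eq_mul] at h1
  linarith

private theorem CheapA_one (j0 : Fin d) (hρ : EM ρ) (β : ℝ) (h : Vec d) (i : Fin d) :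
    lam ρ β ((h i) • ej i) ≤ lam ρ β h := by
  have h1 := CheapA_avg j0 hρ β h (fun j => decide (j = i))
  have h2 : (1 / 2 : ℝ) • h + (1 / 2 : ℝ) • vAct (Equiv.refl _) (fun j => decide (j = i)) h =
      (h i) • ej i := by
    ext k
    by_cases hk : k = i
    · subst hk
      simp [vAct, ej]
      ring
    · simp [vAct, ej, hk]
  rwa [h2] at h1

private theorem CheapA_axis (β t : ℝ) (j j' : Fin d) :
    lam ρ β (t • ej j) = lam ρ β (t • ej j') := by
  obtain ⟨τ, e, h⟩ := tl_act t j j' true true
  have h1 := lam_act (ρ := ρ) (β := β) τ e (tl t j true)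
  rw [h] at h1
  simp only [tl, if_true] at h1
  exact h1.symm

private theorem CheapA_neg (β t : ℝ) (j : Fin d) :
    lam ρ β ((-t) • ej j) = lam ρ β (t • ej j) := by
  obtain ⟨τ, e, h⟩ := tl_act t j j true false
  have h1 := lam_act (ρ := ρ) (β := β) τ e (tl t j true)
  rw [h] at h1
  simp only [tl, if_true, Bool.false_eq_true, if_false] at h1
  exact h1

private theorem CheapA_grow (j : Fin d) (hρ : EM ρ) (β t : ℝ) :
    t + β * ∫ x, x ∂ρ ≤ lam ρ β (t • ej j) := by
  have hd := Fin.pos j
  have h1 := A_le_lam (ρ := ρ) hd hρ β (t • ej j) 1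
  rw [Nat.cast_one, one_mul] at h1
  refine le_trans ?_ h1
  have hi : Integrable (fun x : ℝ => x) ρ := by
    refine ((hρ 1).add (hρ (-1))).mono' measurable_id.aestronglyMeasurable
      (Filter.Eventually.of_forall fun x => ?_)
    rw [Real.norm_eq_abs]
    simp only [Pi.add_apply, one_mul, neg_mul]
    have e1 := Real.add_one_le_exp x
    have e2 := Real.add_one_le_exp (-x)
    have e3 := Real.exp_pos x
    have e4 := Real.exp_pos (-x)
    rcases abs_cases x with ⟨h, -⟩ | ⟨h, -⟩ <;> rw [h] <;> linarith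
  have hmp : MeasurePreserving (fun η : Env d => η (1, Pi.single j 1)) (law d ρ) ρ := by
    refine ⟨measurable_pi_apply _, ?_⟩
    exact Measure.infinitePi_map_eval (μ := fun _ : ℕ × Site d => ρ) (1, Pi.single j 1)
  have hi2 : Integrable (fun η : Env d => η (1, Pi.single j 1)) (law d ρ) :=
    (hmp.integrable_comp measurable_id.aestronglyMeasurable).2 hi
  have hi3 : ∫ η : Env d, η (1, Pi.single j 1) ∂(law d ρ) = ∫ x, x ∂ρ :=
    LawU_integral hmp (F := fun x : ℝ => x) measurable_id.aestronglyMeasurable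
  have h2 : ∀ η : Env d, t + β * η (1, Pi.single j 1) ≤ X β (t • ej j) η 1 := by
    intro η
    have hZ := Z_pos hd β (t • ej j) η 1
    rw [X, Real.le_log_iff_exp_le hZ, Z_eq]
    have h3 : wgt β (t • ej j) η (fun _ : Fin 1 => (j, true)) =
        Real.exp (t + β * η (1, Pi.single j 1)) := by
      unfold wgt
      congr 1
      have e1 : pos (fun _ : Fin 1 => (j, true)) 1 = (Pi.single j 1 : Site d) := by
        simp [pos, vec]
      have e2 : energy η (fun _ : Fin 1 => (j, true)) = η (1, Pi.single j 1) := by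
        unfold energy
        rw [Fin.sum_univ_one]
        simp [e1]
      have e3 : inner ℝ (t • ej j) (emb (Pi.single j 1 : Site d)) = t := by
        rw [real_inner_smul_left]
        have e4 : inner ℝ (ej j) (emb (Pi.single j 1 : Site d)) = (1 : ℝ) := by
          unfold ej emb
          rw [EuclideanSpace.inner_single_left]
          simp
        rw [e4, mul_one]
      rw [e1, e2, e3]
    rw [← h3]
    exact Finset.single_le_sum (f := fun s => wgt β (t • ej j) η s)
      (fun s _ => (wgt_pos β (t • ej j) η s).le) (Finset.mem_univ _)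
  have h4 := integral_mono ((integrable_const t).add (hi2.const_mul β)) (concU hd hρ β (t • ej j) 1).1 h2
  have h5 : ∫ η : Env d, (t + β * η (1, Pi.single j 1)) ∂(law d ρ) = t + β * ∫ x, x ∂ρ := by
    rw [integral_add (integrable_const t) (hi2.const_mul β), integral_const_mul, hi3]
    simp
  rw [← h5]
  exact h4

/-- The linear growth of the free energy. -/
theorem lam_grow46 (hρ : EM ρ) (β : ℝ) (h : Vec d) (k : Fin d) :
    |h k| + β * ∫ x, x ∂ρ ≤ lam ρ β h := by
  have h1 := CheapA_one k hρ β h k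
  have h2 : lam ρ β ((|h k|) • (ej k : Vec d)) = lam ρ β ((h k) • ej k) := by
    rcases abs_cases (h k) with ⟨h3, -⟩ | ⟨h3, -⟩
    · rw [h3]
    · rw [h3, CheapA_neg]
  have h3 := CheapA_grow k hρ β |h k|
  rw [h2] at h3
  exact h3.trans h1

end SlEx46

open SlEx46 MeasureTheory ProbabilityTheory Filter Topology Pool.Agent.W_MP_7d29a1_pr
  Pool.Agent.W_7d29a1_h46 Pool.Agent.W_7d29a1_h46u Pool.Agent.W_7d29a1_h3

/-- Every number smaller in absolute value than a component of `u` is a slope. -/
theorem slope_ex46 {d : ℕ} {ρ : Measure ℝ} [IsProbabilityMeasure ρ] (hd : 0 < d) (hρ : EM ρ) (β : ℝ)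
    (h u : Vec d) (k : Fin d) {s : ℝ} (hs : |s| < |u k|) :
    ∃ r : ℝ, ∀ t : ℝ, lam ρ β (h + r • u) + s * t ≤ lam ρ β (h + r • u + t • u) := by
  have hL := lam_convex (ρ := ρ) hd hρ β
  have hc : Continuous (lam ρ β : Vec d → ℝ) := hL.locallyLipschitz.continuous
  have hf : Continuous fun r : ℝ => lam ρ β (h + r • u) - s * r := by fun_prop
  have hT : Tendsto (fun r : ℝ => lam ρ β (h + r • u) - s * r) (cocompact ℝ) atTop := by
    have h1 : Tendsto (fun r : ℝ => (|u k| - |s|) * ‖r‖ + (β * ∫ x, x ∂ρ - |h k|))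
        (cocompact ℝ) atTop :=
      tendsto_atTop_add_const_right _ _
        ((tendsto_norm_cocompact_atTop (E := ℝ)).const_mul_atTop (by linarith))
    refine tendsto_atTop_mono (fun r => ?_) h1
    have h2 := lam_grow46 hρ β (h + r • u) k
    have h3 : (h + r • u) k = h k + r * u k := by
      simp
    rw [h3] at h2
    have h4 : |r| * |u k| - |h k| ≤ |h k + r * u k| := by
      have := abs_sub_abs_le_abs_sub (r * u k) (-(h k))
      rw [abs_mul, abs_neg, sub_neg_eq_add, add_comm] at this
      linarith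
    have h5 : s * r ≤ |s| * |r| := by
      rw [← abs_mul]
      exact le_abs_self _
    rw [Real.norm_eq_abs]
    nlinarith
  obtain ⟨r, hr⟩ := hf.exists_forall_le hT
  refine ⟨r, fun t => ?_⟩
  have h1 := hr (r + t)
  have h2 : h + (r + t) • u = h + r • u + t • u := by
    rw [add_smul, add_assoc]
  simp only [h2] at h1
  linarith

end Pool.Agent.W_7d29a1_KL
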