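import Pool.Agent.W_7d29a1_KL.FinP46
import Pool.Agent.W_7d29a1_KL.KpzS46
import Pool.Agent.W_7d29a1_KL.LeafS21
import Pool.Agent.W_7d29a1_KL.SlEx46

/-!
The scaling exponents in every dimension: the final theorem, with the exponents of one component of
the polymer at almost every slope of every line.
-/

namespace Pool.Agent.W_7d29a1_KL

open MeasureTheory ProbabilityTheory Filter Topology Pool.Agent.W_MP_7d29a1_pr
  Pool.Agent.W_7d29a1_h46 Pool.Agent.W_7d29a1_h46u Pool.Agent.W_7d29a1_D2 Pool.Agent.W_7d29a1_V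
  Pool.Agent.W_7d29a1_VT Pool.Agent.W_7d29a1_KL.SlopeZ46

/-- **The scaling exponents in every dimension: bounds, the relation at almost every tilt and, for
one component, at almost every tilt and almost every slope of every line of tilts, the growth of the
free energy and the exceptional tilts.** -/
theorem finalQ {d : ℕ} (hd : 1 ≤ d) {Ω : Type*} [MeasurableSpace Ω] (μ : Measure Ω)
    [IsProbabilityMeasure μ] (ω : ℕ × Site d → Ω → ℝ) (hmeas : ∀ p, Measurable (ω p))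
    (hindep : iIndepFun ω μ) (hident : ∀ p q, IdentDistrib (ω p) (ω q) μ μ)
    (hnc : ∀ p, ¬ ∃ c : ℝ, ∀ᵐ x ∂μ, ω p x = c)
    (hexp : ∀ (b : ℝ) p, Integrable (fun x => Real.exp (b * ω p x)) μ) {β : ℝ} (hβ : 0 < β) :
    -- the exponents of the problem
    2 * chi μ β ω ≤ nu μ β ω ∧ 1 / ((d : ℝ) + 1) ≤ nu μ β ω ∧
    1 ≤ d * nu μ β ω + 2 * chi μ β ω ∧ nuT μ β ω 0 0 = nu μ β ω ∧ chiT μ β ω 0 = chi μ β ω ∧
    ∃ L : Vec d → ℝ,
      -- the free energy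
      (∀ h, ∀ᵐ x ∂μ, Tendsto (fun n : ℕ =>
        Real.log (Zn β h (fun p => ω p x) n) / n) atTop (𝓝 (L h))) ∧
      ConvexOn ℝ Set.univ L ∧
      -- every tilt `h`, every direction `v`
      (∀ h v : Vec d, 2 * chiT μ β ω h ≤ nuT μ β ω h v ∧
        (∀ x : ℝ, nuT μ β ω h v / 2 < x → ∀ᶠ n : ℕ in atTop,
          Var[fun y => Real.log (Zn β h (fun p => ω p y) n); μ] ≤ (n : ℝ) ^ (2 * x) ∧
          0 ≤ n * L h - ∫ y, Real.log (Zn β h (fun p => ω p y) n) ∂μ ∧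
          n * L h - ∫ y, Real.log (Zn β h (fun p => ω p y) n) ∂μ ≤ (n : ℝ) ^ x) ∧
        1 / ((d : ℝ) + 1) ≤ nuT μ β ω h v ∧ 1 ≤ d * nuT μ β ω h v + 2 * chiT μ β ω h ∧
        nuT μ β ω h v ≤ nuS μ β ω h v ∧ nuS μ β ω h v ≤ 1 ∧ chiT μ β ω h ≤ chiF μ β ω h ∧
        2 * chiF μ β ω h ≤ nuS μ β ω h v ∧ chiF μ β ω h ≤ chiS μ β ω h ∧
        chiS μ β ω h ≤ 1 / 2) ∧
      -- the growth exponent
      (∀ h v : Vec d, BddAbove {p : ℝ | 1 ≤ p ∧ UpG L h v p} ∧ 1 ≤ gam L h v ∧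
        gam L h v ≤ 2 * d + 1 ∧ nuS μ β ω h v ≤ 2 / (gam L h v + 1) ∧
        chiF μ β ω h ≤ 1 / (gam L h v + 1) ∧
        gam L h v * nuS μ β ω h v ≤ 1 + (gam L h v - 1) * chiS μ β ω h ∧
        (1 + (gam L h v - 1) * chiS μ β ω h) * chiT μ β ω h ≤
          gam L h v * nuS μ β ω h v * chiS μ β ω h ∧
        (chiT μ β ω h = chiS μ β ω h → 0 < chiS μ β ω h →
          gam L h v * nuS μ β ω h v = 1 + (gam L h v - 1) * chiS μ β ω h) ∧
        ∀ p : ℝ, (2 * (d : ℝ) + 1 < p → LoA L h v p) ∧ (1 ≤ p → LoA L h v p →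
          (1 + (p - 1) * chiS μ β ω h) * chiF μ β ω h ≤
            p * nuS μ β ω h v * chiS μ β ω h)) ∧
      -- one component of the polymer, every tilt
      (∀ h u v : Vec d, nuL μ β ω h u (inner ℝ u v) ≤ nuS μ β ω h v) ∧
      (∀ (h u : Vec d) (s : ℝ), u ≠ 0 → 2 * chiF μ β ω h ≤ nuL μ β ω h u s ∧
        ∀ p : ℝ, 1 < p →
          (SlU L h u s → UpU L h u s p →
            nuL μ β ω h u s ≤ 2 / (p + 1) ∧
            p * nuL μ β ω h u s ≤ 1 + (p - 1) * chiS μ β ω h) ∧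
          (LoU L h u s p → (1 + (p - 1) * chiS μ β ω h) * chiF μ β ω h ≤
            p * nuL μ β ω h u s * chiS μ β ω h)) ∧
      -- the tilt `0`
      (∀ ε : ℝ, 0 < ε → ∃ c : ℝ, 0 < c ∧ ∀ h : Vec d, ‖h‖ ≤ 1 →
        L 0 + c * ‖h‖ ^ (2 * (d : ℝ) + 1 + ε) ≤ L h) ∧
      -- almost every tilt
      (∀ᵐ h : Vec d, ∃ v : Vec d, (∀ k, L h + inner ℝ v k ≤ L (h + k)) ∧ UpG L h v 2 ∧
        nuS μ β ω h v ≤ 2 / 3 ∧ chiF μ β ω h ≤ 1 / 3 ∧ 2 * nuS μ β ω h v - 1 ≤ chiF μ β ω h ∧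
        ((∀ ε > 0, ∃ δ > 0, ∀ r : Vec d, ‖r‖ ≤ δ → gap L h v r ≤ ε * ‖r‖ ^ 2) ∨
          (1 / 2 ≤ nuT μ β ω h v ∧ chiF μ β ω h = 2 * nuS μ β ω h v - 1)) ∧
        gam L h v * nuS μ β ω h v ≤ 1 + (gam L h v - 1) * chiF μ β ω h ∧
        (1 + (gam L h v - 1) * chiF μ β ω h) * chiT μ β ω h ≤
          gam L h v * nuS μ β ω h v * chiF μ β ω h ∧
        ∀ p : ℝ, 1 ≤ p → LoA L h v p → (1 + (p - 1) * chiF μ β ω h) * chiF μ β ω h ≤
          p * nuS μ β ω h v * chiF μ β ω h) ∧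
      -- the exceptional tilts
      (∀ a : ℝ, 0 < a → a < 1 →
        dimH {h : Vec d | ¬ ∃ v : Vec d, nuS μ β ω h v ≤ a ∧ chiF μ β ω h ≤ a / 2} ≤
          ENNReal.ofReal (d - 3 + 2 / a) ∧
        dimH {h : Vec d | ¬ chiF μ β ω h ≤ a / 2} ≤ ENNReal.ofReal (d * (2 / a - 2))) ∧
      dimH {h : Vec d | ¬ chiF μ β ω h < 1 / 2} = 0 ∧
      -- one component of the polymer, every line of tilts
      (∀ h u : Vec d, u ≠ 0 →
        (∀ᵐ r : ℝ, ∃ s : ℝ, SlU L (ray h u r) u s ∧ nuL μ β ω (ray h u r) u s ≤ 2 / 3 ∧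
          2 * nuL μ β ω (ray h u r) u s - 1 ≤ chiF μ β ω (ray h u r) ∧
          (FlU L (ray h u r) u s ∨ (1 / 2 ≤ nuL μ β ω (ray h u r) u s ∧
            chiF μ β ω (ray h u r) = 2 * nuL μ β ω (ray h u r) u s - 1))) ∧
        (∀ᵐ s : ℝ, ((∃ k, |s| < |u k|) → ∃ r : ℝ, SlU L (ray h u r) u s) ∧
          ∀ r : ℝ, SlU L (ray h u r) u s → 1 / 2 ≤ nuL μ β ω (ray h u r) u s ∧
            (InU L (ray h u r) u s ∨ (nuL μ β ω (ray h u r) u s ≤ 2 / 3 ∧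
              chiF μ β ω (ray h u r) = 2 * nuL μ β ω (ray h u r) u s - 1))) ∧
        ∀ a : ℝ, 0 < a → a < 1 →
          dimH {r : ℝ | ¬ ∃ s : ℝ, nuL μ β ω (ray h u r) u s ≤ a} ≤
            ENNReal.ofReal (2 / a - 2)) ∧
      -- a dense set of tilts
      (∀ U : Set (Vec d), IsOpen U → U.Nonempty → ∃ h ∈ U, ∃ v : Vec d,
        (∀ k, L h + inner ℝ v k ≤ L (h + k)) ∧ UpG L h v 2 ∧ LoG L h v 2 ∧
        1 / 2 ≤ nuT μ β ω h v ∧ nuS μ β ω h v ≤ 2 / 3 ∧ chiF μ β ω h ≤ 1 / 3) ∧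
      -- generic tilts
      (∃ G : Set (Vec d), IsGδ G ∧ Dense G ∧ ∀ h ∈ G, chiF μ β ω h = chiS μ β ω h) := by
  have hd0 : 0 < d := hd
  set p0 : ℕ × Site d := (0, 0) with hp0
  set ρ : Measure ℝ := μ.map (ω p0) with hρdef
  have : IsProbabilityMeasure ρ := Measure.isProbabilityMeasure_map (hmeas p0).aemeasurable
  have hω : IID μ ρ ω := ⟨hmeas, hindep, fun p => (hident p p0).map_eq⟩
  have hρ : EM ρ := by
    intro b
    rw [hρdef, integrable_map_measure (by fun_prop) (hmeas p0).aemeasurable]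
    exact hexp b p0
  have hmp := mp_env hω
  have tr : ∀ {P : (ℕ × Site d → ℝ) → Prop}, (∀ᵐ η ∂(law d ρ), P η) →
      ∀ᵐ x ∂μ, P (fun p => ω p x) := fun hP => hmp.quasiMeasurePreserving.ae hP
  obtain ⟨a1, a2, a3, a4, a5, L, l1, lc, l2, l3, l4, l5, l6, l7, l8, l9, l10, l11, l12⟩ :=
    finalP hd μ ω hmeas hindep hident hnc hexp hβ
  have hL : ∀ h, L h = lam ρ β h - Real.log (2 * d) := by
    intro h
    have h1 : ∀ᵐ x ∂μ, Tendsto (fun n : ℕ =>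
        Real.log (Zn β h (fun p => ω p x) n) / n) atTop
          (𝓝 (lam ρ β h - Real.log (2 * d))) := by
      filter_upwards [tr (W_7d29a1_h3.ae_X hd0 hρ β h)] with x hx
      refine (hx.sub_const (Real.log (2 * d))).congr' ?_
      filter_upwards [eventually_ge_atTop 1] with n hn
      have hn0 : (n : ℝ) ≠ 0 := by
        have : (0 : ℝ) < n := by exact_mod_cast hn
        exact this.ne'
      rw [StrA_log hd0, Real.log_pow]
      field_simp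
    obtain ⟨x, hx1, hx2⟩ := ((l1 h).and h1).exists
    exact tendsto_nhds_unique hx1 hx2
  have hA : LeafA d ρ β := leafA74 hd0 hρ β
  have hD : LeafD d ρ β := leafD21 hd0 hρ β
  have hE : LeafE d ρ β := EK99.leafE99 hd0 hρ β
  have hS : LeafS d ρ β := LeafS21.leafS21 hd0 hρ β leafZ46
  have e : ∀ (h u : Vec d) (r t : ℝ), ray h u (r + t) = ray h u r + t • u := by
    intro h u r t
    unfold ray
    rw [add_smul, add_assoc]
  refine ⟨a1, a2, a3, a4, a5, L, l1, lc, l2, l3, l4,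
    fun h u s hu => ⟨(l5 h u s hu).1, (l5 h u s hu).2⟩, l6, l7, l8, l9,
    fun h u hu => ⟨?_, ?_, (l10 h u hu).2⟩, l11, l12⟩
  · filter_upwards [(l10 h u hu).1] with r hr
    obtain ⟨s, h1, h2, h3, h4⟩ := hr
    simp only [e] at h1 h4
    exact ⟨s, h1, h2, h3, h4⟩
  filter_upwards [kpzS_of (μ := μ) (ω := ω) hd0 hω hρ hA hD hE hS h hu] with s hs
  refine ⟨fun ⟨k, hk⟩ => ?_, fun r hr => ?_⟩
  · obtain ⟨r, hr⟩ := slope_ex46 hd0 hρ β h u k hk
    refine ⟨r, fun t => ?_⟩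
    rw [hL, hL]
    have := hr t
    unfold ray
    linarith
  obtain ⟨h1, h2⟩ := hs r (fun t => by
    have h3 := hr t
    rw [hL, hL] at h3
    unfold ray at h3
    linarith)
  refine ⟨h1, ?_⟩
  rcases h2 with h2 | h2
  · left
    intro C
    obtain ⟨δ, hδ, H⟩ := h2 C
    refine ⟨δ, hδ, fun t ht => ?_⟩
    rw [hL, hL]
    have := H t ht
    unfold ray
    linarith
  · right
    exact h2

end Pool.Agent.W_7d29a1_KL
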