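import Pool.Agent.W_7d29a1_D2.NuH99
import Pool.Agent.W_7d29a1_D2.AlJ60

/-!
Leaf V: at almost every velocity `v` and every tilt `h` with `v` in the subdifferential of the free
energy at `h`, the wandering exponent is at least one half.
-/

namespace Pool.Agent.W_7d29a1_KL.LeafV21

open MeasureTheory ProbabilityTheory Filter Topology Metric Pool.Agent.W_MP_7d29a1_pr
  Pool.Agent.W_7d29a1_h46 Pool.Agent.W_7d29a1_h46u Pool.Agent.W_7d29a1_D2
  Pool.Agent.W_7d29a1_D2.NuH99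

variable {d : ℕ}

/-- The tilts are near if the slopes are near. -/
theorem near_tilt {L : Vec d → ℝ} (hL : ConvexOn ℝ Set.univ L) {h v k w : Vec d} {c δ : ℝ}
    (hc : 0 < c) (hδ : 0 < δ)
    (hlow : ∀ r : Vec d, ‖r‖ ≤ δ → L h + inner ℝ v r + c * ‖r‖ ^ 2 ≤ L (h + r))
    (hw : ∀ r, 0 ≤ gap L k w r) (hwv : ‖w - v‖ < c * δ) : c * ‖k - h‖ ≤ ‖w - v‖ := by
  obtain ⟨z, hz⟩ : ∃ z : Vec d, z = k - h := ⟨_, rfl⟩
  have hkz : h + z = k := by rw [hz]; abel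
  rw [← hz]
  have h1 := hw (h - k)
  unfold gap at h1
  rw [show k + (h - k) = h by abel, show h - k = -z by rw [hz]; abel, inner_neg_right] at h1
  have h2 : inner ℝ (w - v) z ≤ ‖w - v‖ * ‖z‖ := real_inner_le_norm _ _
  have h3 : inner ℝ (w - v) z = inner ℝ w z - inner ℝ v z := inner_sub_left _ _ _
  rcases le_or_gt ‖z‖ δ with h4 | h4
  · have h5 := hlow z h4
    rw [hkz] at h5
    rcases (norm_nonneg z).eq_or_lt with h0 | h0
    · rw [← h0, mul_zero]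
      exact norm_nonneg _
    · have h6 : (c * ‖z‖) * ‖z‖ ≤ ‖w - v‖ * ‖z‖ := by nlinarith
      exact le_of_mul_le_mul_right h6 h0
  · exfalso
    have hz0 : 0 < ‖z‖ := hδ.trans h4
    obtain ⟨l, hl⟩ : ∃ l : ℝ, l = δ / ‖z‖ := ⟨_, rfl⟩
    have hl0 : 0 < l := by rw [hl]; positivity
    have hl1 : l ≤ 1 := by
      rw [hl, div_le_one hz0]
      exact h4.le
    have hlz : l * ‖z‖ = δ := by
      rw [hl]
      field_simp
    have h5 := hlow (l • z) (by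
      rw [norm_smul, Real.norm_eq_abs, abs_of_pos hl0, hlz])
    rw [norm_smul, Real.norm_eq_abs, abs_of_pos hl0, hlz, inner_smul_right] at h5
    have h6 := hL.2 (Set.mem_univ h) (Set.mem_univ k) (show (0 : ℝ) ≤ 1 - l by linarith) hl0.le
      (by ring)
    have h7 : (1 - l) • h + l • k = h + l • z := by
      rw [← hkz, smul_add, sub_smul, one_smul]
      abel
    rw [h7] at h6
    simp only [smul_eq_mul] at h6
    -- `c δ ^ 2 ≤ l (L k - L h - ⟨v, z⟩) ≤ l ⟨w - v, z⟩ ≤ ‖w - v‖ δ`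
    have h8 : c * δ ^ 2 ≤ l * (L k - L h - inner ℝ v z) := by linarith
    have h9 : L k - L h - inner ℝ v z ≤ ‖w - v‖ * ‖z‖ := by linarith
    have h10 : l * (L k - L h - inner ℝ v z) ≤ l * (‖w - v‖ * ‖z‖) :=
      mul_le_mul_of_nonneg_left h9 hl0.le
    have h11 : l * (‖w - v‖ * ‖z‖) = ‖w - v‖ * δ := by
      rw [← hlz]
      ring
    have h12 : (c * δ) * δ ≤ ‖w - v‖ * δ := by
      have : (c * δ) * δ = c * δ ^ 2 := by ring
      linarith
    have h13 := le_of_mul_le_mul_right h12 hδ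
    linarith

variable {Ω : Type*} [MeasurableSpace Ω] {μ : Measure Ω} [IsProbabilityMeasure μ]
  {ρ : Measure ℝ} [IsProbabilityMeasure ρ] {ω : ℕ × Site d → Ω → ℝ} {β : ℝ}

/-- The velocities with a tilt at which the tube is likely at all large times. -/
def Hv (L : Vec d → ℝ) (μ : Measure Ω) (β : ℝ) (ω : ℕ × Site d → Ω → ℝ) (a : ℝ) (m : ℕ) :
    Set (Vec d) :=
  {w | ∃ k, (∀ r, 0 ≤ gap L k w r) ∧ Pc μ β ω (1 / 8) a (m + 1) k w}

omit [IsProbabilityMeasure ρ] in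
/-- At a density point of `Hv` a quadratic lower bound contradicts a tube exponent below one
half. -/
theorem no_density21 (hd : 0 < d) {L : Vec d → ℝ} (hL : ConvexOn ℝ Set.univ L) {a : ℝ}
    (ha0 : 0 < a) (ha : a < 1 / 2) (m : ℕ) {h v : Vec d}
    (hden : ∀ ε : ℝ, 0 < ε → ∃ s0 : ℝ, 0 < s0 ∧ ∀ r : Vec d, 0 < ‖r‖ → ‖r‖ ≤ s0 →
      ∃ w ∈ Hv L μ β ω a m, ‖w - (v + r)‖ ≤ ε * ‖r‖)
    (hlo : ∃ c > 0, ∃ δ > 0, ∀ r : Vec d, ‖r‖ ≤ δ → L h + inner ℝ v r + c * ‖r‖ ^ 2 ≤ L (h + r))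
    (hP : Pc μ β ω (1 / 8) a (m + 1) h v) : False := by
  obtain ⟨c, hc, δ, hδ, hlo⟩ := hlo
  obtain ⟨s0, hs0, hden⟩ := hden (1 / 2) (by norm_num)
  obtain ⟨s1, hs1, hsc⟩ := scale_of (c := 2) (B := 9 / 4 / c) ha0 ha two_pos (by positivity)
    (m + 1)
  obtain ⟨s, hs⟩ : ∃ s : ℝ, s = min (min s0 s1) (c * δ / 2) := ⟨_, rfl⟩
  have hs' : 0 < s := by rw [hs]; positivity
  have hss0 : s ≤ s0 := by rw [hs]; exact (min_le_left _ _).trans (min_le_left _ _)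
  have hss1 : s ≤ s1 := by rw [hs]; exact (min_le_left _ _).trans (min_le_right _ _)
  have hssδ : s ≤ c * δ / 2 := by rw [hs]; exact min_le_right _ _
  obtain ⟨r, hr⟩ : ∃ r : Vec d, r = EuclideanSpace.single ⟨0, hd⟩ s := ⟨_, rfl⟩
  have hrn : ‖r‖ = s := by
    rw [hr, EuclideanSpace.norm_single, Real.norm_eq_abs, abs_of_pos hs']
  obtain ⟨w, ⟨k, hw, hPk⟩, hwr⟩ := hden r (by rw [hrn]; exact hs') (by rw [hrn]; exact hss0)
  obtain ⟨n, hmn, hn, hfar, hsmall⟩ := hsc s hs' hss1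
  rw [hrn] at hwr
  have e1 : w - v = (w - (v + r)) + r := by abel
  have h1 : ‖w - v‖ ≤ 3 / 2 * s := by
    rw [e1]
    refine (norm_add_le _ _).trans ?_
    rw [hrn]
    linarith
  have h2 : s / 2 ≤ ‖w - v‖ := by
    have h3 : ‖r‖ ≤ ‖w - v‖ + ‖w - (v + r)‖ := by
      have : r = (w - v) - (w - (v + r)) := by abel
      calc ‖r‖ = ‖(w - v) - (w - (v + r))‖ := by rw [← this]
        _ ≤ ‖w - v‖ + ‖w - (v + r)‖ := norm_sub_le _ _
    rw [hrn] at h3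
    linarith
  have hcδ : 0 < c * δ := by positivity
  have h4 := near_tilt hL hc hδ hlo hw (by linarith)
  have hn0 : (0 : ℝ) < n := by exact_mod_cast hn
  have h5 : 8 * (n : ℝ) ^ a ≤ n * ‖v - w‖ := by
    rw [norm_sub_rev]
    refine hfar.trans (mul_le_mul_of_nonneg_left ?_ hn0.le)
    linarith
  have h6 := two_tubes hd hn (Real.rpow_pos_of_pos hn0 a) h5 (hP.2 n hmn) (hPk.2 n hmn)
  rw [norm_sub_rev v w] at h6
  have h7 : n * ‖k - h‖ * ‖w - v‖ ≤ 9 / 4 / c * (n * s ^ 2) := by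
    have h8 : ‖k - h‖ ≤ 3 / 2 * s / c := by
      rw [le_div_iff₀ hc]
      linarith
    have h9 : ‖k - h‖ * ‖w - v‖ ≤ (3 / 2 * s / c) * (3 / 2 * s) :=
      mul_le_mul h8 h1 (norm_nonneg _) (by positivity)
    calc n * ‖k - h‖ * ‖w - v‖ = n * (‖k - h‖ * ‖w - v‖) := by ring
      _ ≤ n * ((3 / 2 * s / c) * (3 / 2 * s)) := mul_le_mul_of_nonneg_left h9 hn0.le
      _ = 9 / 4 / c * (n * s ^ 2) := by ring
  linarith

/-- **At almost every velocity `v` and every tilt `h` with `v` in the subdifferential of the free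
energy at `h` the wandering exponent is at least `1 / 2`.** -/
theorem leafV21 (hd : 0 < d) (hω : IID μ ρ ω) (hρ : EM ρ) : ∀ᵐ v : Vec d, ∀ h : Vec d,
    (∀ k : Vec d, lam ρ β h + inner ℝ v k ≤ lam ρ β (h + k)) → 1 / 2 ≤ nuT μ β ω h v := by
  have hL : ConvexOn ℝ Set.univ (lam (d := d) ρ β) := lam_convex hd hρ β
  have key : ∀ᵐ v : Vec d, ∀ (q : ℚ) (m : ℕ), v ∈ Hv (lam ρ β) μ β ω (q : ℝ) m →
      ∀ ε : ℝ, 0 < ε → ∃ s0 : ℝ, 0 < s0 ∧ ∀ r : Vec d, 0 < ‖r‖ → ‖r‖ ≤ s0 →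
        ∃ w ∈ Hv (lam ρ β) μ β ω (q : ℝ) m, ‖w - (v + r)‖ ≤ ε * ‖r‖ :=
    ae_all_iff.2 fun q => ae_all_iff.2 fun m => ae_dens _
  filter_upwards [key, alJ60 hL] with v hv hlo h hsub
  by_contra hcon
  push Not at hcon
  have h0 : 0 ≤ nuT μ β ω h v := Real.sInf_nonneg fun b hb => hb.1.le
  obtain ⟨q, hq1, hq2⟩ := exists_rat_btwn hcon
  obtain ⟨m, hm⟩ := exists_piece hd hω.1 hq1 (κ := 1 / 8) (by norm_num)
  have hge : ∀ r, 0 ≤ gap (lam ρ β) h v r := by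
    intro r
    unfold gap
    have := hsub r
    linarith
  refine no_density21 hd hL (h0.trans_lt hq1) hq2 m (hv q m ⟨h, hge, hm⟩) (hlo h fun w => ?_) hm
  have := hsub (w - h)
  rwa [show h + (w - h) = w by abel] at this

end Pool.Agent.W_7d29a1_KL.LeafV21
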