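import Pool.Agent.W_7d29a1_V.DimA33
import Pool.Agent.W_7d29a1_D2.AeV6
import Pool.Agent.W_7d29a1_KL.UpLo46
import Mathlib.Analysis.Calculus.Rademacher

/-!
Transfer from almost every point to almost every slope for a convex function on `ℝ^d`: for almost
every `v`, every point `h` of which `v` is a subgradient is outside of a given null set, or the
function has infinite curvature at `h` in some direction.
-/

namespace Pool.Agent.W_7d29a1_KL.Minty46

open MeasureTheory Filter Topology Set Metric Pool.Agent.W_7d29a1_h46 Pool.Agent.W_7d29a1_h46u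
  Pool.Agent.W_7d29a1_V.DimP33
open scoped ENNReal NNReal

variable {d : ℕ} {L : Vec d → ℝ}

lemma conv_cont (hL : ConvexOn ℝ univ L) : Continuous L := by
  rw [← continuousOn_univ]
  exact hL.continuousOn isOpen_univ

/-- The graph of the subdifferential is onto: every `z` is `h + v`. -/
lemma exists_prox (hL : ConvexOn ℝ univ L) (z : Vec d) :
    ∃ h : Vec d, ∀ k : Vec d, L h + inner ℝ (z - h) k ≤ L (h + k) := by
  have hc := conv_cont hL
  obtain ⟨v0, hv0⟩ := exists_sub hL z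
  have hf : Continuous fun h : Vec d => L h + 1 / 2 * ‖h - z‖ ^ 2 := by fun_prop
  have hT : Tendsto (fun h : Vec d => L h + 1 / 2 * ‖h - z‖ ^ 2) (cocompact (Vec d)) atTop := by
    have h1 : Tendsto (fun h : Vec d => ‖h‖ + (L z - ‖z‖ - 1 / 2 * (‖v0‖ + 1) ^ 2))
        (cocompact (Vec d)) atTop :=
      tendsto_atTop_add_const_right _ _ (tendsto_norm_cocompact_atTop (E := Vec d))
    refine tendsto_atTop_mono (fun h => ?_) h1
    have h2 := hv0 h
    have h3 : -(‖v0‖ * ‖h - z‖) ≤ inner ℝ v0 (h - z) := by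
      have := abs_real_inner_le_norm v0 (h - z)
      linarith [(abs_le.1 this).1]
    have h4 : ‖h‖ ≤ ‖h - z‖ + ‖z‖ := by
      have := norm_add_le (h - z) z
      rwa [sub_add_cancel] at this
    nlinarith [sq_nonneg (‖h - z‖ - (‖v0‖ + 1))]
  obtain ⟨h, hh⟩ := hf.exists_forall_le hT
  refine ⟨h, fun k => ?_⟩
  by_contra hcon
  push Not at hcon
  obtain ⟨g, hg⟩ : ∃ g : ℝ, g = L h + inner ℝ (z - h) k - L (h + k) := ⟨_, rfl⟩
  have hg0 : 0 < g := by
    rw [hg]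
    linarith
  have key : ∀ t : ℝ, 0 < t → t ≤ 1 → g ≤ 1 / 2 * t * ‖k‖ ^ 2 := by
    intro t ht ht1
    have h1 := hh (h + t • k)
    have h2 := hL.2 (mem_univ h) (mem_univ (h + k)) (show (0 : ℝ) ≤ 1 - t by linarith) ht.le
      (by ring)
    have e1 : (1 - t) • h + t • (h + k) = h + t • k := by
      rw [smul_add, sub_smul, one_smul]
      abel
    rw [e1] at h2
    simp only [smul_eq_mul] at h2
    have e2 : ‖h + t • k - z‖ ^ 2 =
        ‖h - z‖ ^ 2 - 2 * (t * inner ℝ (z - h) k) + t ^ 2 * ‖k‖ ^ 2 := by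
      have e3 : h + t • k - z = -(z - h) + t • k := by abel
      rw [e3, norm_add_sq_real, norm_neg, norm_sub_rev z h, inner_neg_left, inner_smul_right,
        norm_smul, mul_pow, Real.norm_eq_abs, sq_abs]
      ring
    simp only [e2] at h1
    have h3 : t * g ≤ t * (1 / 2 * t * ‖k‖ ^ 2) := by
      rw [hg]
      nlinarith
    exact le_of_mul_le_mul_left h3 ht
  have hK : 0 < ‖k‖ ^ 2 + 1 := by positivity
  have h1 := key (min 1 (g / (‖k‖ ^ 2 + 1))) (lt_min one_pos (by positivity)) (min_le_left _ _)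
  have h2 : min 1 (g / (‖k‖ ^ 2 + 1)) * (‖k‖ ^ 2 + 1) ≤ g := by
    have := min_le_right 1 (g / (‖k‖ ^ 2 + 1))
    rwa [le_div_iff₀ hK] at this
  have h3 : 0 < min 1 (g / (‖k‖ ^ 2 + 1)) := lt_min one_pos (by positivity)
  nlinarith

/-- Monotonicity. -/
lemma mono {h v h' v' : Vec d} (H : ∀ k : Vec d, L h + inner ℝ v k ≤ L (h + k))
    (H' : ∀ k : Vec d, L h' + inner ℝ v' k ≤ L (h' + k)) : 0 ≤ inner ℝ (v' - v) (h' - h) := by
  have h1 := H (h' - h)
  have h2 := H' (h - h')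
  rw [add_sub_cancel] at h1 h2
  have h3 : inner ℝ v' (h - h') = -inner ℝ v' (h' - h) := by
    rw [← inner_neg_right, neg_sub]
  rw [h3] at h2
  rw [inner_sub_left]
  linarith

lemma mono_lip {x y : Vec d} (h : 0 ≤ inner ℝ x y) : ‖x‖ ≤ ‖x + y‖ ∧ ‖y‖ ≤ ‖x + y‖ := by
  have h1 : ‖x + y‖ ^ 2 = ‖x‖ ^ 2 + 2 * inner ℝ x y + ‖y‖ ^ 2 := norm_add_sq_real x y
  refine ⟨abs_le_of_sq_le_sq' ?_ (norm_nonneg _) |>.2, abs_le_of_sq_le_sq' ?_ (norm_nonneg _) |>.2⟩
  · nlinarith [sq_nonneg ‖y‖]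
  · nlinarith [sq_nonneg ‖x‖]

/-- Lipschitz images of null sets are null. -/
lemma null_image {f : Vec d → Vec d} {s : Set (Vec d)} {K : ℝ≥0} (hf : LipschitzOnWith K f s)
    (hs : volume s = 0) : volume (f '' s) = 0 := by
  obtain ⟨M, hM⟩ : ∃ M : Measure (Vec d),
      M = Measure.hausdorffMeasure ((Module.finrank ℝ (Vec d) : ℕ) : ℝ) := ⟨_, rfl⟩
  have hMh : M.IsAddHaarMeasure := by
    rw [hM]
    infer_instance
  have h0 : M s = 0 := (Measure.absolutelyContinuous_isAddHaarMeasure M volume) hs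
  have h2 := hf.hausdorffMeasure_image_le (d := ((Module.finrank ℝ (Vec d) : ℕ) : ℝ))
    (Nat.cast_nonneg _)
  rw [← hM, h0, mul_zero, nonpos_iff_eq_zero] at h2
  exact (Measure.absolutelyContinuous_isAddHaarMeasure volume M) h2

/-- A set on which a map is locally expanding and takes values in a null set is null. -/
lemma null_exp {H : Vec d → Vec d} {N : Set (Vec d)} (hN : volume N = 0) :
    volume {z | H z ∈ N ∧ ∃ m : ℕ, ∀ z', ‖z' - z‖ ≤ 1 / ((m : ℝ) + 1) →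
      ‖z' - z‖ ≤ ((m : ℝ) + 1) * ‖H z' - H z‖} = 0 := by
  obtain ⟨D, hDc, hDd⟩ := TopologicalSpace.exists_countable_dense (Vec d)
  have hsub : {z | H z ∈ N ∧ ∃ m : ℕ, ∀ z', ‖z' - z‖ ≤ 1 / ((m : ℝ) + 1) →
      ‖z' - z‖ ≤ ((m : ℝ) + 1) * ‖H z' - H z‖} ⊆
      ⋃ m : ℕ, ⋃ x ∈ D, {z | (H z ∈ N ∧ ∀ z', ‖z' - z‖ ≤ 1 / ((m : ℝ) + 1) →
        ‖z' - z‖ ≤ ((m : ℝ) + 1) * ‖H z' - H z‖) ∧ ‖z - x‖ < 1 / (2 * ((m : ℝ) + 1))} := by
    rintro z ⟨hz, m, hm⟩
    have hpos : (0 : ℝ) < 1 / (2 * ((m : ℝ) + 1)) := by positivity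
    obtain ⟨x, hxD, hx⟩ := hDd.exists_dist_lt z hpos
    refine mem_iUnion.2 ⟨m, mem_iUnion₂.2 ⟨x, hxD, ⟨hz, hm⟩, ?_⟩⟩
    rwa [dist_eq_norm] at hx
  refine measure_mono_null hsub ?_
  refine measure_iUnion_null fun m => (measure_biUnion_null_iff hDc).2 fun x _ => ?_
  obtain ⟨P, hP⟩ : ∃ P : Set (Vec d), P = {z | (H z ∈ N ∧ ∀ z', ‖z' - z‖ ≤ 1 / ((m : ℝ) + 1) →
        ‖z' - z‖ ≤ ((m : ℝ) + 1) * ‖H z' - H z‖) ∧ ‖z - x‖ < 1 / (2 * ((m : ℝ) + 1))} := ⟨_, rfl⟩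
  rw [← hP]
  have hexp : ∀ z ∈ P, ∀ z' ∈ P, ‖z' - z‖ ≤ ((m : ℝ) + 1) * ‖H z' - H z‖ := by
    intro z hz z' hz'
    rw [hP] at hz hz'
    refine hz.1.2 z' ?_
    have h1 : ‖z' - z‖ ≤ ‖z' - x‖ + ‖z - x‖ := by
      have := norm_sub_le (z' - x) (z - x)
      rwa [sub_sub_sub_cancel_right] at this
    have h2 := hz.2
    have h3 := hz'.2
    have h4 : 1 / (2 * ((m : ℝ) + 1)) + 1 / (2 * ((m : ℝ) + 1)) = 1 / ((m : ℝ) + 1) := by
      field_simp
      ring
    linarith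
  have hinj : InjOn H P := by
    intro z hz z' hz' he
    have h1 := hexp z' hz' z hz
    rw [he, sub_self, norm_zero, mul_zero] at h1
    exact sub_eq_zero.1 (norm_le_zero_iff.1 h1)
  have hN' : volume (H '' P) = 0 := by
    refine measure_mono_null ?_ hN
    rintro _ ⟨z, hz, rfl⟩
    rw [hP] at hz
    exact hz.1.1
  have hg : LipschitzOnWith (Real.toNNReal ((m : ℝ) + 1)) (Function.invFunOn H P) (H '' P) := by
    refine LipschitzOnWith.of_dist_le_mul ?_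
    rintro _ ⟨z, hz, rfl⟩ _ ⟨z', hz', rfl⟩
    rw [hinj.leftInvOn_invFunOn hz, hinj.leftInvOn_invFunOn hz', dist_eq_norm, dist_eq_norm,
      Real.coe_toNNReal _ (by positivity)]
    exact hexp z' hz' z hz
  have h1 := null_image hg hN'
  refine measure_mono_null ?_ h1
  intro z hz
  exact ⟨H z, ⟨z, hz, rfl⟩, hinj.leftInvOn_invFunOn hz⟩

/-- An injective linear map is expanding, and so is a map with this derivative near the point. -/
lemma exp_near {H : Vec d → Vec d} {z : Vec d} {A : Vec d →L[ℝ] Vec d} (hA : HasFDerivAt H A z)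
    (hinj : ∀ w : Vec d, A w = 0 → w = 0) : ∃ m : ℕ, ∀ z', ‖z' - z‖ ≤ 1 / ((m : ℝ) + 1) →
      ‖z' - z‖ ≤ ((m : ℝ) + 1) * ‖H z' - H z‖ := by
  have hker : LinearMap.ker (A : Vec d →ₗ[ℝ] Vec d) = ⊥ := by
    rw [LinearMap.ker_eq_bot']
    exact fun w hw => hinj w hw
  obtain ⟨K, hK0, hK⟩ := (A : Vec d →ₗ[ℝ] Vec d).exists_antilipschitzWith hker
  have hKr : (0 : ℝ) < K := by exact_mod_cast hK0
  have hlow : ∀ w : Vec d, ‖w‖ ≤ K * ‖A w‖ := by
    intro w
    have := hK.le_mul_dist w 0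
    simpa [dist_eq_norm] using this
  have h1 := hasFDerivAt_iff_isLittleO.1 hA
  have h2 := h1.def (show (0 : ℝ) < 1 / (2 * K) by positivity)
  obtain ⟨η, hη, hη2⟩ := Metric.eventually_nhds_iff.1 h2
  obtain ⟨m, hm⟩ := exists_nat_gt (max (1 / η) (2 * K))
  have hm1 : 1 / η < m := (le_max_left _ _).trans_lt hm
  have hm2 : 2 * (K : ℝ) < m := (le_max_right _ _).trans_lt hm
  refine ⟨m, fun z' hz' => ?_⟩
  have h3 : dist z' z < η := by
    rw [dist_eq_norm]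
    refine hz'.trans_lt ?_
    rw [div_lt_iff₀ (by positivity)]
    rw [div_lt_iff₀ hη] at hm1
    nlinarith
  have h4 := hη2 h3
  have h5 := hlow (z' - z)
  have h6 : ‖A (z' - z)‖ ≤ ‖H z' - H z‖ + 1 / (2 * K) * ‖z' - z‖ := by
    have h7 : ‖A (z' - z)‖ ≤ ‖H z' - H z‖ + ‖H z' - H z - A (z' - z)‖ := by
      have := norm_sub_le (H z' - H z) (H z' - H z - A (z' - z))
      rwa [sub_sub_cancel] at this
    linarith
  have h7 : ‖z' - z‖ ≤ K * (‖H z' - H z‖ + 1 / (2 * K) * ‖z' - z‖) :=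
    h5.trans (mul_le_mul_of_nonneg_left h6 hKr.le)
  have h8 : (K : ℝ) * (‖H z' - H z‖ + 1 / (2 * K) * ‖z' - z‖) =
      K * ‖H z' - H z‖ + ‖z' - z‖ / 2 := by
    field_simp
  rw [h8] at h7
  have h9 : 0 ≤ ‖H z' - H z‖ := norm_nonneg _
  nlinarith

/-- Infinite curvature in a direction in which the point does not move. -/
lemma inf_dir {h v w : Vec d} (hw : w ≠ 0) (H0 : ∀ k : Vec d, L h + inner ℝ v k ≤ L (h + k))
    (H : ∀ ε : ℝ, 0 < ε → ∃ η : ℝ, 0 < η ∧ ∀ σ : ℝ, |σ| ≤ η → ∃ ρ : Vec d, ‖ρ‖ ≤ ε * |σ| ∧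
      ∀ k : Vec d, L (h + ρ) + inner ℝ (v + σ • w - ρ) k ≤ L (h + ρ + k)) :
    InU L h w (inner ℝ v w) := by
  intro C
  have hw0 : 0 < ‖w‖ := norm_pos_iff.2 hw
  obtain ⟨D, hD⟩ : ∃ D : ℝ, D = max C 1 := ⟨_, rfl⟩
  have hD0 : 0 < D := by
    rw [hD]
    exact lt_of_lt_of_le one_pos (le_max_right _ _)
  have hDC : C ≤ D := by
    rw [hD]
    exact le_max_left _ _
  obtain ⟨l, hl⟩ : ∃ l : ℝ, l = min 1 (‖w‖ ^ 2 / (2 * D)) := ⟨_, rfl⟩
  have hl0 : 0 < l := by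
    rw [hl]
    exact lt_min one_pos (by positivity)
  have hl1 : l ≤ 1 := by
    rw [hl]
    exact min_le_left _ _
  have hl2 : l * (2 * D) ≤ ‖w‖ ^ 2 := by
    have : l ≤ ‖w‖ ^ 2 / (2 * D) := by
      rw [hl]
      exact min_le_right _ _
    rwa [le_div_iff₀ (by positivity)] at this
  obtain ⟨η, hη, H⟩ := H (l * ‖w‖ / 4) (by positivity)
  refine ⟨l * η, by positivity, fun t ht => ?_⟩
  obtain ⟨σ, hσ⟩ : ∃ σ : ℝ, σ = t / l := ⟨_, rfl⟩
  have hσt : t = l * σ := by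
    rw [hσ]
    field_simp
  have hσ1 : |σ| ≤ η := by
    rw [hσt, abs_mul, abs_of_pos hl0] at ht
    exact le_of_mul_le_mul_left ht hl0
  obtain ⟨ρ, hρ, H⟩ := H σ hσ1
  have h1 := H (t • w - ρ)
  have h2 := H0 ρ
  have e1 : h + ρ + (t • w - ρ) = h + t • w := by abel
  rw [e1] at h1
  have e2 : inner ℝ (v + σ • w - ρ) (t • w - ρ) =
      t * inner ℝ v w - inner ℝ v ρ + (σ * t * ‖w‖ ^ 2 - (σ + t) * inner ℝ w ρ + ‖ρ‖ ^ 2) := by
    rw [inner_sub_left, inner_add_left, inner_sub_right, inner_sub_right, inner_sub_right,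
      inner_smul_left, inner_smul_right, inner_smul_right, inner_smul_left, inner_smul_right,
      real_inner_self_eq_norm_sq, real_inner_self_eq_norm_sq, real_inner_comm w ρ]
    simp only [conj_trivial]
    ring
  rw [e2] at h1
  have h3 : |(σ + t) * inner ℝ w ρ| ≤ (2 * |σ|) * (‖w‖ * (l * ‖w‖ / 4 * |σ|)) := by
    rw [abs_mul]
    have h4 : |σ + t| ≤ 2 * |σ| := by
      have h5 : |t| ≤ |σ| := by
        rw [hσt, abs_mul, abs_of_pos hl0]
        have := abs_nonneg σ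
        nlinarith
      have := abs_add_le σ t
      linarith
    have h5 : |inner ℝ w ρ| ≤ ‖w‖ * (l * ‖w‖ / 4 * |σ|) :=
      (abs_real_inner_le_norm w ρ).trans (mul_le_mul_of_nonneg_left hρ hw0.le)
    exact mul_le_mul h4 h5 (abs_nonneg _) (by positivity)
  have h4 : (2 * |σ|) * (‖w‖ * (l * ‖w‖ / 4 * |σ|)) = l * σ ^ 2 * ‖w‖ ^ 2 / 2 := by
    rw [← sq_abs σ]
    ring
  rw [h4] at h3
  have h5 := (abs_le.1 h3).2
  have h6 : σ * t * ‖w‖ ^ 2 = l * σ ^ 2 * ‖w‖ ^ 2 := by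
    rw [hσt]
    ring
  have h7 : 0 ≤ ‖ρ‖ ^ 2 := sq_nonneg _
  have h8 : C * t ^ 2 ≤ l * σ ^ 2 * ‖w‖ ^ 2 / 2 := by
    have h9 : C * t ^ 2 ≤ D * t ^ 2 := mul_le_mul_of_nonneg_right hDC (sq_nonneg _)
    have h10 : D * t ^ 2 = (l * (2 * D)) * (l * σ ^ 2) / 2 := by
      rw [hσt]
      ring
    have h11 : (l * (2 * D)) * (l * σ ^ 2) ≤ ‖w‖ ^ 2 * (l * σ ^ 2) :=
      mul_le_mul_of_nonneg_right hl2 (by positivity)
    linarith
  rw [mul_comm (inner ℝ v w) t]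
  linarith

/-- **LEAF T.** From almost every point to almost every slope. -/
theorem transT46 (hL : ConvexOn ℝ univ L) {N : Set (Vec d)} (hN : volume N = 0) :
    ∀ᵐ v : Vec d, ∀ h : Vec d, (∀ k : Vec d, L h + inner ℝ v k ≤ L (h + k)) →
      h ∉ N ∨ ∃ w : Vec d, w ≠ 0 ∧ InU L h w (inner ℝ v w) := by
  choose H hH using exists_prox hL
  have hmono : ∀ z z' : Vec d, 0 ≤ inner ℝ ((z' - H z') - (z - H z)) (H z' - H z) :=
    fun z z' => mono (hH z) (hH z')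
  have hsum : ∀ z z' : Vec d, ((z' - H z') - (z - H z)) + (H z' - H z) = z' - z := by
    intro z z'
    abel
  have hHl : LipschitzWith 1 H := by
    refine LipschitzWith.of_dist_le_mul fun z z' => ?_
    rw [NNReal.coe_one, one_mul, dist_eq_norm, dist_eq_norm]
    have := (mono_lip (hmono z' z)).2
    rwa [hsum] at this
  have hVl : LipschitzWith 1 fun z => z - H z := by
    refine LipschitzWith.of_dist_le_mul fun z z' => ?_
    rw [NNReal.coe_one, one_mul, dist_eq_norm, dist_eq_norm]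
    have := (mono_lip (hmono z' z)).1
    rwa [hsum] at this
  have huni : ∀ h v : Vec d, (∀ k : Vec d, L h + inner ℝ v k ≤ L (h + k)) → H (h + v) = h := by
    intro h v hv
    have h1 := mono hv (hH (h + v))
    have h2 : h + v - H (h + v) - v = -(H (h + v) - h) := by abel
    rw [h2, inner_neg_left, real_inner_self_eq_norm_sq] at h1
    have h3 : ‖H (h + v) - h‖ ^ 2 = 0 := le_antisymm (by linarith) (sq_nonneg _)
    exact sub_eq_zero.1 (norm_eq_zero.1 (pow_eq_zero_iff (two_ne_zero) |>.1 h3))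
  have hZ1 : volume {z | ¬ DifferentiableAt ℝ H z} = 0 := hHl.ae_differentiableAt
  have hZ2 := null_exp (H := H) hN
  have h1 := null_image (hVl.lipschitzOnWith (s := {z | ¬ DifferentiableAt ℝ H z})) hZ1
  have h2 := null_image (hVl.lipschitzOnWith (s := {z | H z ∈ N ∧ ∃ m : ℕ, ∀ z',
    ‖z' - z‖ ≤ 1 / ((m : ℝ) + 1) → ‖z' - z‖ ≤ ((m : ℝ) + 1) * ‖H z' - H z‖})) hZ2
  filter_upwards [measure_eq_zero_iff_ae_notMem.1 h1, measure_eq_zero_iff_ae_notMem.1 h2]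
    with v hv1 hv2 h hh
  obtain ⟨z, hz⟩ : ∃ z : Vec d, z = h + v := ⟨_, rfl⟩
  have hHz : H z = h := by
    rw [hz]
    exact huni h v hh
  have hVz : z - H z = v := by
    rw [hHz, hz, add_sub_cancel_left]
  have hdiff : DifferentiableAt ℝ H z := by
    by_contra hcon
    exact hv1 ⟨z, hcon, hVz⟩
  by_cases hinj : ∀ w : Vec d, fderiv ℝ H z w = 0 → w = 0
  · left
    intro hcon
    refine hv2 ⟨z, ⟨?_, exp_near hdiff.hasFDerivAt hinj⟩, hVz⟩
    rw [hHz]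
    exact hcon
  · right
    push Not at hinj
    obtain ⟨w, hw, hw0⟩ := hinj
    refine ⟨w, hw0, inf_dir hw0 hh fun ε hε => ?_⟩
    have hwn : 0 < ‖w‖ := norm_pos_iff.2 hw0
    have h3 := hasFDerivAt_iff_isLittleO.1 hdiff.hasFDerivAt
    have h4 := h3.def (show (0 : ℝ) < ε / ‖w‖ by positivity)
    obtain ⟨η, hη, hη2⟩ := Metric.eventually_nhds_iff.1 h4
    refine ⟨η / (2 * ‖w‖), by positivity, fun σ hσ => ⟨H (z + σ • w) - h, ?_, ?_⟩⟩
    · have h5 : dist (z + σ • w) z < η := by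
        rw [dist_eq_norm, add_sub_cancel_left, norm_smul, Real.norm_eq_abs]
        rw [le_div_iff₀ (by positivity)] at hσ
        have := abs_nonneg σ
        nlinarith
      have h6 := hη2 h5
      rw [add_sub_cancel_left, map_smul, hw, smul_zero, sub_zero, hHz, norm_smul,
        Real.norm_eq_abs] at h6
      have h7 : ε / ‖w‖ * (|σ| * ‖w‖) = ε * |σ| := by
        field_simp
      rwa [h7] at h6
    · intro k
      have h5 := hH (z + σ • w) k
      have e1 : h + (H (z + σ • w) - h) = H (z + σ • w) := by abel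
      have e2 : v + σ • w - (H (z + σ • w) - h) = z + σ • w - H (z + σ • w) := by
        rw [hz]
        abel
      rw [e1, e2]
      exact h5

end Pool.Agent.W_7d29a1_KL.Minty46
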