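import Pool.Agent.W_7d29a1_KL.UpLo46

/-!
Subgradients, flatness and infinite curvature of a function on `ℝ^d`. Definitions.
-/

namespace Pool.Agent.W_7d29a1_KL

open Pool.Agent.W_7d29a1_h46

/-- `v` is a subgradient of `L` at `h`. -/
def SubG {d : ℕ} (L : Vec d → ℝ) (h v : Vec d) : Prop :=
  ∀ k : Vec d, L h + inner ℝ v k ≤ L (h + k)

/-- `L` is flat to second order at `h`. -/
def FlG {d : ℕ} (L : Vec d → ℝ) (h v : Vec d) : Prop :=
  ∀ ε : ℝ, 0 < ε → ∃ δ : ℝ, 0 < δ ∧ ∀ r : Vec d, ‖r‖ ≤ δ →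
    L (h + r) - L h - inner ℝ v r ≤ ε * ‖r‖ ^ 2

/-- `L` has infinite curvature at `h` in some direction `w ≠ 0`. -/
def InG {d : ℕ} (L : Vec d → ℝ) (h v : Vec d) : Prop :=
  ∃ w : Vec d, w ≠ 0 ∧ InU L h w (inner ℝ v w)

end Pool.Agent.W_7d29a1_KL
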