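import Pool.Agent.W_7d29a1_KL.SlEx46
import Pool.Agent.W_7d29a1_D2.AeV6
import Pool.Agent.W_7d29a1_V.DimA33

/-!
Every velocity `v` with `∑ |v_k| < 1` is a subgradient of the free energy at some tilt.
-/

namespace Pool.Agent.W_7d29a1_KL

open SlEx46 MeasureTheory ProbabilityTheory Filter Topology Pool.Agent.W_MP_7d29a1_pr
  Pool.Agent.W_7d29a1_h46 Pool.Agent.W_7d29a1_h46u Pool.Agent.W_7d29a1_D2
  Pool.Agent.W_7d29a1_V.DimP33

/-- Every velocity `v` with `∑ |v_k| < 1` is a subgradient. -/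
theorem vel_ex46 {d : ℕ} {ρ : Measure ℝ} [IsProbabilityMeasure ρ] (hd : 0 < d) (hρ : EM ρ) (β : ℝ)
    {v : Vec d} (hv : ∑ k, |v k| < 1) :
    ∃ h : Vec d, ∀ k : Vec d, lam ρ β h + inner ℝ v k ≤ lam ρ β (h + k) := by
  have hL := lam_convex (ρ := ρ) hd hρ β
  have hc : Continuous (lam ρ β : Vec d → ℝ) := hL.locallyLipschitz.continuous
  have hd0 : (0 : ℝ) < d := by exact_mod_cast hd
  have hf : Continuous fun h : Vec d => lam ρ β h - inner ℝ v h := by fun_prop
  have hT : Tendsto (fun h : Vec d => lam ρ β h - inner ℝ v h) (cocompact (Vec d)) atTop := by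
    have h1 : Tendsto (fun h : Vec d => ((1 - ∑ k, |v k|) / d) * ‖h‖ + β * ∫ x, x ∂ρ)
        (cocompact (Vec d)) atTop :=
      tendsto_atTop_add_const_right _ _
        ((tendsto_norm_cocompact_atTop (E := Vec d)).const_mul_atTop
          (div_pos (by linarith) hd0))
    refine tendsto_atTop_mono (fun h => ?_) h1
    obtain ⟨M, hM⟩ : ∃ M : ℝ, M = lam ρ β h - β * ∫ x, x ∂ρ := ⟨_, rfl⟩
    have h2 : ∀ k, |h k| ≤ M := by
      intro k
      have := lam_grow46 hρ β h k
      rw [hM]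
      linarith
    have h3 : inner ℝ v h ≤ (∑ k, |v k|) * M := by
      rw [inner_vec, Finset.sum_mul]
      refine Finset.sum_le_sum fun k _ => ?_
      calc v k * h k ≤ |v k * h k| := le_abs_self _
        _ = |v k| * |h k| := abs_mul _ _
        _ ≤ |v k| * M := mul_le_mul_of_nonneg_left (h2 k) (abs_nonneg _)
    have h4 : ‖h‖ ≤ d * M := by
      calc ‖h‖ = ‖∑ j : Fin d, (h j) • (ej j : Vec d)‖ := by rw [sum_ej]
        _ ≤ ∑ j : Fin d, ‖(h j) • (ej j : Vec d)‖ := norm_sum_le _ _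
        _ ≤ ∑ _j : Fin d, M := by
            refine Finset.sum_le_sum fun j _ => ?_
            have e1 : ‖(ej j : Vec d)‖ = 1 := by simp [ej]
            rw [norm_smul, e1, mul_one, Real.norm_eq_abs]
            exact h2 j
        _ = d * M := by
            rw [Finset.sum_const, Finset.card_univ, Fintype.card_fin, nsmul_eq_mul]
    have h5 : ((1 - ∑ k, |v k|) / d) * ‖h‖ ≤ (1 - ∑ k, |v k|) * M := by
      have h6 : ((1 - ∑ k, |v k|) / d) * ‖h‖ ≤ ((1 - ∑ k, |v k|) / d) * (d * M) :=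
        mul_le_mul_of_nonneg_left h4 (div_nonneg (by linarith) hd0.le)
      have h7 : ((1 - ∑ k, |v k|) / d) * (d * M) = (1 - ∑ k, |v k|) * M := by
        field_simp
      rwa [h7] at h6
    have h8 : lam ρ β h = M + β * ∫ x, x ∂ρ := by
      rw [hM]
      ring
    rw [h8]
    nlinarith
  obtain ⟨h, hh⟩ := hf.exists_forall_le hT
  refine ⟨h, fun k => ?_⟩
  have h1 := hh (h + k)
  simp only [inner_add_right] at h1
  linarith

end Pool.Agent.W_7d29a1_KL
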