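import Pool.Agent.W_7d29a1_KL.FinQ46
import Pool.Agent.W_7d29a1_KL.MintyT46
import Pool.Agent.W_7d29a1_KL.VelEx46
import Pool.Agent.W_7d29a1_KL.SubD46
import Pool.Agent.W_7d29a1_KL.LeafV21

/-!
The scaling exponents in every dimension: the final theorem, with the relation at almost every
velocity.
-/

namespace Pool.Agent.W_7d29a1_KL

open MeasureTheory ProbabilityTheory Filter Topology Pool.Agent.W_MP_7d29a1_pr
  Pool.Agent.W_7d29a1_h46 Pool.Agent.W_7d29a1_h46u Pool.Agent.W_7d29a1_D2 Pool.Agent.W_7d29a1_V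
  Pool.Agent.W_7d29a1_VT

/-- **The scaling exponents in every dimension: bounds, the relation at almost every tilt and at
almost every velocity and, for one component, at almost every tilt and almost every slope of every
line of tilts, the growth of the free energy and the exceptional tilts.** -/
theorem finalR {d : ℕ} (hd : 1 ≤ d) {Ω : Type*} [MeasurableSpace Ω] (μ : Measure Ω)
    [IsProbabilityMeasure μ] (ω : ℕ × Site d → Ω → ℝ) (hmeas : ∀ p, Measurable (ω p))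
    (hindep : iIndepFun ω μ) (hident : ∀ p q, IdentDistrib (ω p) (ω q) μ μ)
    (hnc : ∀ p, ¬ ∃ c : ℝ, ∀ᵐ x ∂μ, ω p x = c)
    (hexp : ∀ (b : ℝ) p, Integrable (fun x => Real.exp (b * ω p x)) μ) {β : ℝ} (hβ : 0 < β) :
    -- the exponents of the problem
    2 * chi μ β ω ≤ nu μ β ω ∧ 1 / ((d : ℝ) + 1) ≤ nu μ β ω ∧
    1 ≤ d * nu μ β ω + 2 * chi μ β ω ∧ nuT μ β ω 0 0 = nu μ β ω ∧ chiT μ β ω 0 = chi μ β ω ∧
    ∃ L : Vec d → ℝ,
      -- the free energy
      (∀ h, ∀ᵐ x ∂μ, Tendsto (fun n : ℕ =>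
        Real.log (Zn β h (fun p => ω p x) n) / n) atTop (𝓝 (L h))) ∧
      ConvexOn ℝ Set.univ L ∧
      -- every tilt `h`, every direction `v`
      (∀ h v : Vec d, 2 * chiT μ β ω h ≤ nuT μ β ω h v ∧
        (∀ x : ℝ, nuT μ β ω h v / 2 < x → ∀ᶠ n : ℕ in atTop,
          Var[fun y => Real.log (Zn β h (fun p => ω p y) n); μ] ≤ (n : ℝ) ^ (2 * x) ∧
          0 ≤ n * L h - ∫ y, Real.log (Zn β h (fun p => ω p y) n) ∂μ ∧
          n * L h - ∫ y, Real.log (Zn β h (fun p => ω p y) n) ∂μ ≤ (n : ℝ) ^ x) ∧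
        1 / ((d : ℝ) + 1) ≤ nuT μ β ω h v ∧ 1 ≤ d * nuT μ β ω h v + 2 * chiT μ β ω h ∧
        nuT μ β ω h v ≤ nuS μ β ω h v ∧ nuS μ β ω h v ≤ 1 ∧ chiT μ β ω h ≤ chiF μ β ω h ∧
        2 * chiF μ β ω h ≤ nuS μ β ω h v ∧ chiF μ β ω h ≤ chiS μ β ω h ∧
        chiS μ β ω h ≤ 1 / 2) ∧
      -- the growth exponent
      (∀ h v : Vec d, BddAbove {p : ℝ | 1 ≤ p ∧ UpG L h v p} ∧ 1 ≤ gam L h v ∧
        gam L h v ≤ 2 * d + 1 ∧ nuS μ β ω h v ≤ 2 / (gam L h v + 1) ∧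
        chiF μ β ω h ≤ 1 / (gam L h v + 1) ∧
        gam L h v * nuS μ β ω h v ≤ 1 + (gam L h v - 1) * chiS μ β ω h ∧
        (1 + (gam L h v - 1) * chiS μ β ω h) * chiT μ β ω h ≤
          gam L h v * nuS μ β ω h v * chiS μ β ω h ∧
        (chiT μ β ω h = chiS μ β ω h → 0 < chiS μ β ω h →
          gam L h v * nuS μ β ω h v = 1 + (gam L h v - 1) * chiS μ β ω h) ∧
        ∀ p : ℝ, (2 * (d : ℝ) + 1 < p → LoA L h v p) ∧ (1 ≤ p → LoA L h v p →
          (1 + (p - 1) * chiS μ β ω h) * chiF μ β ω h ≤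
            p * nuS μ β ω h v * chiS μ β ω h)) ∧
      -- one component of the polymer, every tilt
      (∀ h u v : Vec d, nuL μ β ω h u (inner ℝ u v) ≤ nuS μ β ω h v) ∧
      (∀ (h u : Vec d) (s : ℝ), u ≠ 0 → 2 * chiF μ β ω h ≤ nuL μ β ω h u s ∧
        ∀ p : ℝ, 1 < p →
          (SlU L h u s → UpU L h u s p →
            nuL μ β ω h u s ≤ 2 / (p + 1) ∧
            p * nuL μ β ω h u s ≤ 1 + (p - 1) * chiS μ β ω h) ∧
          (LoU L h u s p → (1 + (p - 1) * chiS μ β ω h) * chiF μ β ω h ≤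
            p * nuL μ β ω h u s * chiS μ β ω h)) ∧
      -- almost every tilt
      (∀ᵐ h : Vec d, ∃ v : Vec d, SubG L h v ∧ UpG L h v 2 ∧
        nuS μ β ω h v ≤ 2 / 3 ∧ 2 * nuS μ β ω h v - 1 ≤ chiF μ β ω h ∧
        (FlG L h v ∨ (1 / 2 ≤ nuT μ β ω h v ∧ chiF μ β ω h = 2 * nuS μ β ω h v - 1)) ∧
        gam L h v * nuS μ β ω h v ≤ 1 + (gam L h v - 1) * chiF μ β ω h ∧
        (1 + (gam L h v - 1) * chiF μ β ω h) * chiT μ β ω h ≤
          gam L h v * nuS μ β ω h v * chiF μ β ω h ∧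
        ∀ p : ℝ, 1 ≤ p → LoA L h v p → (1 + (p - 1) * chiF μ β ω h) * chiF μ β ω h ≤
          p * nuS μ β ω h v * chiF μ β ω h) ∧
      -- almost every velocity
      (∀ᵐ v : Vec d, (∑ k, |v k| < 1 → ∃ h, SubG L h v) ∧
        ∀ h : Vec d, SubG L h v → 1 / 2 ≤ nuT μ β ω h v ∧
          (InG L h v ∨ (nuS μ β ω h v ≤ 2 / 3 ∧ chiF μ β ω h = 2 * nuS μ β ω h v - 1))) ∧
      -- the exceptional tilts
      (∀ a : ℝ, 0 < a → a < 1 →
        dimH {h : Vec d | ¬ ∃ v : Vec d, nuS μ β ω h v ≤ a ∧ chiF μ β ω h ≤ a / 2} ≤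
          ENNReal.ofReal (d - 3 + 2 / a) ∧
        dimH {h : Vec d | ¬ chiF μ β ω h ≤ a / 2} ≤ ENNReal.ofReal (d * (2 / a - 2))) ∧
      dimH {h : Vec d | ¬ chiF μ β ω h < 1 / 2} = 0 ∧
      -- one component of the polymer, every line of tilts
      (∀ h u : Vec d, u ≠ 0 →
        (∀ᵐ r : ℝ, ∃ s : ℝ, SlU L (ray h u r) u s ∧ nuL μ β ω (ray h u r) u s ≤ 2 / 3 ∧
          2 * nuL μ β ω (ray h u r) u s - 1 ≤ chiF μ β ω (ray h u r) ∧
          (FlU L (ray h u r) u s ∨ (1 / 2 ≤ nuL μ β ω (ray h u r) u s ∧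
            chiF μ β ω (ray h u r) = 2 * nuL μ β ω (ray h u r) u s - 1))) ∧
        (∀ᵐ s : ℝ, ((∃ k, |s| < |u k|) → ∃ r : ℝ, SlU L (ray h u r) u s) ∧
          ∀ r : ℝ, SlU L (ray h u r) u s → 1 / 2 ≤ nuL μ β ω (ray h u r) u s ∧
            (InU L (ray h u r) u s ∨ (nuL μ β ω (ray h u r) u s ≤ 2 / 3 ∧
              chiF μ β ω (ray h u r) = 2 * nuL μ β ω (ray h u r) u s - 1))) ∧
        ∀ a : ℝ, 0 < a → a < 1 →
          dimH {r : ℝ | ¬ ∃ s : ℝ, nuL μ β ω (ray h u r) u s ≤ a} ≤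
            ENNReal.ofReal (2 / a - 2)) ∧
      -- a dense set of tilts
      (∀ U : Set (Vec d), IsOpen U → U.Nonempty → ∃ h ∈ U, ∃ v : Vec d,
        SubG L h v ∧ UpG L h v 2 ∧ LoG L h v 2 ∧
        1 / 2 ≤ nuT μ β ω h v ∧ nuS μ β ω h v ≤ 2 / 3) ∧
      -- generic tilts
      (∃ G : Set (Vec d), IsGδ G ∧ Dense G ∧ ∀ h ∈ G, chiF μ β ω h = chiS μ β ω h) := by
  have hd0 : 0 < d := hd
  set p0 : ℕ × Site d := (0, 0) with hp0
  set ρ : Measure ℝ := μ.map (ω p0) with hρdef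
  have : IsProbabilityMeasure ρ := Measure.isProbabilityMeasure_map (hmeas p0).aemeasurable
  have hω : IID μ ρ ω := ⟨hmeas, hindep, fun p => (hident p p0).map_eq⟩
  have hρ : EM ρ := by
    intro b
    rw [hρdef, integrable_map_measure (by fun_prop) (hmeas p0).aemeasurable]
    exact hexp b p0
  have hmp := mp_env hω
  have tr : ∀ {P : (ℕ × Site d → ℝ) → Prop}, (∀ᵐ η ∂(law d ρ), P η) →
      ∀ᵐ x ∂μ, P (fun p => ω p x) := fun hP => hmp.quasiMeasurePreserving.ae hP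
  obtain ⟨a1, a2, a3, a4, a5, L, l1, lc, l2, l3, l4, l5, l6, l7, l8, l9, l10, l11, l12⟩ :=
    finalQ hd μ ω hmeas hindep hident hnc hexp hβ
  have hL : ∀ h, L h = lam ρ β h - Real.log (2 * d) := by
    intro h
    have h1 : ∀ᵐ x ∂μ, Tendsto (fun n : ℕ =>
        Real.log (Zn β h (fun p => ω p x) n) / n) atTop
          (𝓝 (lam ρ β h - Real.log (2 * d))) := by
      filter_upwards [tr (W_7d29a1_h3.ae_X hd0 hρ β h)] with x hx
      refine (hx.sub_const (Real.log (2 * d))).congr' ?_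
      filter_upwards [eventually_ge_atTop 1] with n hn
      have hn0 : (n : ℝ) ≠ 0 := by
        have : (0 : ℝ) < n := by exact_mod_cast hn
        exact this.ne'
      rw [StrA_log hd0, Real.log_pow]
      field_simp
    obtain ⟨x, hx1, hx2⟩ := ((l1 h).and h1).exists
    exact tendsto_nhds_unique hx1 hx2
  have hFl : ∀ h v : Vec d, (∀ ε > 0, ∃ δ > 0, ∀ r : Vec d, ‖r‖ ≤ δ →
      gap L h v r ≤ ε * ‖r‖ ^ 2) → FlG L h v := by
    intro h v H ε hε
    obtain ⟨δ, hδ, H⟩ := H ε hε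
    exact ⟨δ, hδ, fun r hr => H r hr⟩
  have hV : ∀ᵐ v : Vec d, ∀ h : Vec d,
      (∀ k : Vec d, lam ρ β h + inner ℝ v k ≤ lam ρ β (h + k)) → 1 / 2 ≤ nuT μ β ω h v :=
    LeafV21.leafV21 (μ := μ) (ω := ω) (β := β) hd0 hω hρ
  obtain ⟨N, hN⟩ : ∃ N : Set (Vec d), N = {h | ¬ ∃ v : Vec d,
      (∀ k, L h + inner ℝ v k ≤ L (h + k)) ∧ UpG L h v 2 ∧ nuS μ β ω h v ≤ 2 / 3 ∧
      (FlG L h v ∨ chiF μ β ω h = 2 * nuS μ β ω h v - 1)} := ⟨_, rfl⟩
  have hN0 : volume N = 0 := by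
    have h1 : ∀ᵐ h : Vec d, ∃ v : Vec d, (∀ k, L h + inner ℝ v k ≤ L (h + k)) ∧ UpG L h v 2 ∧
        nuS μ β ω h v ≤ 2 / 3 ∧ (FlG L h v ∨ chiF μ β ω h = 2 * nuS μ β ω h v - 1) := by
      filter_upwards [l7] with h hh
      obtain ⟨v, b1, b2, b3, -, -, b6, -⟩ := hh
      refine ⟨v, b1, b2, b3, ?_⟩
      rcases b6 with b6 | b6
      · exact Or.inl (hFl h v b6)
      · exact Or.inr b6.2
    rw [hN]
    exact h1
  refine ⟨a1, a2, a3, a4, a5, L, l1, lc, l2, l3, l4, l5, ?_, ?_, l8, l9, l10,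
    fun U hU hU2 => ?_, l12⟩
  · filter_upwards [l7] with h hh
    obtain ⟨v, b1, b2, b3, -, b5, b6, b7⟩ := hh
    exact ⟨v, b1, b2, b3, b5, b6.imp (hFl h v) id, b7⟩
  · filter_upwards [Minty46.transT46 lc hN0, ae_low lc, hV] with v hT hlow hV
    refine ⟨fun hv => ?_, fun h hh => ⟨?_, ?_⟩⟩
    · obtain ⟨h, hh⟩ := vel_ex46 hd0 hρ β hv
      refine ⟨h, fun k => ?_⟩
      rw [hL, hL]
      have := hh k
      linarith
    · refine hV h fun k => ?_
      have := hh k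
      rw [hL, hL] at this
      linarith
    · rcases hT h hh with h1 | h1
      · right
        rw [hN] at h1
        obtain ⟨v', b1, b2, b3, b4⟩ := not_not.1 h1
        have hvv : v' = v := by
          obtain ⟨C, δ, hδ, H⟩ := b2
          have h2 : v - v' = 0 := by
            refine lin_zero (C := max C 0) (le_max_right _ _) hδ fun w hw => ?_
            have h3 := H w hw
            have h4 := hh w
            unfold gap at h3
            rw [rpow_two_real] at h3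
            have h5 : C * ‖w‖ ^ 2 ≤ max C 0 * ‖w‖ ^ 2 :=
              mul_le_mul_of_nonneg_right (le_max_left _ _) (sq_nonneg _)
            rw [inner_sub_left]
            linarith
          exact (sub_eq_zero.1 h2).symm
        rw [hvv] at b3 b4
        refine ⟨b3, ?_⟩
        rcases b4 with b4 | b4
        · exfalso
          obtain ⟨c, hc, δ, hδ, H⟩ := hlow h hh
          obtain ⟨δ', hδ', H'⟩ := b4 (c / 2) (by positivity)
          obtain ⟨t, ht⟩ : ∃ t : ℝ, t = min δ δ' := ⟨_, rfl⟩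
          have ht0 : 0 < t := by
            rw [ht]
            exact lt_min hδ hδ'
          have hn : ‖t • (ej ⟨0, hd0⟩ : Vec d)‖ = t := by
            rw [norm_smul, norm_ej_one, mul_one, Real.norm_eq_abs, abs_of_pos ht0]
          have h2 := H (t • ej ⟨0, hd0⟩) (by
            rw [hn, ht]
            exact min_le_left _ _)
          have h3 := H' (t • ej ⟨0, hd0⟩) (by
            rw [hn, ht]
            exact min_le_right _ _)
          rw [hn] at h2 h3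
          have h4 : 0 < c * t ^ 2 := by positivity
          linarith
        · exact b4
      · left
        exact h1
  · obtain ⟨h, hh, v, b1, b2, b3, b4, b5, -⟩ := l11 U hU hU2
    exact ⟨h, hh, v, b1, b2, b3, b4, b5⟩

end Pool.Agent.W_7d29a1_KL
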