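import Pool.Agent.W_7d29a1_h46.Model

/-!
The exponents of the variance and of the typical displacement, upper bounds for the random and the
nonrandom fluctuation of the free energy, and the convex functions of a Gaussian variable.
Definitions.
-/

namespace Pool.Agent.W_7d29a1_KL

open MeasureTheory ProbabilityTheory Filter Topology Pool.Agent.W_MP_7d29a1_pr
  Pool.Agent.W_7d29a1_h46

/-- The exponent of the variance of the free energy with tilt `h`: the infimum of the `x > 0` such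
that `Var log Z_n (h) ≤ n ^ (2 x)` for all large `n`. -/
noncomputable def chiV {Ω : Type*} [MeasurableSpace Ω] (μ : Measure Ω) {d : ℕ} (β : ℝ)
    (ω : ℕ × Site d → Ω → ℝ) (h : Vec d) : ℝ :=
  sInf {x : ℝ | 0 < x ∧ ∀ᶠ n : ℕ in atTop,
    Var[fun y => Real.log (Zn β h (fun p => ω p y) n); μ] ≤ (n : ℝ) ^ (2 * x)}

/-- The exponent of the typical displacement of the polymer with tilt `h` from the line `i v`: the
infimum of the `a > 0` such that the expected polymer probability of leaving the tube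
`‖S_i - i v‖ ≤ n ^ a`, `i ≤ n`, tends to `0`. -/
noncomputable def nuP {Ω : Type*} [MeasurableSpace Ω] (μ : Measure Ω) {d : ℕ} (β : ℝ)
    (ω : ℕ × Site d → Ω → ℝ) (h v : Vec d) : ℝ :=
  sInf {a : ℝ | 0 < a ∧ Tendsto (fun n : ℕ =>
    ∫ x, (1 - PolT β h (fun p => ω p x) (tube d n v ((n : ℝ) ^ a))) ∂μ) atTop (𝓝 0)}

/-- For all large `n`, `Var log Z_n (h) ≤ n ^ (2 x)` and `0 ≤ n l - E log Z_n (h) ≤ n ^ x`. -/
def FlucLe {Ω : Type*} [MeasurableSpace Ω] (μ : Measure Ω) {d : ℕ} (β : ℝ)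
    (ω : ℕ × Site d → Ω → ℝ) (h : Vec d) (l x : ℝ) : Prop :=
  ∀ᶠ n : ℕ in atTop,
    Var[fun y => Real.log (Zn β h (fun p => ω p y) n); μ] ≤ (n : ℝ) ^ (2 * x) ∧
    0 ≤ n * l - ∫ y, Real.log (Zn β h (fun p => ω p y) n) ∂μ ∧
    n * l - ∫ y, Real.log (Zn β h (fun p => ω p y) n) ∂μ ≤ (n : ℝ) ^ x

/-- `X` has the law of a convex function of a Gaussian variable. -/
def ConvG {Ω : Type*} [MeasurableSpace Ω] (μ : Measure Ω) (X : Ω → ℝ) : Prop :=
  ∃ φ : ℝ → ℝ, ConvexOn ℝ Set.univ φ ∧ μ.map X = (gaussianReal 0 1).map φ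

end Pool.Agent.W_7d29a1_KL
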