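import Pool.Agent.W_7d29a1_KL.SubD46

/-!
Flatness in one direction. Definition.
-/

namespace Pool.Agent.W_7d29a1_KL

open Pool.Agent.W_7d29a1_h46

/-- `L` is flat to second order at `h` in some direction `w ≠ 0`. -/
def FlD {d : ℕ} (L : Vec d → ℝ) (h v : Vec d) : Prop :=
  ∃ w : Vec d, w ≠ 0 ∧ FlU L h w (inner ℝ v w)

end Pool.Agent.W_7d29a1_KL
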