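import Pool.Agent.W_7d29a1_KL.MintyS46
import Pool.Agent.W_7d29a1_KL.MintyT46
import Pool.Agent.W_7d29a1_KL.FlatD46
import Pool.Agent.W_7d29a1_KP.RelB19

/-!
Theorem KPZV: from the two inequalities, at almost every point and at almost every slope, to the
identity.
-/

namespace Pool.Agent.W_7d29a1_KL

open MeasureTheory ProbabilityTheory Filter Topology Set Pool.Agent.W_MP_7d29a1_pr
  Pool.Agent.W_7d29a1_h46 Pool.Agent.W_7d29a1_h46u Pool.Agent.W_7d29a1_D2

/-- The identity at almost every point and at almost every slope. -/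
theorem kpzv46 {d : ℕ} {L : Vec d → ℝ} (hL : ConvexOn ℝ univ L) {c : Vec d → ℝ}
    {n : Vec d → Vec d → ℝ} (hA : ∀ᵐ h : Vec d, ∀ v : Vec d, SubG L h v → 2 * n h v - 1 ≤ c h)
    (hB : ∀ᵐ v : Vec d, ∀ h : Vec d, c h ≤ 2 * n h v - 1) :
    (∀ᵐ h : Vec d, ∀ v : Vec d, SubG L h v → 2 * n h v - 1 ≤ c h ∧
      (FlD L h v ∨ c h = 2 * n h v - 1)) ∧
    ∀ᵐ v : Vec d, ∀ h : Vec d, SubG L h v → InG L h v ∨ c h = 2 * n h v - 1 := by
  constructor
  · filter_upwards [hA, Minty46.transS46 hL (ae_iff.1 hB)] with h h1 h2 v hv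
    refine ⟨h1 v hv, ?_⟩
    rcases h2 v hv with h3 | h3
    · right
      have h4 : ∀ h : Vec d, c h ≤ 2 * n h v - 1 := by
        by_contra h5
        exact h3 h5
      exact le_antisymm (h4 h) (h1 v hv)
    · left
      exact h3
  · filter_upwards [hB, Minty46.transT46 hL (ae_iff.1 hA)] with v h1 h2 h hv
    rcases h2 h hv with h3 | h3
    · right
      have h4 : ∀ v : Vec d, SubG L h v → 2 * n h v - 1 ≤ c h := by
        by_contra h5
        exact h3 h5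
      exact le_antisymm (h1 h) (h4 v hv)
    · left
      exact h3

/-- The exponent of the variance is at most the exponent of all moments. -/
theorem chiV_le46 {d : ℕ} {Ω : Type*} [MeasurableSpace Ω] {μ : Measure Ω}
    [IsProbabilityMeasure μ] {ρ : Measure ℝ} [IsProbabilityMeasure ρ]
    {ω : ℕ × Site d → Ω → ℝ} {β : ℝ} (hd : 0 < d) (hω : IID μ ρ ω) (hρ : EM ρ) (h : Vec d) :
    chiV μ β ω h ≤ chiF μ β ω h := by
  refine le_of_forall_gt_imp_ge_of_dense fun x hx => ?_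
  have h0 : 0 ≤ chiF μ β ω h := Real.sInf_nonneg fun y hy => hy.1.le
  obtain ⟨y, hy, hyx⟩ := exists_lt_of_csInf_lt ⟨1 / 2, half_mem_chiSetF hd hω hρ h⟩ hx
  have hx0 : 0 < x := lt_of_le_of_lt h0 hx
  refine csInf_le ⟨0, fun b hb => hb.1.le⟩ ⟨hx0, ?_⟩
  obtain ⟨-, hF⟩ := (mem_chiSetF (μ := μ) (β := β) hd hω hρ h y).1 hy
  obtain ⟨C, hC⟩ := hF 2
  have ht : Tendsto (fun n : ℕ => (n : ℝ) ^ (2 * (x - y))) atTop atTop :=
    (tendsto_rpow_atTop (by linarith)).comp tendsto_natCast_atTop_atTop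
  filter_upwards [ht.eventually_ge_atTop C, eventually_ge_atTop 1] with n hn hn1
  have hn0 : (0 : ℝ) < n := by exact_mod_cast hn1
  rw [W_7d29a1_KZ.varV19 hd hω hρ]
  have h6 := hC n hn1
  rw [show (y * ((2 : ℕ) : ℝ)) = 2 * y by push_cast; ring] at h6
  have h7 : ∫ η, |X β h η n - A ρ β h n| ^ 2 ∂(law d ρ) = W_7d29a1_Q29.Va ρ β h n := by
    unfold W_7d29a1_Q29.Va
    simp only [sq_abs]
  rw [h7] at h6
  have h2 : (n : ℝ) ^ (2 * x) = (n : ℝ) ^ (2 * (x - y)) * (n : ℝ) ^ (2 * y) := by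
    rw [← Real.rpow_add hn0]
    congr 1
    ring
  rw [h2]
  exact h6.trans (mul_le_mul_of_nonneg_right hn (Real.rpow_nonneg hn0.le _))

end Pool.Agent.W_7d29a1_KL
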