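import Pool.Agent.W_7d29a1_KP.RelB19
import Pool.Agent.W_7d29a1_PL.NuTr32

/-!
The exponent of the typical displacement is larger than `1 / 2` in dimension two, locally uniformly
in the tilt.
-/

namespace Pool.Agent.W_7d29a1_KL

open MeasureTheory ProbabilityTheory Filter Topology Pool.Agent.W_MP_7d29a1_pr
  Pool.Agent.W_7d29a1_h46 Pool.Agent.W_7d29a1_h46u Pool.Agent.W_7d29a1_D2.B35
  Pool.Agent.W_7d29a1_Q29 Pool.Agent.W_7d29a1_R34 Pool.Agent.W_7d29a1_SP Pool.Agent.W_7d29a1_SD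
  Pool.Agent.W_7d29a1_SW Pool.Agent.W_7d29a1_WP Pool.Agent.W_7d29a1_KZ Pool.Agent.W_7d29a1_PL

variable {d : ℕ} {Ω : Type*} [MeasurableSpace Ω] {μ : Measure Ω} [IsProbabilityMeasure μ]
  {ρ : Measure ℝ} [IsProbabilityMeasure ρ] {ω : ℕ × Site d → Ω → ℝ} {β : ℝ}

/-- `d = 2`: for every `K` some `c > 0`: almost every velocity `v`, every tilt `‖h‖ ≤ K`:
`1 / 2 + c ≤ ν'`. -/
theorem nuPU46 (hω : IID μ ρ ω) (hρ : EM ρ) (hnc : ∀ c : ℝ, ρ {c} ≠ 1) (hβ : 0 < β) (hd : d = 2)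
    (hK : MainKA d ρ β) (hPt : PointPL ρ β) (K : ℝ) :
    ∃ c : ℝ, 0 < c ∧ ∀ᵐ v : Vec d, ∀ h : Vec d, ‖h‖ ≤ K → 1 / 2 + c ≤ nuP μ β ω h v := by
  subst hd
  obtain ⟨g, hg, hgap⟩ := gap32 (ρ := ρ) hρ hnc hβ K
  obtain ⟨c, hc, hv⟩ := nuT32 hρ hK hPt g hg
  refine ⟨c, hc, ?_⟩
  filter_upwards [hv] with v hv h hh
  by_contra hcon
  have h1 := W_7d29a1_KP.halfP19 (μ := μ) (ρ := ρ) (β := β) two_pos hω (not_le.1 hcon)
  rw [add_sub_cancel_left] at h1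
  exact hv h (hgap h hh) h1

end Pool.Agent.W_7d29a1_KL
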