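import Pool.Agent.W_7d29a1_KL.FinR46
import Pool.Agent.W_7d29a1_KL.FlucD46
import Pool.Agent.W_7d29a1_KL.Kpzv46
import Pool.Agent.W_7d29a1_KL.NuPU46
import Pool.Agent.W_7d29a1_KZ.TrZ19
import Pool.Agent.W_7d29a1_KP.RelB19
import Pool.Agent.W_7d29a1_KZ.KzAll5
import Pool.Agent.W_7d29a1_KZ.Nvs20
import Pool.Agent.W_7d29a1_WP.FinX98
import Pool.Agent.W_7d29a1_PA.TrPA52
import Pool.Agent.W_7d29a1_PA.FinPA81
import Pool.Agent.W_7d29a1_KP.TwoT19
import Pool.Agent.W_7d29a1_KP.RelO27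
import Pool.Agent.W_7d29a1_KP.MainO30
import Pool.Agent.W_7d29a1_QM.GamU42
import Pool.Agent.W_7d29a1_QM.CvF74
import Pool.Agent.W_7d29a1_KP.RelHU19
import Pool.Agent.W_7d29a1_SNP.FinS63

/-!
The scaling exponents in every dimension: the final theorem, with the exponent of the variance, the
exponents of the problem, and dimension two.
-/

namespace Pool.Agent.W_7d29a1_KL

open MeasureTheory ProbabilityTheory Filter Topology Pool.Agent.W_MP_7d29a1_pr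
  Pool.Agent.W_7d29a1_h46 Pool.Agent.W_7d29a1_h46u Pool.Agent.W_7d29a1_D2 Pool.Agent.W_7d29a1_V
  Pool.Agent.W_7d29a1_VT Pool.Agent.W_7d29a1_SP Pool.Agent.W_7d29a1_Q29

/-- **The scaling exponents in every dimension.** -/
theorem finalU {d : ℕ} (hd : 1 ≤ d) {Ω : Type*} [MeasurableSpace Ω] (μ : Measure Ω)
    [IsProbabilityMeasure μ] (ω : ℕ × Site d → Ω → ℝ) (hmeas : ∀ p, Measurable (ω p))
    (hindep : iIndepFun ω μ) (hident : ∀ p q, IdentDistrib (ω p) (ω q) μ μ)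
    (hnc : ∀ p, ¬ ∃ c : ℝ, ∀ᵐ x ∂μ, ω p x = c)
    (hexp : ∀ (b : ℝ) p, Integrable (fun x => Real.exp (b * ω p x)) μ) {β : ℝ} (hβ : 0 < β) :
    -- the exponents of the problem
    nuT μ β ω 0 0 = nu μ β ω ∧ chiT μ β ω 0 = chi μ β ω ∧
    ∃ L : Vec d → ℝ,
      -- the free energy
      (∀ h, ∀ᵐ x ∂μ, Tendsto (fun n : ℕ =>
        Real.log (Zn β h (fun p => ω p x) n) / n) atTop (𝓝 (L h))) ∧
      ConvexOn ℝ Set.univ L ∧ (∀ h : Vec d, h ≠ 0 → L 0 < L h) ∧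
      -- every tilt `h`, every direction `v` (`h = 0`, `v = 0` included)
      (∀ h v : Vec d, 1 < d * nuT μ β ω h v + 2 * chiT μ β ω h ∧
        1 / ((d : ℝ) + 1) < nuT μ β ω h v ∧ 2 * chiV μ β ω h ≤ nuT μ β ω h v ∧
        (∀ x : ℝ, nuT μ β ω h v / 2 < x → FlucLe μ β ω h (L h) x) ∧
        (∀ p : ℝ, 1 ≤ p → UpG L h v p → p < 2 * d + 1 ∧
          p * nuT μ β ω h v ≤ 1 + (p - 1) * chiV μ β ω h) ∧
        nuT μ β ω h v ≤ nuS μ β ω h v ∧
        nuS μ β ω h v ≤ 1 ∧ chiT μ β ω h ≤ chiV μ β ω h ∧ chiV μ β ω h ≤ chiF μ β ω h ∧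
        2 * chiF μ β ω h ≤ nuS μ β ω h v) ∧
      -- dimension two
      (d = 2 → ∀ K : ℝ, ∃ c : ℝ, 0 < c ∧
        (∀ h v : Vec d, ‖h‖ ≤ K → UpG L h v (2 - c) → c ≤ chiT μ β ω h) ∧
        ∀ᵐ v : Vec d, ∀ h : Vec d, ‖h‖ ≤ K → 1 / 2 + c ≤ nuT μ β ω h v) ∧
      -- almost every tilt
      (∀ᵐ h : Vec d, ∃ v : Vec d, SubG L h v ∧ UpG L h v 2 ∧
        (d = 2 → 0 < chiT μ β ω h) ∧ 2 * nuT μ β ω h v - 1 ≤ chiV μ β ω h ∧
        2 * nuS μ β ω h v - 1 ≤ chiF μ β ω h ∧ nuS μ β ω h v ≤ 2 / 3 ∧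
        (FlG L h v ∨ (1 / 2 ≤ nuT μ β ω h v ∧ chiV μ β ω h = 2 * nuT μ β ω h v - 1 ∧
          chiF μ β ω h = 2 * nuS μ β ω h v - 1))) ∧
      -- almost every velocity
      (∀ᵐ v : Vec d, (∑ k, |v k| < 1 → ∃ h, SubG L h v) ∧
        ∀ h : Vec d, 1 / 2 ≤ nuT μ β ω h v ∧ chiV μ β ω h ≤ 2 * nuT μ β ω h v - 1 ∧
          (∀ x : ℝ, 2 * nuT μ β ω h v - 1 < x → FlucLe μ β ω h (L h) x) ∧
          (SubG L h v → InG L h v ∨ (chiV μ β ω h = 2 * nuT μ β ω h v - 1 ∧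
            nuS μ β ω h v ≤ 2 / 3 ∧ chiF μ β ω h = 2 * nuS μ β ω h v - 1))) ∧
      -- one component of the polymer, every tilt
      (∀ h u v : Vec d, nuL μ β ω h u (inner ℝ u v) ≤ nuS μ β ω h v) ∧
      (∀ (h u : Vec d) (s : ℝ), u ≠ 0 → 2 * chiF μ β ω h ≤ nuL μ β ω h u s) ∧
      -- one component of the polymer, every line of tilts
      (∀ h u : Vec d, u ≠ 0 →
        (∀ᵐ r : ℝ, ∃ s : ℝ, SlU L (ray h u r) u s ∧ nuL μ β ω (ray h u r) u s ≤ 2 / 3 ∧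
          2 * nuL μ β ω (ray h u r) u s - 1 ≤ chiF μ β ω (ray h u r) ∧
          (FlU L (ray h u r) u s ∨
            chiF μ β ω (ray h u r) = 2 * nuL μ β ω (ray h u r) u s - 1)) ∧
        ∀ᵐ s : ℝ, ((∃ k, |s| < |u k|) → ∃ r : ℝ, SlU L (ray h u r) u s) ∧
          ∀ r : ℝ, SlU L (ray h u r) u s → 1 / 2 ≤ nuL μ β ω (ray h u r) u s ∧
            (InU L (ray h u r) u s ∨ (nuL μ β ω (ray h u r) u s ≤ 2 / 3 ∧
              chiF μ β ω (ray h u r) = 2 * nuL μ β ω (ray h u r) u s - 1))) := by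
  have hd0 : 0 < d := hd
  set p0 : ℕ × Site d := (0, 0) with hp0
  set ρ : Measure ℝ := μ.map (ω p0) with hρdef
  have : IsProbabilityMeasure ρ := Measure.isProbabilityMeasure_map (hmeas p0).aemeasurable
  have hω : IID μ ρ ω := ⟨hmeas, hindep, fun p => (hident p p0).map_eq⟩
  have hρ : EM ρ := by
    intro b
    rw [hρdef, integrable_map_measure (by fun_prop) (hmeas p0).aemeasurable]
    exact hexp b p0
  have hnc' : ∀ c : ℝ, ρ {c} ≠ 1 := by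
    intro c hc
    apply hnc p0
    refine ⟨c, ?_⟩
    rw [hρdef, Measure.map_apply (hmeas p0) (measurableSet_singleton c)] at hc
    have h1 : MeasurableSet (ω p0 ⁻¹' {c}) := hmeas p0 (measurableSet_singleton c)
    exact (prob_compl_eq_zero_iff h1).2 hc
  have hmp := mp_env hω
  have tr : ∀ {P : (ℕ × Site d → ℝ) → Prop}, (∀ᵐ η ∂(law d ρ), P η) →
      ∀ᵐ x ∂μ, P (fun p => ω p x) := fun hP => hmp.quasiMeasurePreserving.ae hP
  obtain ⟨-, -, -, a4, a5, L, l1, lc, l2, l3, l4, l5, l6, l7, l8, l9, l10, l11, l12⟩ :=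
    finalR hd μ ω hmeas hindep hident hnc hexp hβ
  have hL : ∀ h, L h = lam ρ β h - Real.log (2 * d) := by
    intro h
    have h1 : ∀ᵐ x ∂μ, Tendsto (fun n : ℕ =>
        Real.log (Zn β h (fun p => ω p x) n) / n) atTop
          (𝓝 (lam ρ β h - Real.log (2 * d))) := by
      filter_upwards [tr (W_7d29a1_h3.ae_X hd0 hρ β h)] with x hx
      refine (hx.sub_const (Real.log (2 * d))).congr' ?_
      filter_upwards [eventually_ge_atTop 1] with n hn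
      have hn0 : (n : ℝ) ≠ 0 := by
        have : (0 : ℝ) < n := by exact_mod_cast hn
        exact this.ne'
      rw [StrA_log hd0, Real.log_pow]
      field_simp
    obtain ⟨x, hx1, hx2⟩ := ((l1 h).and h1).exists
    exact tendsto_nhds_unique hx1 hx2
  have hlN : ∀ h, L h = W_7d29a1_Q29.lamN ρ β h := fun h => hL h
  have hgt : ∀ h : Vec d, h ≠ 0 → L 0 < L h := by
    obtain ⟨-, -, -, -, -, L', m1, -, -, -, -, -, m6, -⟩ :=
      finalQ hd μ ω hmeas hindep hident hnc hexp hβ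
    have hLL : ∀ h, L' h = L h := by
      intro h
      obtain ⟨x, hx1, hx2⟩ := ((m1 h).and (l1 h)).exists
      exact tendsto_nhds_unique hx1 hx2
    intro h hh
    obtain ⟨c, hc, H⟩ := m6 1 one_pos
    have hn : 0 < ‖h‖ := norm_pos_iff.2 hh
    obtain ⟨t, ht⟩ : ∃ t : ℝ, t = min 1 (1 / ‖h‖) := ⟨_, rfl⟩
    have ht0 : 0 < t := by
      rw [ht]
      exact lt_min one_pos (by positivity)
    have ht1 : t ≤ 1 := by
      rw [ht]
      exact min_le_left _ _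
    have hth : ‖t • h‖ = t * ‖h‖ := by rw [norm_smul, Real.norm_of_nonneg ht0.le]
    have hth1 : ‖t • h‖ ≤ 1 := by
      rw [hth]
      have h1 : t ≤ 1 / ‖h‖ := by
        rw [ht]
        exact min_le_right _ _
      calc t * ‖h‖ ≤ 1 / ‖h‖ * ‖h‖ := mul_le_mul_of_nonneg_right h1 hn.le
        _ = 1 := one_div_mul_cancel hn.ne'
    have h2 := H (t • h) hth1
    rw [hLL, hLL] at h2
    have h3 : 0 < c * ‖t • h‖ ^ (2 * (d : ℝ) + 1 + 1) := by
      have : 0 < ‖t • h‖ := by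
        rw [hth]
        positivity
      positivity
    have h4 := lc.2 (Set.mem_univ (0 : Vec d)) (Set.mem_univ h) (sub_nonneg.2 ht1) ht0.le
      (sub_add_cancel 1 t)
    rw [smul_zero, zero_add, smul_eq_mul, smul_eq_mul] at h4
    have h5 : t * L 0 < t * L h := by linarith
    exact lt_of_mul_lt_mul_left h5 ht0.le
  have hSub : ∀ h v : Vec d, SubG L h v →
      ∀ k : Vec d, lam ρ β h + inner ℝ v k ≤ lam ρ β (h + k) := by
    intro h v hv k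
    have h1 := hv k
    rw [hL, hL] at h1
    linarith
  have hUp : ∀ (h v : Vec d) (p : ℝ), UpG L h v p → UpG (lam ρ β) h v p := by
    rintro h v p ⟨C, δ, hδ, hC⟩
    refine ⟨C, δ, hδ, fun r hr => ?_⟩
    have h1 := hC r hr
    unfold gap at h1 ⊢
    rw [hL, hL] at h1
    linarith
  have hFl : ∀ h v : Vec d, FlG (lam ρ β) h v → FlG L h v := by
    intro h v hf ε hε
    obtain ⟨δ, hδ, hC⟩ := hf ε hε
    refine ⟨δ, hδ, fun r hr => ?_⟩
    have h1 := hC r hr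
    rw [hL, hL]
    linarith
  have hKA : W_7d29a1_KZ.MainKA d ρ β := W_7d29a1_KZ.mainKAll5 hd0 hρ hnc' hβ
  have hnn : ∀ h v : Vec d, nuP μ β ω h v ≤ nuT μ β ω h v :=
    fun h v => W_7d29a1_KP.nuP_le_nuT19 (ρ := ρ) hd0 hω h v
  have hB0 : ∀ᵐ v : Vec d, ∀ h : Vec d, 1 / 2 ≤ nuP μ β ω h v ∧
      chiV μ β ω h ≤ 2 * nuP μ β ω h v - 1 ∧ ∀ x : ℝ, 2 * nuP μ β ω h v - 1 < x →
        FlucLe μ β ω h (L h) x := by
    filter_upwards [W_7d29a1_KP.relB19 (μ := μ) (ω := ω) (β := β) hd0 hω hρ hKA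
      (W_7d29a1_KZ.nvsP20 hd0 hρ hnc' hβ)] with v hv h
    rw [hlN]
    exact hv h
  have hB : ∀ᵐ v : Vec d, ∀ h : Vec d, 1 / 2 ≤ nuT μ β ω h v ∧
      chiV μ β ω h ≤ 2 * nuT μ β ω h v - 1 ∧ ∀ x : ℝ, 2 * nuT μ β ω h v - 1 < x →
        FlucLe μ β ω h (L h) x := by
    filter_upwards [hB0] with v hv h
    have h1 := hnn h v
    obtain ⟨b1, b2, b3⟩ := hv h
    exact ⟨by linarith, by linarith, fun x hx => b3 x (by linarith)⟩
  have hOW : ∀ h v : Vec d, 1 < d * nuT μ β ω h v + 2 * chiT μ β ω h := W_7d29a1_SNP.snpAll63 hd0 hω hρ hnc' hβ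
  have hA : ∀ᵐ h : Vec d, ∀ v : Vec d,
      (∀ k : Vec d, lam ρ β h + inner ℝ v k ≤ lam ρ β (h + k)) →
        2 * nuT μ β ω h v - 1 ≤ chiV μ β ω h := W_7d29a1_KP.relO27 hd0 hω hρ (W_7d29a1_KP.mainHOU30 hd0 hρ hnc' hβ)
  have hK := kpzv46 (c := fun h => chiV μ β ω h) (n := fun h v => nuT μ β ω h v) lc
    (hA.mono fun h hh v hv => hh v (hSub h v hv)) (hB.mono fun v hv h => (hv h).2.1)
  have hCh : d = 2 → ∀ᵐ h : Vec d, 0 < chiT μ β ω h := fun hd2 => W_7d29a1_PA.trPA52 hω hρ hnc' hβ hd2 (W_7d29a1_PA.mainPAU81 hρ hnc' hβ)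
  have hKH : ∀ᵐ h : Vec d, ∀ v : Vec d,
      (∀ k : Vec d, lam ρ β h + inner ℝ v k ≤ lam ρ β (h + k)) →
        FlG (lam ρ β) h v ∨ (1 / 2 ≤ nuT μ β ω h v ∧
          chiV μ β ω h ≤ 2 * nuT μ β ω h v - 1) := W_7d29a1_KP.relHTU19 hd0 hω hρ hnc' hβ
  refine ⟨a4, a5, L, l1, lc, hgt, fun h v => ?_, fun hd2 K => ?_, ?_, ?_, l4,
    fun h u s hu => (l5 h u s hu).1, fun h u hu => ?_⟩
  · obtain ⟨b1, b2, b3, b4, b5, b6, b7, b8, b9, b10⟩ := l2 h v
    have b2' : ∀ x : ℝ, nuT μ β ω h v / 2 < x → FlucLe μ β ω h (L h) x := fun x hx => b2 x hx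
    have hV0 : 2 * chiV μ β ω h ≤ nuP μ β ω h v := W_7d29a1_KP.two_chiV19 hd0 hω hρ h v
    have hV : 2 * chiV μ β ω h ≤ nuT μ β ω h v := by
      have := hnn h v
      linarith
    have hc1 : 1 < ((d : ℝ) + 1) * nuT μ β ω h v := by
      have h5 := hOW h v
      have h6 := W_7d29a1_KP.chiT_le_chiV19 (μ := μ) (ω := ω) (β := β) hd0 hω hρ h
      have h7 := hnn h v
      have e : ((d : ℝ) + 1) * nuT μ β ω h v = d * nuT μ β ω h v + nuT μ β ω h v := by ring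
      rw [e]
      linarith
    have hUpp : ∀ p : ℝ, 1 ≤ p → UpG L h v p → p < 2 * d + 1 ∧
        p * nuT μ β ω h v ≤ 1 + (p - 1) * chiV μ β ω h := by
      intro p hp hu
      have h1 := (W_7d29a1_CV.upTU42 (μ := μ) (ω := ω) hd0 hω hρ hnc' hβ) h v p hp (hUp h v p hu)
      refine ⟨?_, h1⟩
      by_contra hcon
      have h2 : 2 * (d : ℝ) + 1 ≤ p := not_lt.1 hcon
      have hn0 : 0 < nuT μ β ω h v := by
        by_contra h8
        have h9 := not_lt.1 h8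
        have hd1 : (0 : ℝ) < (d : ℝ) + 1 := by positivity
        nlinarith
      have h3 : (p - 1) * (2 * chiV μ β ω h) ≤ (p - 1) * nuT μ β ω h v :=
        mul_le_mul_of_nonneg_left hV (by linarith)
      have h4 : (p + 1) * nuT μ β ω h v ≤ 2 := by linarith
      have h5 : 2 * (((d : ℝ) + 1) * nuT μ β ω h v) ≤ (p + 1) * nuT μ β ω h v := by
        have := mul_le_mul_of_nonneg_right (show 2 * ((d : ℝ) + 1) ≤ p + 1 by linarith) hn0.le
        linarith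
      linarith
    exact ⟨hOW h v, by
      rw [div_lt_iff₀ (by positivity)]
      linarith, hV, b2', hUpp, b5, b6,
      W_7d29a1_KP.chiT_le_chiV19 hd0 hω hρ h, chiV_le46 hd0 hω hρ h, b8⟩
  · obtain ⟨c, hc, hcv⟩ := nuPU46 hω hρ hnc' hβ hd2 hKA (W_7d29a1_WP.pointAll98 hρ hnc' hβ) K
    obtain ⟨c', hc', hch⟩ := W_7d29a1_CV.curvTwo74 (μ := μ) (ω := ω) hd2 hω hρ hnc' hβ K
    refine ⟨min c c', lt_min hc hc', fun h v hh hu =>
      (min_le_right _ _).trans (hch h v hh (2 - min c c') (by linarith [min_le_right c c'])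
        (hUp h v _ hu)), hcv.mono fun v hv h hh => ?_⟩
    have h1 := hv h hh
    have h2 := hnn h v
    have h3 := min_le_left c c'
    linarith
  · have hCh' : ∀ᵐ h : Vec d, d = 2 → 0 < chiT μ β ω h := by
      by_cases hd2 : d = 2
      · filter_upwards [hCh hd2] with h hh _
        exact hh
      · exact ae_of_all _ fun h hh => absurd hh hd2
    filter_upwards [l6, hCh', hK.1, hKH] with h hh hh2 hh3 hh4
    obtain ⟨v, b1, b2, b3, b4, b5, -⟩ := hh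
    exact ⟨v, b1, b2, hh2, (hh3 v b1).1, b4, b3, by
      rcases b5 with h1 | h1
      · exact Or.inl h1
      · rcases hh4 v (hSub h v b1) with h2 | h2
        · exact Or.inl (hFl h v h2)
        · exact Or.inr ⟨h2.1, le_antisymm h2.2 (hh3 v b1).1, h1.2⟩⟩
  · filter_upwards [l7, hB, hK.2] with v hv hv2 hv3
    refine ⟨hv.1, fun h => ⟨(hv2 h).1, (hv2 h).2.1, (hv2 h).2.2, fun hh => ?_⟩⟩
    rcases (hv.2 h hh).2 with h1 | h1
    · exact Or.inl h1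
    · rcases hv3 h hh with h2 | h2
      · exact Or.inl h2
      · exact Or.inr ⟨h2, h1⟩
  · obtain ⟨b1, b2, -⟩ := l10 h u hu
    refine ⟨?_, ?_⟩
    · filter_upwards [b1] with r hr
      obtain ⟨s, c1, c2, c3, c4⟩ := hr
      exact ⟨s, c1, c2, c3, c4.imp_right fun h => h.2⟩
    · exact b2

end Pool.Agent.W_7d29a1_KL
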