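import Pool.Agent.W_7d29a1_KL.FinU46
import Pool.Agent.W_7d29a1_PK.PB34
import Pool.Agent.W_7d29a1_PK.Cor39
import Pool.Agent.W_7d29a1_PK.Let98
import Pool.Agent.W_7d29a1_PK.LKAll63
import Pool.Agent.W_7d29a1_PK.BonLo63
import Pool.Agent.W_7d29a1_PK.BL77
import Pool.Agent.W_7d29a1_PK.NrV11
import Pool.Agent.W_7d29a1_V.LoA46
import Pool.Agent.W_7d29a1_PK.Ord63

/-!
The scaling exponents in every dimension: the final theorem, with the relation at a single tilt.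
-/

namespace Pool.Agent.W_7d29a1_KL

open MeasureTheory ProbabilityTheory Filter Topology Pool.Agent.W_MP_7d29a1_pr
  Pool.Agent.W_7d29a1_h46 Pool.Agent.W_7d29a1_h46u Pool.Agent.W_7d29a1_D2 Pool.Agent.W_7d29a1_V
  Pool.Agent.W_7d29a1_VT Pool.Agent.W_7d29a1_SP Pool.Agent.W_7d29a1_Q29

open Pool.Agent.W_7d29a1_PK (chiLo nuLo)

/-- Arithmetic of the alternative in dimension two: `n` wandering, `x` fluctuation exponent. -/
theorem alt46 {n x c : ℝ} (hc : 0 < c) (hc2 : c ≤ 1 / 2) (hx : 0 ≤ x)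
    (h1 : 1 + (2 + c - 1) * x ≤ (2 + c) * n) (h2 : c ≤ x ∨ 1 + (2 - c - 1) * x ≤ (2 - c) * n) :
    1 / 2 + c / 6 ≤ n := by
  rcases h2 with h2 | h2
  · by_contra hcon
    have hcon := not_le.1 hcon
    have h3 : (2 + c - 1) * c ≤ (2 + c - 1) * x := mul_le_mul_of_nonneg_left h2 (by linarith)
    have h4 : (2 + c) * n < (2 + c) * (1 / 2 + c / 6) :=
      mul_lt_mul_of_pos_left hcon (by linarith)
    nlinarith
  · by_contra hcon
    have hcon := not_le.1 hcon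
    have h3 : 0 ≤ (2 - c - 1) * x := mul_nonneg (by linarith) hx
    have h4 : (2 - c) * n < (2 - c) * (1 / 2 + c / 6) :=
      mul_lt_mul_of_pos_left hcon (by linarith)
    nlinarith

/-- **The scaling exponents in every dimension.** -/
theorem finalV {d : ℕ} (hd : 1 ≤ d) {Ω : Type*} [MeasurableSpace Ω] (μ : Measure Ω)
    [IsProbabilityMeasure μ] (ω : ℕ × Site d → Ω → ℝ) (hmeas : ∀ p, Measurable (ω p))
    (hindep : iIndepFun ω μ) (hident : ∀ p q, IdentDistrib (ω p) (ω q) μ μ)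
    (hnc : ∀ p, ¬ ∃ c : ℝ, ∀ᵐ x ∂μ, ω p x = c)
    (hexp : ∀ (b : ℝ) p, Integrable (fun x => Real.exp (b * ω p x)) μ) {β : ℝ} (hβ : 0 < β) :
    -- the exponents of the problem
    nuT μ β ω 0 0 = nu μ β ω ∧ chiT μ β ω 0 = chi μ β ω ∧
    ∃ L : Vec d → ℝ,
      -- the free energy
      (∀ h, ∀ᵐ x ∂μ, Tendsto (fun n : ℕ =>
        Real.log (Zn β h (fun p => ω p x) n) / n) atTop (𝓝 (L h))) ∧
      ConvexOn ℝ Set.univ L ∧ (∀ h : Vec d, h ≠ 0 → L 0 < L h) ∧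
      -- the scaling relation, every tilt `h`, every direction `v` (`h = 0`, `v = 0` included)
      (∀ h v : Vec d, (LoA L h v 2 → UpG L h v 2 →
          chiF μ β ω h = 2 * nuS μ β ω h v - 1 ∧ chiLo μ β ω h = 2 * nuLo μ β ω h v - 1 ∧
          3 / ((d : ℝ) + 4) < nuS μ β ω h v ∧ nuS μ β ω h v ≤ 2 / 3) ∧
        (∀ p : ℝ, 1 ≤ p → UpG L h v p → p < 2 * d + 1 ∧
          p * nuT μ β ω h v ≤ 1 + (p - 1) * chiV μ β ω h ∧
          p * nuS μ β ω h v ≤ 1 + (p - 1) * chiF μ β ω h) ∧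
        (∀ p : ℝ, 1 ≤ p → ¬ UpG L h v p → 1 + (p - 1) * chiLo μ β ω h ≤ p * nuS μ β ω h v) ∧
        (∀ p : ℝ, 1 < p → ¬ LoA L h v p → p * nuLo μ β ω h v ≤ 1 + (p - 1) * chiF μ β ω h) ∧
        (∀ p : ℝ, 2 * (d : ℝ) + 1 < p → LoA L h v p) ∧
        (nuLo μ β ω h v = nuS μ β ω h v → chiLo μ β ω h = chiF μ β ω h → ∀ e : ℝ, 0 < e →
          UpG L h v ((1 - chiF μ β ω h) / (nuS μ β ω h v - chiF μ β ω h) - e) ∧
          LoA L h v ((1 - chiF μ β ω h) / (nuS μ β ω h v - chiF μ β ω h) + e)) ∧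
        (∀ p : ℝ, 1 < p → LoA L h v p → 1 + (p - 1) * chiF μ β ω h ≤ p * nuS μ β ω h v ∧
          1 + (p - 1) * chiLo μ β ω h ≤ p * nuLo μ β ω h v) ∧
        ∀ p : ℝ, 1 < p → UpG L h v p → p * nuLo μ β ω h v ≤ 1 + (p - 1) * chiLo μ β ω h) ∧
      -- the inequalities, every tilt `h`, every direction `v`
      (∀ h v : Vec d, 1 < d * nuT μ β ω h v + 2 * chiT μ β ω h ∧
        1 / ((d : ℝ) + 1) < nuT μ β ω h v ∧ 2 * chiV μ β ω h ≤ nuT μ β ω h v ∧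
        nuT μ β ω h v ≤ nuS μ β ω h v ∧ nuS μ β ω h v ≤ 1 ∧ chiT μ β ω h ≤ chiV μ β ω h ∧
        chiV μ β ω h ≤ chiF μ β ω h ∧ 2 * chiF μ β ω h ≤ nuS μ β ω h v ∧
        chiT μ β ω h ≤ chiLo μ β ω h ∧ chiLo μ β ω h ≤ chiF μ β ω h ∧
        nuLo μ β ω h v ≤ nuS μ β ω h v ∧
        ∀ x : ℝ, chiV μ β ω h < x → ∀ᶠ n : ℕ in atTop,
          0 ≤ n * L h - ∫ y, Real.log (Zn β h (fun p => ω p y) n) ∂μ ∧
          n * L h - ∫ y, Real.log (Zn β h (fun p => ω p y) n) ∂μ ≤ (n : ℝ) ^ x) ∧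
      -- dimension two
      (d = 2 → ∀ K : ℝ, ∃ c : ℝ, 0 < c ∧
        (∀ h v : Vec d, ‖h‖ ≤ K → UpG L h v (2 - c) → c ≤ chiT μ β ω h) ∧
        (∀ h v : Vec d, ‖h‖ ≤ K → ¬ UpG L h v (2 + c) → 1 / 2 + c ≤ nuS μ β ω h v) ∧
        ∀ᵐ v : Vec d, ∀ h : Vec d, ‖h‖ ≤ K → 1 / 2 + c ≤ nuT μ β ω h v) ∧
      -- almost every tilt
      (∀ᵐ h : Vec d, ∃ v : Vec d, SubG L h v ∧ UpG L h v 2 ∧ (d = 2 → 0 < chiT μ β ω h) ∧
        2 * nuT μ β ω h v - 1 ≤ chiV μ β ω h ∧ nuS μ β ω h v ≤ 2 / 3 ∧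
        (FlG L h v ∨ (1 / 2 ≤ nuT μ β ω h v ∧ chiV μ β ω h = 2 * nuT μ β ω h v - 1 ∧
          chiF μ β ω h = 2 * nuS μ β ω h v - 1))) ∧
      -- almost every velocity
      (∀ᵐ v : Vec d, (∑ k, |v k| < 1 → ∃ h, SubG L h v) ∧
        ∀ h : Vec d, 1 / 2 ≤ nuT μ β ω h v ∧ chiV μ β ω h ≤ 2 * nuT μ β ω h v - 1 ∧
          (SubG L h v → InG L h v ∨ (chiV μ β ω h = 2 * nuT μ β ω h v - 1 ∧
            nuS μ β ω h v ≤ 2 / 3 ∧ chiF μ β ω h = 2 * nuS μ β ω h v - 1))) := by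
  have hd0 : 0 < d := hd
  set p0 : ℕ × Site d := (0, 0) with hp0
  set ρ : Measure ℝ := μ.map (ω p0) with hρdef
  have : IsProbabilityMeasure ρ := Measure.isProbabilityMeasure_map (hmeas p0).aemeasurable
  have hω : IID μ ρ ω := ⟨hmeas, hindep, fun p => (hident p p0).map_eq⟩
  have hρ : EM ρ := by
    intro b
    rw [hρdef, integrable_map_measure (by fun_prop) (hmeas p0).aemeasurable]
    exact hexp b p0
  have hnc' : ∀ c : ℝ, ρ {c} ≠ 1 := by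
    intro c hc
    apply hnc p0
    refine ⟨c, ?_⟩
    rw [hρdef, Measure.map_apply (hmeas p0) (measurableSet_singleton c)] at hc
    have h1 : MeasurableSet (ω p0 ⁻¹' {c}) := hmeas p0 (measurableSet_singleton c)
    exact (prob_compl_eq_zero_iff h1).2 hc
  have hmp := mp_env hω
  have tr : ∀ {P : (ℕ × Site d → ℝ) → Prop}, (∀ᵐ η ∂(law d ρ), P η) →
      ∀ᵐ x ∂μ, P (fun p => ω p x) := fun hP => hmp.quasiMeasurePreserving.ae hP
  obtain ⟨a4, a5, L, l1, lc, lg, l2, l3, l4, l5, -⟩ :=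
    finalU hd μ ω hmeas hindep hident hnc hexp hβ
  have hL : ∀ h, L h = lam ρ β h - Real.log (2 * d) := by
    intro h
    have h1 : ∀ᵐ x ∂μ, Tendsto (fun n : ℕ =>
        Real.log (Zn β h (fun p => ω p x) n) / n) atTop
          (𝓝 (lam ρ β h - Real.log (2 * d))) := by
      filter_upwards [tr (W_7d29a1_h3.ae_X hd0 hρ β h)] with x hx
      refine (hx.sub_const (Real.log (2 * d))).congr' ?_
      filter_upwards [eventually_ge_atTop 1] with n hn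
      have hn0 : (n : ℝ) ≠ 0 := by
        have : (0 : ℝ) < n := by exact_mod_cast hn
        exact this.ne'
      rw [StrA_log hd0, Real.log_pow]
      field_simp
    obtain ⟨x, hx1, hx2⟩ := ((l1 h).and h1).exists
    exact tendsto_nhds_unique hx1 hx2
  have hNR : ∀ (h : Vec d) (x : ℝ), chiV μ β ω h < x → ∀ᶠ n : ℕ in atTop,
      0 ≤ n * L h - ∫ y, Real.log (Zn β h (fun p => ω p y) n) ∂μ ∧
      n * L h - ∫ y, Real.log (Zn β h (fun p => ω p y) n) ∂μ ≤ (n : ℝ) ^ x := by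
    intro h x hx
    rw [hL]
    exact W_7d29a1_PK.Nr11.nrV11 hd0 hω hρ hnc' hβ h hx
  have hAA : ∀ (h v : Vec d) (p : ℝ), 1 ≤ p → UpG L h v p →
      p * nuS μ β ω h v ≤ 1 + (p - 1) * chiF μ β ω h := by
    rintro h v p hp ⟨C, δ, hδ, hC⟩
    have H : UpG (lam ρ β) h v p := by
      refine ⟨C, δ, hδ, fun r hr => ?_⟩
      have h1 := hC r hr
      unfold gap at h1 ⊢
      rw [hL, hL] at h1
      linarith
    exact W_7d29a1_PK.litA1_34 (μ := μ) (ω := ω) hd0 hω hρ hnc' hβ h v p hp H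
  have hBB : ∀ (h v : Vec d) (p : ℝ), 1 ≤ p → ¬ UpG L h v p →
      1 + (p - 1) * chiLo μ β ω h ≤ p * nuS μ β ω h v := by
    intro h v p hp hn
    have hn2 : ¬ UpG (lam ρ β) h v p := by
      rintro ⟨C, δ, hδ, hC⟩
      refine hn ⟨C, δ, hδ, fun r hr => ?_⟩
      have h1 := hC r hr
      unfold gap at h1 ⊢
      rw [hL, hL]
      linarith
    exact W_7d29a1_PK.L63.bonLoAll63 (μ := μ) (ω := ω) hd0 hω hρ hnc' hβ hp hn2
  have hLoA : ∀ (h v : Vec d) (p : ℝ), LoA (lam ρ β) h v p → LoA L h v p := by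
    rintro h v p ⟨c, hc, δ, hδ, hC⟩
    refine ⟨c, hc, δ, hδ, fun s hs hs2 => ?_⟩
    obtain ⟨r, hr, h1⟩ := hC s hs hs2
    refine ⟨r, hr, ?_⟩
    unfold gap at h1 ⊢
    rw [hL, hL]
    linarith
  have hDD : ∀ (h v : Vec d) (p : ℝ), 1 < p → ¬ LoA L h v p →
      p * nuLo μ β ω h v ≤ 1 + (p - 1) * chiF μ β ω h := by
    intro h v p hp hn
    exact W_7d29a1_PK.L63.blLo63 hd0 hω hρ hp
      (fun a x hx hx1 hF hE hax => W_7d29a1_PK.blM77 hd0 hρ hnc' hβ h v p a x hp hx hx1 hF hE hax)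
      fun H => hn (hLoA h v p H)
  have hKK : ∀ (h v : Vec d) (p : ℝ), 1 < p → LoA L h v p →
      1 + (p - 1) * chiF μ β ω h ≤ p * nuS μ β ω h v := by
    rintro h v p hp ⟨c, hc, δ, hδ, hC⟩
    have H : LoA (lam ρ β) h v p := by
      refine ⟨c, hc, δ, hδ, fun s hs hs2 => ?_⟩
      obtain ⟨r, hr, h1⟩ := hC s hs hs2
      refine ⟨r, hr, ?_⟩
      unfold gap at h1 ⊢
      rw [hL, hL] at h1
      linarith
    exact W_7d29a1_PK.L98.letT98 (μ := μ) (ω := ω) (W_7d29a1_PK.mainTAll2 hd0 hρ hnc' hβ) hd0 hω hρ hp.le H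
  have hC2 : ∀ (h v : Vec d) (p : ℝ), 1 < p → LoA L h v p →
      1 + (p - 1) * chiLo μ β ω h ≤ p * nuLo μ β ω h v := by
    rintro h v p hp ⟨c, hc, δ, hδ, hC⟩
    have H : LoA (lam ρ β) h v p := by
      refine ⟨c, hc, δ, hδ, fun s hs hs2 => ?_⟩
      obtain ⟨r, hr, h1⟩ := hC s hs hs2
      refine ⟨r, hr, ?_⟩
      unfold gap at h1 ⊢
      rw [hL, hL] at h1
      linarith
    exact W_7d29a1_PK.lkC2All63 (μ := μ) (ω := ω) hd0 hω hρ hnc' hβ hp.le H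
  have hC1 : ∀ (h v : Vec d) (p : ℝ), 1 < p → UpG L h v p →
      p * nuLo μ β ω h v ≤ 1 + (p - 1) * chiLo μ β ω h := by
    rintro h v p hp ⟨C, δ, hδ, hC⟩
    have H : UpG (lam ρ β) h v p := by
      refine ⟨C, δ, hδ, fun r hr => ?_⟩
      have h1 := hC r hr
      unfold gap at h1 ⊢
      rw [hL, hL] at h1
      linarith
    exact W_7d29a1_PK.lkC1All63 (μ := μ) (ω := ω) hd0 hω hρ hnc' hβ hp H
  refine ⟨a4, a5, L, l1, lc, lg, fun h v => ?_, fun h v => ?_, fun hd2 K => ?_, ?_, ?_⟩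
  · have hb := (l2 h v).2.2.2.2.1
    refine ⟨fun H1 H2 => ?_, fun p hp H => ?_, hBB h v, hDD h v, fun p hp => hLoA h v p (loA46 hd0 hnc' hρ hβ h v hp), fun e1 e2 e he => ?_, fun p hp H => ⟨hKK h v p hp H, hC2 h v p hp H⟩, hC1 h v⟩
    · have h1 := hAA h v 2 (by norm_num) H2
      have h2 := hKK h v 2 (by norm_num) H1
      obtain ⟨b1, -, -, -, -, b6, -, b8, b9, b10⟩ := l2 h v
      have h4 : (d : ℝ) * nuT μ β ω h v ≤ d * nuS μ β ω h v :=
        mul_le_mul_of_nonneg_left b6 (Nat.cast_nonneg d)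
      have h5 := hC1 h v 2 (by norm_num) H2
      have h6 := hC2 h v 2 (by norm_num) H1
      refine ⟨by linarith, by linarith, ?_, by linarith⟩
      rw [div_lt_iff₀ (by positivity)]
      linarith
    · exact ⟨(hb p hp H).1, (hb p hp H).2, hAA h v p hp H⟩
    · obtain ⟨-, b2, -, -, -, b6, b7, -, -, b10⟩ := l2 h v
      have h0 : 0 < 1 / ((d : ℝ) + 1) := by positivity
      have h1 : 0 < nuS μ β ω h v - chiF μ β ω h := by linarith
      refine W_7d29a1_PK.L63.ord63 (sub_pos.1 h1) b7 ?_ (fun p hp hn => ?_) (fun p hp hn => ?_) he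
      · obtain ⟨C, δ, hδ, hC⟩ := W_7d29a1_PK.L63.upG_one63 hd0 hρ β h v
        refine ⟨C, δ, hδ, fun r hr => ?_⟩
        have h2 := hC r hr
        unfold gap at h2 ⊢
        rw [hL, hL]
        linarith
      · have h2 := hBB h v p hp.le hn
        rw [e2] at h2
        linarith
      · have h2 := hDD h v p hp hn
        rw [e1] at h2
        linarith
  · obtain ⟨b1, b2, b3, -, -, b6, b7, b8, b9, b10⟩ := l2 h v
    exact ⟨b1, b2, b3, b6, b7, b8, b9, b10, W_7d29a1_PK.L63.chiT_le_chiLo63 hd0 hω hρ h,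
      W_7d29a1_PK.L63.chiLo_le_chiF63 hd0 hω hρ h, W_7d29a1_PK.L63.nuLo_le_nuS63 hd0 hω h v,
      fun x hx => hNR h x hx⟩
  · obtain ⟨c, hc, hch, hcv⟩ := l3 hd2 K
    have hc1 : 0 < min c (1 / 2) := lt_min hc (by norm_num)
    have hc2 := min_le_left c (1 / 2)
    have hc3 := min_le_right c (1 / 2)
    refine ⟨min c (1 / 2) / 6, by linarith, fun h v hh hu => ?_, fun h v hh hu => ?_,
      hcv.mono fun v hv h hh => ?_⟩
    · have h1 := hch h v hh (W_7d29a1_PK.upG_anti (by linarith) (by linarith) hu)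
      linarith
    · have hx1 : chiT μ β ω h ≤ chiLo μ β ω h := W_7d29a1_PK.L63.chiT_le_chiLo63 hd0 hω hρ h
      have hx2 : 0 ≤ chiT μ β ω h := Real.sSup_nonneg fun _ hx => hx.1.le
      have hx0 : 0 ≤ chiLo μ β ω h := hx2.trans hx1
      refine alt46 hc1 hc3 hx0 (hBB h v _ (by linarith) fun hn =>
        hu (W_7d29a1_PK.upG_anti (by linarith) (by linarith) hn)) ?_
      by_cases hu2 : UpG L h v (2 - min c (1 / 2))
      · left
        have h1 := hch h v hh (W_7d29a1_PK.upG_anti (by linarith) (by linarith) hu2)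
        linarith
      · right
        exact hBB h v _ (by linarith) hu2
    · have h1 := hv h hh
      linarith
  · filter_upwards [l4] with h hh
    obtain ⟨v, b1, b2, b3, b4, -, b6, b7⟩ := hh
    exact ⟨v, b1, b2, b3, b4, b6, b7⟩
  · filter_upwards [l5] with v hv
    exact ⟨hv.1, fun h => ⟨(hv.2 h).1, (hv.2 h).2.1, (hv.2 h).2.2.2⟩⟩

end Pool.Agent.W_7d29a1_KL
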