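import Pool.Agent.W_7d29a1_KL.DefsK46
import Pool.Agent.W_7d29a1_h46.Peano

/-!
LEAF F: at almost every tilt of a line a convex function either is flat to second order along the line
or has a second order lower bound on both sides.
-/

namespace Pool.Agent.W_7d29a1_KL

open MeasureTheory ProbabilityTheory Filter Topology Pool.Agent.W_MP_7d29a1_pr
  Pool.Agent.W_7d29a1_h46 Pool.Agent.W_7d29a1_h46u Pool.Agent.W_7d29a1_D2 Pool.Agent.W_7d29a1_V
  Pool.Agent.W_7d29a1_VT

/-- The dichotomy for a convex function of one variable. -/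
theorem dich_line {f : ℝ → ℝ} (hf : ConvexOn ℝ Set.univ f) :
    ∀ᵐ x : ℝ, ∃ s : ℝ, (∀ t : ℝ, f x + s * t ≤ f (x + t)) ∧
      (∃ C δ : ℝ, 0 < δ ∧ ∀ t : ℝ, |t| ≤ δ → f (x + t) - f x - s * t ≤ C * t ^ 2) ∧
      ((∃ c δ : ℝ, 0 < c ∧ 0 < δ ∧ ∀ t : ℝ, |t| ≤ δ → c * t ^ 2 ≤ f (x + t) - f x - s * t) ∨
        ∀ ε : ℝ, 0 < ε → ∃ δ : ℝ, 0 < δ ∧ ∀ t : ℝ, |t| ≤ δ →
          f (x + t) - f x - s * t ≤ ε * t ^ 2) := by
  have hm := Peano_mono hf
  filter_upwards [hm.ae_differentiableAt] with x hd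
  have hD := hd.hasDerivAt
  obtain ⟨α, hα⟩ : ∃ α : ℝ, α = deriv (PeanoG f) x := ⟨_, rfl⟩
  rw [← hα] at hD
  have hα0 : 0 ≤ α := by
    rw [hα]
    exact hm.deriv_nonneg
  -- the expansion of the right derivative
  have hexp : ∀ η : ℝ, 0 < η → ∃ δ : ℝ, 0 < δ ∧ ∀ s : ℝ, |s| ≤ δ →
      |PeanoG f (x + s) - PeanoG f x - α * s| ≤ η * |s| := by
    intro η hη
    have h1 := hD.isLittleO
    rw [Asymptotics.isLittleO_iff] at h1
    have h2 := h1 hη
    rw [Metric.eventually_nhds_iff] at h2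
    obtain ⟨δ, hδ, h2⟩ := h2
    refine ⟨δ / 2, by positivity, fun s hs => ?_⟩
    have h3 := h2 (y := x + s) (by
      rw [Real.dist_eq, add_sub_cancel_left]
      linarith)
    rw [Real.norm_eq_abs, Real.norm_eq_abs, add_sub_cancel_left, smul_eq_mul] at h3
    rw [mul_comm α s]
    exact h3
  -- the upper estimate
  have hup : ∀ η : ℝ, 0 < η → ∃ δ : ℝ, 0 < δ ∧ ∀ t : ℝ, |t| ≤ δ →
      f (x + t) - f x - PeanoG f x * t ≤ (α + η) * t ^ 2 := by
    intro η hη
    obtain ⟨δ, hδ, H⟩ := hexp η hη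
    refine ⟨δ, hδ, fun t ht => ?_⟩
    have h1 := Peano_sub hf (x + t) x
    have e1 : x - (x + t) = -t := by ring
    rw [e1] at h1
    have h2 := H t ht
    have h3 : (PeanoG f (x + t) - PeanoG f x - α * t) * t ≤ η * |t| * |t| := by
      refine (le_abs_self _).trans ?_
      rw [abs_mul]
      exact mul_le_mul_of_nonneg_right h2 (abs_nonneg t)
    have h4 : η * |t| * |t| = η * t ^ 2 := by
      rw [mul_assoc, ← abs_mul, abs_mul_self]
      ring
    rw [h4] at h3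
    nlinarith
  refine ⟨PeanoG f x, fun t => ?_, ?_, ?_⟩
  · have h1 := Peano_sub hf x (x + t)
    rw [add_sub_cancel_left] at h1
    exact h1
  · obtain ⟨δ, hδ, H⟩ := hup 1 one_pos
    exact ⟨α + 1, δ, hδ, H⟩
  rcases hα0.eq_or_lt with h0 | h0
  · right
    intro ε hε
    obtain ⟨δ, hδ, H⟩ := hup ε hε
    refine ⟨δ, hδ, fun t ht => ?_⟩
    have h1 := H t ht
    rw [← h0, zero_add] at h1
    exact h1
  · left
    obtain ⟨δ, hδ, H⟩ := hexp (α / 2) (by positivity)
    refine ⟨α / 8, δ, by positivity, hδ, fun t ht => ?_⟩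
    have ht2 : |t / 2| ≤ δ := by
      rw [abs_div, abs_two]
      linarith [abs_nonneg t]
    have h1 := Peano_sub hf (x + t / 2) (x + t)
    have h2 := Peano_sub hf x (x + t / 2)
    have e1 : x + t - (x + t / 2) = t / 2 := by ring
    rw [e1] at h1
    rw [add_sub_cancel_left] at h2
    have h3 := H (t / 2) ht2
    have h4 : -(α / 2 * |t / 2| * |t / 2|) ≤
        (PeanoG f (x + t / 2) - PeanoG f x - α * (t / 2)) * (t / 2) := by
      refine le_trans (neg_le_neg ?_) (neg_abs_le _)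
      rw [abs_mul]
      exact mul_le_mul_of_nonneg_right h3 (abs_nonneg _)
    have h5 : α / 2 * |t / 2| * |t / 2| = α / 8 * t ^ 2 := by
      rw [mul_assoc, ← abs_mul, abs_mul_self]
      ring
    rw [h5] at h4
    nlinarith

/-- A convex function along a line. -/
lemma convex_line {d : ℕ} {L : Vec d → ℝ} (hL : ConvexOn ℝ Set.univ L) (h0 u : Vec d) :
    ConvexOn ℝ Set.univ fun r : ℝ => L (h0 + r • u) := by
  refine ⟨convex_univ, fun a _ b _ x y hx hy hxy => ?_⟩
  have h1 := hL.2 (Set.mem_univ (h0 + a • u)) (Set.mem_univ (h0 + b • u)) hx hy hxy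
  have h2 : h0 + (x • a + y • b) • u = x • (h0 + a • u) + y • (h0 + b • u) := by
    have h3 : h0 = (x + y) • h0 := by rw [hxy, one_smul]
    nth_rewrite 1 [h3]
    simp only [smul_eq_mul]
    module
  simp only
  rw [h2]
  exact h1

/-- LEAF F. -/
theorem leafF46 (d : ℕ) : LeafF d := by
  intro L hL h0 u
  filter_upwards [dich_line (convex_line hL h0 u)] with r hr
  obtain ⟨s, h1, ⟨C, δ, hδ, h2⟩, h3⟩ := hr
  have e : ∀ t : ℝ, h0 + (r + t) • u = h0 + r • u + t • u := by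
    intro t
    rw [add_smul, add_assoc]
  simp only [e] at h1 h2 h3
  refine ⟨s, h1, ⟨C, δ, hδ, fun t ht => ?_⟩, ?_⟩
  · rw [Real.rpow_two, sq_abs]
    exact h2 t ht
  · rcases h3 with ⟨c, δ', hc, hδ', h3⟩ | h3
    · left
      refine ⟨c, δ', hc, hδ', fun t ht => ?_⟩
      rw [Real.rpow_two, sq_abs]
      exact h3 t ht
    · right
      exact h3

end Pool.Agent.W_7d29a1_KL
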