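import Pool.Agent.W_7d29a1_KL.CoreL46
import Pool.Agent.W_7d29a1_KL.LineF46
import Pool.Agent.W_7d29a1_D2.TrF53

/-!
The relation of the exponents of one component of the polymer on every line of tilts: assembly.
-/

namespace Pool.Agent.W_7d29a1_KL

open MeasureTheory ProbabilityTheory Filter Topology Pool.Agent.W_MP_7d29a1_pr
  Pool.Agent.W_7d29a1_h46 Pool.Agent.W_7d29a1_h46u Pool.Agent.W_7d29a1_D2 Pool.Agent.W_7d29a1_V
  Pool.Agent.W_7d29a1_VT

variable {d : ℕ} {ρ : Measure ℝ} [IsProbabilityMeasure ρ] {β : ℝ} {Ω : Type*} [MeasurableSpace Ω]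
  {μ : Measure Ω} [IsProbabilityMeasure μ] {ω : ℕ × Site d → Ω → ℝ}

/-- **The first inequality on a line.** -/
theorem upU46 (hd : 0 < d) (hω : IID μ ρ ω) (hρ : EM ρ) (hA : LeafA d ρ β) {h u : Vec d}
    {s p : ℝ} (hu : u ≠ 0) (hp : 1 < p) (hDn : DnPU ρ β h u)
    (hs : ∀ r : ℝ, lam ρ β h + s * r ≤ lam ρ β (h + r • u)) (hU : UpU (lam ρ β) h u s p) :
    p * nuL μ β ω h u s ≤ 1 + (p - 1) * chiF μ β ω h := by
  have hp0 : 0 < p := by linarith
  have hc0 : 0 ≤ chiF μ β ω h := chiF_nonneg h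
  have key : ∀ y : ℝ, chiF μ β ω h < y → y < 1 → p * nuL μ β ω h u s ≤ 1 + (p - 1) * y := by
    intro y hy hy1
    obtain ⟨x, hx, hxy⟩ := exists_lt_of_csInf_lt ⟨1 / 2, half_mem_chiSetF hd hω hρ h⟩
      (show sInf (chiSetF μ β ω h) < y from hy)
    obtain ⟨hx0, hF⟩ := (mem_chiSetF hd hω hρ h x).1 hx
    obtain ⟨K, hK, hDK⟩ := hDn x y hxy hF
    have hy0 : 0 < y := hx0.trans hxy
    have h1 : nuL μ β ω h u s ≤ (1 + (p - 1) * y) / p := by
      refine le_of_forall_gt_imp_ge_of_dense fun a ha => ?_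
      have ha1 : 1 + (p - 1) * y < p * a := by
        rw [div_lt_iff₀ hp0] at ha
        linarith
      have ha0 : 0 < a := by
        have h2 : 0 < p * a := lt_of_le_of_lt (by nlinarith) ha1
        exact (mul_pos_iff_of_pos_left hp0).1 h2
      exact csInf_le ⟨0, fun b hb => hb.1.le⟩ ((mem_nuSetL hω h u s a).2
        ⟨ha0, hA K h u s p y a hu hp hy0 hy1 hK hDK hs hU ha1⟩)
    rw [le_div_iff₀ hp0] at h1
    linarith
  refine le_of_forall_pos_le_add fun ε hε => ?_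
  have hhalf := chiF_le_half (β := β) hd hω hρ h
  have h3 : 0 < ε / p := div_pos hε hp0
  have h4 := key (min (chiF μ β ω h + ε / p) (3 / 4)) (lt_min (by linarith) (by linarith))
    ((min_le_right _ _).trans_lt (by norm_num))
  have h6 : (p - 1) * min (chiF μ β ω h + ε / p) (3 / 4) ≤ (p - 1) * (chiF μ β ω h + ε / p) :=
    mul_le_mul_of_nonneg_left (min_le_left _ _) (by linarith)
  have h7 : (p - 1) * (ε / p) ≤ ε := by
    have h8 : (p - 1) * (ε / p) ≤ p * (ε / p) := mul_le_mul_of_nonneg_right (by linarith) h3.le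
    rw [mul_div_cancel₀ _ hp0.ne'] at h8
    exact h8
  rw [mul_add] at h6
  linarith

/-- **The relation of the exponents of one component at almost every tilt of every line**, from the
leaves. -/
theorem kpzL_of (hd : 0 < d) (hω : IID μ ρ ω) (hρ : EM ρ) (hA : LeafA d ρ β) (hD : LeafD d ρ β)
    (hE : LeafE d ρ β) (h0 : Vec d) {u : Vec d} (hu : u ≠ 0) :
    ∀ᵐ r : ℝ, ∃ s : ℝ,
      (∀ t : ℝ, lam ρ β (h0 + r • u) + s * t ≤ lam ρ β (h0 + r • u + t • u)) ∧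
      nuL μ β ω (h0 + r • u) u s ≤ 2 / 3 ∧
      2 * nuL μ β ω (h0 + r • u) u s - 1 ≤ chiF μ β ω (h0 + r • u) ∧
      ((∀ ε : ℝ, 0 < ε → ∃ δ : ℝ, 0 < δ ∧ ∀ t : ℝ, |t| ≤ δ →
          lam ρ β (h0 + r • u + t • u) - lam ρ β (h0 + r • u) - s * t ≤ ε * t ^ 2) ∨
        (1 / 2 ≤ nuL μ β ω (h0 + r • u) u s ∧
          chiF μ β ω (h0 + r • u) = 2 * nuL μ β ω (h0 + r • u) u s - 1)) := by
  have hconv := lam_convex (ρ := ρ) hd hρ β
  filter_upwards [hD h0 u hu, hE h0 u hu, leafF46 d (lam ρ β) hconv h0 u] with r h1 h2 h3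
  obtain ⟨s, hsub, hup, hor⟩ := h3
  obtain ⟨h, hh⟩ : ∃ h : Vec d, h = h0 + r • u := ⟨_, rfl⟩
  rw [← hh] at h1 h2 hsub hup hor ⊢
  have e0 : nuL μ β ω h u s ≤ 2 / 3 := by
    have := nuL_le (μ := μ) (ω := ω) (β := β) hd hω hρ hu one_lt_two hsub hup
    have h2 : (2 : ℝ) / (2 + 1) = 2 / 3 := by norm_num
    rwa [h2] at this
  have e1 : 2 * nuL μ β ω h u s ≤ 1 + chiF μ β ω h := by
    have := upU46 (μ := μ) (ω := ω) hd hω hρ hA hu one_lt_two h1 hsub hup
    linarith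
  refine ⟨s, hsub, e0, by linarith, ?_⟩
  rcases hor with hlo | hsm
  · right
    have e2 : 1 / 2 ≤ nuL μ β ω h u s := by
      by_contra hcon
      obtain ⟨a, ha, ha2⟩ := exists_lt_of_csInf_lt ⟨2, two_mem_nuSetL (β := β) hd hω h u s⟩
        (show sInf (nuSetL μ β ω h u s) < 1 / 2 from not_le.1 hcon)
      obtain ⟨ha0, hT⟩ := (mem_nuSetL hω h u s a).1 ha
      exact h2 s a hup hlo ha0 ha2 hT
    have e3 := expU46 (μ := μ) (ω := ω) (β := β) hd hω hρ hu one_lt_two h1 hlo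
    have hc0 : 0 ≤ chiF μ β ω h := chiF_nonneg h
    refine ⟨e2, ?_⟩
    rcases hc0.eq_or_lt with h4 | h4
    · rw [← h4] at e1 ⊢
      linarith
    · have e5 : (1 + chiF μ β ω h) * chiF μ β ω h ≤
          (2 * nuL μ β ω h u s) * chiF μ β ω h := by
        have e6 : (1 : ℝ) + (2 - 1) * chiF μ β ω h = 1 + chiF μ β ω h := by ring
        rw [e6] at e3
        exact e3
      have e7 := le_of_mul_le_mul_right e5 h4
      linarith
  · left
    exact hsm

end Pool.Agent.W_7d29a1_KL
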