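import Pool.Agent.W_7d29a1_KL.MintyT46
import Pool.Agent.W_7d29a1_D2.AeG6

/-!
Transfer from almost every slope to almost every point for a convex function on `ℝ^d`: for almost
every `h`, every subgradient `v` at `h` is outside of a given null set, or the function is flat to
second order at `h` in some direction.
-/

namespace Pool.Agent.W_7d29a1_KL.Minty46

open MeasureTheory Filter Topology Set Metric Pool.Agent.W_7d29a1_h46 Pool.Agent.W_7d29a1_h46u
  Pool.Agent.W_7d29a1_D2 Pool.Agent.W_7d29a1_V.DimP33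
open scoped ENNReal NNReal

variable {d : ℕ} {L : Vec d → ℝ}

/-- Flat in a direction in which the slope does not move. -/
lemma flat_dir (hL : ConvexOn ℝ univ L) {h v w : Vec d} {C δ : ℝ} (hδ : 0 < δ)
    (H0 : ∀ r : Vec d, ‖r‖ ≤ δ → L (h + r) - L h - inner ℝ v r ≤ C * ‖r‖ ^ 2)
    (H : ∀ ε : ℝ, 0 < ε → ∃ η : ℝ, 0 < η ∧ ∀ σ : ℝ, |σ| ≤ η → ∃ ρ : Vec d, ‖ρ‖ ≤ ε * |σ| ∧
      ∀ k : Vec d, L (h + σ • w - ρ) + inner ℝ (v + ρ) k ≤ L (h + σ • w - ρ + k)) :
    FlU L h w (inner ℝ v w) := by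
  intro ε hε
  obtain ⟨D, hD⟩ : ∃ D : ℝ, D = max C 0 := ⟨_, rfl⟩
  have hD0 : 0 ≤ D := by
    rw [hD]
    exact le_max_right _ _
  have hCD : C ≤ D := by
    rw [hD]
    exact le_max_left _ _
  have hW : 0 ≤ ‖w‖ := norm_nonneg _
  obtain ⟨e, he⟩ : ∃ e : ℝ, e = min 1 (ε / (2 * ‖w‖ + 2 * D + 1)) := ⟨_, rfl⟩
  have hK : 0 < 2 * ‖w‖ + 2 * D + 1 := by positivity
  have he0 : 0 < e := by
    rw [he]
    exact lt_min one_pos (by positivity)
  have he1 : e ≤ 1 := by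
    rw [he]
    exact min_le_left _ _
  have he2 : e * (2 * ‖w‖ + 2 * D + 1) ≤ ε := by
    have : e ≤ ε / (2 * ‖w‖ + 2 * D + 1) := by
      rw [he]
      exact min_le_right _ _
    rwa [le_div_iff₀ hK] at this
  obtain ⟨η, hη, H⟩ := H e he0
  refine ⟨min (η / 2) (δ / 2), lt_min (by positivity) (by positivity), fun t ht => ?_⟩
  have ht1 : |t| ≤ η / 2 := ht.trans (min_le_left _ _)
  have ht2 : |t| ≤ δ / 2 := ht.trans (min_le_right _ _)
  obtain ⟨σ, hσ⟩ : ∃ σ : ℝ, σ = 2 * t := ⟨_, rfl⟩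
  have hσa : |σ| = 2 * |t| := by
    rw [hσ, abs_mul, abs_of_pos two_pos]
  obtain ⟨ρ, hρ, H⟩ := H σ (by rw [hσa]; linarith)
  have hρ1 : ‖ρ‖ ≤ |σ| := by
    refine hρ.trans ?_
    have := mul_le_mul_of_nonneg_right he1 (abs_nonneg σ)
    linarith
  have h1 := H0 ρ (by rw [hσa] at hρ1; linarith)
  have h2 := H (-(σ • w - ρ))
  have e1 : h + σ • w - ρ + -(σ • w - ρ) = h := by abel
  rw [e1, inner_neg_right, inner_add_left, inner_sub_right, inner_sub_right,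
    real_inner_self_eq_norm_sq, inner_smul_right, inner_smul_right] at h2
  have h3 := hL.2 (mem_univ (h + σ • w - ρ)) (mem_univ (h + ρ)) (show (0 : ℝ) ≤ 1 / 2 by norm_num)
    (show (0 : ℝ) ≤ 1 / 2 by norm_num) (by norm_num)
  have e2 : (1 / 2 : ℝ) • (h + σ • w - ρ) + (1 / 2 : ℝ) • (h + ρ) = h + t • w := by
    rw [hσ, smul_sub, smul_add, smul_add, smul_smul]
    have e3 : (1 / 2 : ℝ) • h + (1 / 2 : ℝ) • h = h := by
      rw [← add_smul]
      norm_num
    have e4 : (1 / 2 : ℝ) * (2 * t) = t := by ring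
    rw [e4]
    calc (1 / 2 : ℝ) • h + t • w - (1 / 2 : ℝ) • ρ + ((1 / 2 : ℝ) • h + (1 / 2 : ℝ) • ρ)
        = (1 / 2 : ℝ) • h + (1 / 2 : ℝ) • h + t • w := by abel
      _ = h + t • w := by rw [e3]
  rw [e2] at h3
  simp only [smul_eq_mul] at h3
  have h4 : inner ℝ ρ w ≤ ‖ρ‖ * ‖w‖ := real_inner_le_norm ρ w
  have h4' : -(‖ρ‖ * ‖w‖) ≤ inner ℝ ρ w := (abs_le.1 (abs_real_inner_le_norm ρ w)).1
  have h5 : σ * inner ℝ ρ w ≤ |σ| * (‖ρ‖ * ‖w‖) := by
    rcases le_total 0 σ with h6 | h6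
    · rw [abs_of_nonneg h6]
      exact mul_le_mul_of_nonneg_left h4 h6
    · rw [abs_of_nonpos h6]
      nlinarith
  have h6 : |σ| * (‖ρ‖ * ‖w‖) ≤ 4 * (e * ‖w‖) * t ^ 2 := by
    have h7 : ‖ρ‖ * ‖w‖ ≤ e * |σ| * ‖w‖ := mul_le_mul_of_nonneg_right hρ hW
    have h8 : |σ| * (‖ρ‖ * ‖w‖) ≤ |σ| * (e * |σ| * ‖w‖) :=
      mul_le_mul_of_nonneg_left h7 (abs_nonneg _)
    have h9 : |σ| * (e * |σ| * ‖w‖) = 4 * (e * ‖w‖) * t ^ 2 := by
      rw [hσa, ← sq_abs t]
      ring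
    linarith
  have h7 : C * ‖ρ‖ ^ 2 ≤ 4 * (e * D) * t ^ 2 := by
    have h8 : C * ‖ρ‖ ^ 2 ≤ D * ‖ρ‖ ^ 2 := mul_le_mul_of_nonneg_right hCD (sq_nonneg _)
    have h9 : ‖ρ‖ ^ 2 ≤ (e * |σ|) ^ 2 := pow_le_pow_left₀ (norm_nonneg _) hρ 2
    have h10 : (e * |σ|) ^ 2 = e ^ 2 * (4 * t ^ 2) := by
      rw [hσa, ← sq_abs t]
      ring
    have h11 : e ^ 2 ≤ e := by nlinarith
    have h12 : e ^ 2 * (4 * t ^ 2) ≤ e * (4 * t ^ 2) :=
      mul_le_mul_of_nonneg_right h11 (by positivity)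
    have h13 : D * ‖ρ‖ ^ 2 ≤ D * (e * (4 * t ^ 2)) :=
      mul_le_mul_of_nonneg_left (by linarith) hD0
    linarith
  have h8 : 0 ≤ ‖ρ‖ ^ 2 := sq_nonneg _
  have h9 : e * (2 * ‖w‖ + 2 * D + 1) * t ^ 2 ≤ ε * t ^ 2 :=
    mul_le_mul_of_nonneg_right he2 (sq_nonneg _)
  have h10 : 0 ≤ e * t ^ 2 := by positivity
  have h11 : σ * inner ℝ v w = 2 * (inner ℝ v w * t) := by
    rw [hσ]
    ring
  rw [h11] at h2
  nlinarith

/-- **From almost every slope to almost every point.** -/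
theorem transS46 (hL : ConvexOn ℝ univ L) {N : Set (Vec d)} (hN : volume N = 0) :
    ∀ᵐ h : Vec d, ∀ v : Vec d, (∀ k : Vec d, L h + inner ℝ v k ≤ L (h + k)) →
      v ∉ N ∨ ∃ w : Vec d, w ≠ 0 ∧ FlU L h w (inner ℝ v w) := by
  choose H hH using exists_prox hL
  have hmono : ∀ z z' : Vec d, 0 ≤ inner ℝ ((z' - H z') - (z - H z)) (H z' - H z) :=
    fun z z' => mono (hH z) (hH z')
  have hsum : ∀ z z' : Vec d, ((z' - H z') - (z - H z)) + (H z' - H z) = z' - z := by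
    intro z z'
    abel
  have hHl : LipschitzWith 1 H := by
    refine LipschitzWith.of_dist_le_mul fun z z' => ?_
    rw [NNReal.coe_one, one_mul, dist_eq_norm, dist_eq_norm]
    have := (mono_lip (hmono z' z)).2
    rwa [hsum] at this
  have huni : ∀ h v : Vec d, (∀ k : Vec d, L h + inner ℝ v k ≤ L (h + k)) → H (h + v) = h := by
    intro h v hv
    have h1 := mono hv (hH (h + v))
    have h2 : h + v - H (h + v) - v = -(H (h + v) - h) := by abel
    rw [h2, inner_neg_left, real_inner_self_eq_norm_sq] at h1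
    have h3 : ‖H (h + v) - h‖ ^ 2 = 0 := le_antisymm (by linarith) (sq_nonneg _)
    exact sub_eq_zero.1 (norm_eq_zero.1 (pow_eq_zero_iff (two_ne_zero) |>.1 h3))
  have hZ1 : volume {z | ¬ DifferentiableAt ℝ H z} = 0 := hHl.ae_differentiableAt
  have hZ2 := null_exp (H := fun z => z - H z) hN
  have h1 := null_image (hHl.lipschitzOnWith (s := {z | ¬ DifferentiableAt ℝ H z})) hZ1
  have h2 := null_image (hHl.lipschitzOnWith (s := {z | z - H z ∈ N ∧ ∃ m : ℕ, ∀ z',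
    ‖z' - z‖ ≤ 1 / ((m : ℝ) + 1) →
      ‖z' - z‖ ≤ ((m : ℝ) + 1) * ‖(z' - H z') - (z - H z)‖})) hZ2
  filter_upwards [measure_eq_zero_iff_ae_notMem.1 h1, measure_eq_zero_iff_ae_notMem.1 h2,
    ae_upG hL] with h hh1 hh2 hup v hv
  obtain ⟨z, hz⟩ : ∃ z : Vec d, z = h + v := ⟨_, rfl⟩
  have hHz : H z = h := by
    rw [hz]
    exact huni h v hv
  have hVz : z - H z = v := by
    rw [hHz, hz, add_sub_cancel_left]
  have hdiff : DifferentiableAt ℝ H z := by
    by_contra hcon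
    exact hh1 ⟨z, hcon, hHz⟩
  have hVd : HasFDerivAt (fun z => z - H z) (ContinuousLinearMap.id ℝ (Vec d) - fderiv ℝ H z) z :=
    (hasFDerivAt_id z).sub hdiff.hasFDerivAt
  by_cases hinj : ∀ w : Vec d, (ContinuousLinearMap.id ℝ (Vec d) - fderiv ℝ H z) w = 0 → w = 0
  · left
    intro hcon
    refine hh2 ⟨z, ⟨?_, exp_near hVd hinj⟩, hHz⟩
    rw [hVz]
    exact hcon
  · right
    push Not at hinj
    obtain ⟨w, hw, hw0⟩ := hinj
    have hwn : 0 < ‖w‖ := norm_pos_iff.2 hw0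
    obtain ⟨v', C, δ, hδ, hU⟩ := hup
    have hvv : v' = v := by
      have h3 : v - v' = 0 := by
        refine lin_zero (C := max C 0) (le_max_right _ _) hδ fun w hw => ?_
        have h3 := hU w hw
        have h4 := hv w
        unfold gap at h3
        rw [rpow_two_real] at h3
        have h5 : C * ‖w‖ ^ 2 ≤ max C 0 * ‖w‖ ^ 2 :=
          mul_le_mul_of_nonneg_right (le_max_left _ _) (sq_nonneg _)
        rw [inner_sub_left]
        linarith
      exact (sub_eq_zero.1 h3).symm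
    rw [hvv] at hU
    refine ⟨w, hw0, flat_dir hL hδ (C := C) (fun r hr => ?_) fun ε hε => ?_⟩
    · have h3 := hU r hr
      unfold gap at h3
      rw [rpow_two_real] at h3
      linarith
    have h3 := hasFDerivAt_iff_isLittleO.1 hVd
    have h4 := h3.def (show (0 : ℝ) < ε / ‖w‖ by positivity)
    obtain ⟨η, hη, hη2⟩ := Metric.eventually_nhds_iff.1 h4
    refine ⟨η / (2 * ‖w‖), by positivity, fun σ hσ =>
      ⟨(z + σ • w - H (z + σ • w)) - v, ?_, ?_⟩⟩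
    · have h5 : dist (z + σ • w) z < η := by
        rw [dist_eq_norm, add_sub_cancel_left, norm_smul, Real.norm_eq_abs]
        rw [le_div_iff₀ (by positivity)] at hσ
        have := abs_nonneg σ
        nlinarith
      have h6 := hη2 h5
      rw [add_sub_cancel_left, map_smul, hw, smul_zero, sub_zero, hVz, norm_smul,
        Real.norm_eq_abs] at h6
      have h7 : ε / ‖w‖ * (|σ| * ‖w‖) = ε * |σ| := by
        field_simp
      rwa [h7] at h6
    · intro k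
      have h5 := hH (z + σ • w) k
      have e1 : h + σ • w - (z + σ • w - H (z + σ • w) - v) = H (z + σ • w) := by
        rw [hz]
        abel
      have e2 : v + (z + σ • w - H (z + σ • w) - v) = z + σ • w - H (z + σ • w) := by
        abel
      rw [e1, e2]
      exact h5

end Pool.Agent.W_7d29a1_KL.Minty46
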