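import Pool.Agent.W_7d29a1_KZ.FinA72
import Pool.Agent.W_7d29a1_KZ.SelK70
import Pool.Agent.W_7d29a1_KZ.Dom44
import Pool.Agent.W_7d29a1_KZ.PriK74
import Pool.Agent.W_7d29a1_KZ.EvL5
import Pool.Agent.W_7d29a1_KZ.VarN41
import Pool.Agent.W_7d29a1_KZ.GapN41
import Pool.Agent.W_7d29a1_UN.FinN70
import Pool.Agent.W_7d29a1_SQ.Flu78
import Pool.Agent.W_7d29a1_SQ.Tai94
import Pool.Agent.W_7d29a1_SD.Rs6
import Pool.Agent.W_7d29a1_SD.MainS70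

/-!
Theorem KZ for every law: no hypothesis left.
-/

namespace Pool.Agent.W_7d29a1_KL

open MeasureTheory ProbabilityTheory Filter Topology Pool.Agent.W_MP_7d29a1_pr
  Pool.Agent.W_7d29a1_h46 Pool.Agent.W_7d29a1_h46u Pool.Agent.W_7d29a1_D2.B35
  Pool.Agent.W_7d29a1_Q29 Pool.Agent.W_7d29a1_R34 Pool.Agent.W_7d29a1_SP Pool.Agent.W_7d29a1_SD
  Pool.Agent.W_7d29a1_SQ Pool.Agent.W_7d29a1_KZ

variable {d : ℕ} {ρ : Measure ℝ} {β : ℝ}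

/-- Leaf REC, every law. -/
theorem recKU46 [IsProbabilityMeasure ρ] (hd : 0 < d) (hρ : EM ρ) (hnc : ∀ c : ℝ, ρ {c} ≠ 1)
    (hβ : 0 < β) : RecK d ρ β := by
  have hT : TaiP d ρ β := tai94 (cnt79 hd hρ β)
  exact recKN5 (flu78 hd hρ hT) (balN5 hd hρ hT (lowT5 hd hρ hnc hβ))
    (Pool.Agent.W_7d29a1_AM.ampNAll5 hd hρ hnc hβ) (sscF35 hd hρ β)

/-- **THEOREM KZ, every law.** -/
theorem mainKAU46 [IsProbabilityMeasure ρ] (hd : 0 < d) (hρ : EM ρ) (hnc : ∀ c : ℝ, ρ {c} ≠ 1)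
    (hβ : 0 < β) : MainKA d ρ β :=
  finKA72 (selK70 hd hρ (pairS6 hd β)) (domK44 hd hρ (gapK41 hd hρ hnc hβ))
    (recKU46 hd hρ hnc hβ) (varFN41 hd hρ hnc hβ (cnt79 hd hρ β)) (P74.priK74 hd hρ β)
    fun _ hV => Pool.Agent.W_7d29a1_UN.loc1N hd hρ hV

end Pool.Agent.W_7d29a1_KL
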